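import Pool.Agent.TH6.PF.PMod
import Pool.Agent.TH6.PF.SBar

set_option autoImplicit false
set_option linter.unusedSectionVars false
set_option linter.unusedSimpArgs false
set_option linter.style.haveILetI false

/-! Linear models of a matrix over the group ring of a ring, with small support patterns and
coefficients from a given set of generators of the additive group of the ring. -/

namespace Pool.Agent.N510.LT

open Matrix TH57.Thr TH6.LF TH6.PF

section cs

variable {R : Type} [Ring R] {G : Type} {ι κ : Type}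

/-- the coefficients that are not zero lie in `S` -/
def CS (S : Set R) (A : Matrix ι κ (MonoidAlgebra R G)) : Prop :=
  ∀ i j g, (A i j).coeff g ≠ 0 → (A i j).coeff g ∈ S

theorem CS_zero (S : Set R) : CS S (0 : Matrix ι κ (MonoidAlgebra R G)) :=
  fun _ _ _ h => absurd rfl h

theorem CS_neg {S : Set R} (hS : ∀ s ∈ S, -s ∈ S) {A : Matrix ι κ (MonoidAlgebra R G)}
    (hA : CS S A) : CS S (-A) := by
  intro i j g h
  rw [Matrix.neg_apply, MonoidAlgebra.coeff_neg, Finsupp.neg_apply] at h ⊢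
  exact hS _ (hA i j g (neg_ne_zero.1 h))

theorem CS_fromBlocks {ι' κ' : Type} {S : Set R} {A : Matrix ι κ (MonoidAlgebra R G)}
    {B : Matrix ι κ' (MonoidAlgebra R G)} {C : Matrix ι' κ (MonoidAlgebra R G)}
    {D : Matrix ι' κ' (MonoidAlgebra R G)} (hA : CS S A) (hB : CS S B) (hC : CS S C)
    (hD : CS S D) : CS S (fromBlocks A B C D) := by
  rintro (i | i) (j | j) g h
  · exact hA i j g h
  · exact hB i j g h
  · exact hC i j g h
  · exact hD i j g h

theorem CS_fromCols {κ' : Type} {S : Set R} {A : Matrix ι κ (MonoidAlgebra R G)}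
    {B : Matrix ι κ' (MonoidAlgebra R G)} (hA : CS S A) (hB : CS S B) : CS S (fromCols A B) := by
  rintro i (j | j) g h
  · exact hA i j g h
  · exact hB i j g h

theorem CS_fromRows {ι' : Type} {S : Set R} {A : Matrix ι κ (MonoidAlgebra R G)}
    {B : Matrix ι' κ (MonoidAlgebra R G)} (hA : CS S A) (hB : CS S B) : CS S (fromRows A B) := by
  rintro (i | i) j g h
  · exact hA i j g h
  · exact hB i j g h

theorem CS_submatrix {ι' κ' : Type} {S : Set R} {A : Matrix ι κ (MonoidAlgebra R G)}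
    (hA : CS S A) (e : ι' → ι) (f : κ' → κ) : CS S (A.submatrix e f) :=
  fun i j g h => hA (e i) (f j) g h

theorem CS_one [Group G] [DecidableEq ι] {S : Set R} (h1 : (1 : R) ∈ S) :
    CS S (1 : Matrix ι ι (MonoidAlgebra R G)) := by
  classical
  intro i j g h
  by_cases hij : i = j
  · subst hij
    rw [Matrix.one_apply_eq, MonoidAlgebra.one_def, MonoidAlgebra.coeff_single,
      Finsupp.single_apply] at h ⊢
    by_cases hg : 1 = g
    · rw [if_pos hg]; exact h1
    · rw [if_neg hg] at h; exact absurd rfl h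
  · rw [Matrix.one_apply_ne hij] at h
    exact absurd rfl h

end cs

/-- a symmetric set of generators of the additive group of the ring which contains one -/
structure Gens {R : Type} [Ring R] (S : Set R) : Prop where
  one : (1 : R) ∈ S
  neg : ∀ s ∈ S, -s ∈ S
  gen : AddSubgroup.closure S = ⊤

variable {R : Type} [Ring R] [Nontrivial R] {G : Type} [Group G] {S : Set R}

/-- coefficients in `S` and squared norm of the pattern at most `w` -/
def QS (S : Set R) {ι κ : Type} [Fintype ι] [Fintype κ] (P : Matrix ι κ (MonoidAlgebra R G))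
    (w : ℝ) : Prop := CS S P ∧ PS P w

theorem QS_ext (hS : Gens S) {p n r : Type} [Fintype p] [Fintype n] [Fintype r] [DecidableEq r]
    (B : Matrix p n (MonoidAlgebra R G)) (h : QS S B 2) :
    QS S (fromBlocks B 0 0 (1 : Matrix r r (MonoidAlgebra R G))) 2 :=
  ⟨CS_fromBlocks h.1 (CS_zero S) (CS_zero S) (CS_one hS.one), PS_ext B h.2⟩

/-- `B` is a product of `k + 1` matrices whose patterns have squared norm at most two. -/
def PrS (S : Set R) : ℕ → ∀ (p n : Type) [Fintype p] [Fintype n],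
    Matrix p n (MonoidAlgebra R G) → Prop
  | 0, _, _, _, _, B => QS S B 2
  | k + 1, p, n, _, _, B => ∃ (r : Type) (_ : Fintype r) (_ : DecidableEq r)
      (P : Matrix p r (MonoidAlgebra R G)) (C : Matrix r n (MonoidAlgebra R G)),
      QS S P 2 ∧ PrS S k r n C ∧ B = P * C

theorem PrS_mul : ∀ (k : ℕ) (p n l : Type) [Fintype p] [Fintype n] [Fintype l]
    [DecidableEq n] (B : Matrix p n (MonoidAlgebra R G)) (Q : Matrix n l (MonoidAlgebra R G)),
    PrS S k p n B → QS S Q 2 → PrS S (k + 1) p l (B * Q) := by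
  intro k
  induction k with
  | zero =>
    intro p n l _ _ _ _ B Q h hQ
    exact ⟨n, inferInstance, inferInstance, B, Q, h, hQ, rfl⟩
  | succ k ih =>
    intro p n l _ _ _ _ B Q h hQ
    obtain ⟨r, i1, i2, P, C, hP, hC, rfl⟩ := h
    exact ⟨r, i1, i2, P, C * Q, hP, ih r n l C Q hC hQ, Matrix.mul_assoc _ _ _⟩

theorem PrS_ext (hS : Gens S) : ∀ (k : ℕ) (p n r : Type) [Fintype p] [Fintype n] [Fintype r]
    [DecidableEq r] (B : Matrix p n (MonoidAlgebra R G)), PrS S k p n B →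
    PrS S k (p ⊕ r) (n ⊕ r) (fromBlocks B 0 0 (1 : Matrix r r (MonoidAlgebra R G))) := by
  intro k
  induction k with
  | zero =>
    intro p n r _ _ _ _ B h
    exact QS_ext hS B h
  | succ k ih =>
    intro p n r _ _ _ _ B h
    obtain ⟨t, i1, i2, P, C, hP, hC, rfl⟩ := h
    refine ⟨t ⊕ r, inferInstance, inferInstance, fromBlocks P 0 0 1, fromBlocks C 0 0 1,
      QS_ext hS P hP, ih t n r C hC, ?_⟩
    rw [Matrix.fromBlocks_multiply]; simp

section add

variable {p n : Type} [Fintype p] [Fintype n] [DecidableEq p] [DecidableEq n]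

theorem PrS_add (hS : Gens S) (k : ℕ) (B : Matrix p n (MonoidAlgebra R G)) (h : PrS S k p n B)
    (i : p) (j : n) (g : G) (r : R) (hr : r ≠ 0) (hrS : r ∈ S) :
    PrS S (k + 2) p n (B + Matrix.single i j (MonoidAlgebra.single g r)) := by
  set a : MonoidAlgebra R G := MonoidAlgebra.single g r with ha
  let C1 : Matrix p (p ⊕ Unit) (MonoidAlgebra R G) := fromCols 1 (fun k _ => if k = i then 1 else 0)
  let C2 : Matrix (n ⊕ Unit) n (MonoidAlgebra R G) := fromRows 1 (fun _ l => if l = j then a else 0)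
  have hC1l : ∀ k l, C1 k (Sum.inl l) = if k = l then 1 else 0 := fun k l => Matrix.one_apply
  have hC1r : ∀ k l, C1 k (Sum.inr l) = if k = i then 1 else 0 := fun k l => rfl
  have hC2l : ∀ k l, C2 (Sum.inl k) l = if k = l then 1 else 0 := fun k l => Matrix.one_apply
  have hC2r : ∀ k l, C2 (Sum.inr k) l = if l = j then a else 0 := fun k l => rfl
  have m1 : MonoidAlgebra.map (Int.castAddHom ℝ) (1 : MonoidAlgebra ℤ G) = 1 := by
    ext h; simp [MonoidAlgebra.one_def]
  have m0 : MonoidAlgebra.map (Int.castAddHom ℝ) (0 : MonoidAlgebra ℤ G) = 0 := by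
    ext h; simp
  have ma : MonoidAlgebra.map (Int.castAddHom ℝ) (MonoidAlgebra.single g (1 : ℤ))
      = MonoidAlgebra.single g 1 := by
    ext h; simp
  have hC1 : PS C1 2 := by
    intro x
    have h1 : x ᵥ* tp C1 = Sum.elim x (fun _ => x i) := by
      funext l
      rcases l with l | l
      · simp [tp, Matrix.vecMul, dotProduct, hC1l, apply_ite, pat1_one, m1]
      · simp [tp, Matrix.vecMul, dotProduct, hC1r, apply_ite, pat1_one, m1]
    rw [h1, normSq_elim]
    have h2 : normSq (fun _ : Unit => x i) ≤ normSq x := by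
      rw [normSq_eq, normSq_eq]
      simp only [Finset.univ_unique, Finset.sum_const, Finset.card_singleton, one_smul]
      exact Finset.single_le_sum (f := fun i => n1 (x i)) (fun _ _ => n1_nonneg _)
        (Finset.mem_univ i)
    linarith
  have hC2 : PS C2 2 := by
    intro x
    have h1 : x ᵥ* tp C2 = (x ∘ Sum.inl)
        + (fun l => if l = j then x (Sum.inr ()) * MonoidAlgebra.single g (1 : ℝ) else 0) := by
      funext l
      simp only [tp, Matrix.vecMul, dotProduct, Fintype.sum_sum_type, Matrix.map_apply, hC2l,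
        hC2r, apply_ite, pat1_one, pat1_zero, m1, m0, mul_one, mul_zero, Finset.sum_ite_eq',
        Finset.mem_univ, if_true, Pi.add_apply, Function.comp_apply, Finset.univ_unique,
        Finset.sum_singleton, ha, pat1_single g r hr, ma]
      by_cases hl : l = j
      · simp [hl]
      · simp [hl]
    have h3 : normSq (fun l => if l = j then
        x (Sum.inr ()) * MonoidAlgebra.single g (1 : ℝ) else 0) = n1 (x (Sum.inr ())) := by
      rw [normSq_eq]
      rw [Finset.sum_eq_single j]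
      · rw [if_pos rfl]
        exact n1_mul_single _ _
      · intro l _ hl
        rw [if_neg hl, n1_zero]
      · intro h; exact absurd (Finset.mem_univ _) h
    have h4 : normSq (x ∘ Sum.inr) = n1 (x (Sum.inr ())) := by
      rw [normSq_eq]; simp
    rw [h1]
    have h2 := normSq_add_le (x ∘ Sum.inl) (fun l => if l = j then
      x (Sum.inr ()) * MonoidAlgebra.single g (1 : ℝ) else 0) 1 one_pos
    rw [h3] at h2
    rw [normSq_sum x, h4]
    linarith
  have hs1 : CS S (1 : Matrix p p (MonoidAlgebra R G)) := CS_one hS.one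
  have hs2 : CS S (1 : Matrix n n (MonoidAlgebra R G)) := CS_one hS.one
  have hQ1 : QS S C1 2 := ⟨CS_fromCols hs1 (by
    intro k l h' hh
    by_cases hk : k = i
    · have h5 := hs1 i i h'
      rw [Matrix.one_apply_eq] at h5
      simp only [if_pos hk] at hh ⊢
      exact h5 hh
    · simp only [if_neg hk] at hh
      exact absurd rfl hh), hC1⟩
  have hQ2 : QS S C2 2 := ⟨CS_fromRows hs2 (by
    classical
    intro k l h' hh
    by_cases hk : l = j
    · simp only [if_pos hk] at hh ⊢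
      rw [ha, MonoidAlgebra.coeff_single, Finsupp.single_apply] at hh ⊢
      by_cases hg : g = h'
      · rw [if_pos hg]; exact hrS
      · rw [if_neg hg] at hh; exact absurd rfl hh
    · simp only [if_neg hk] at hh
      exact absurd rfl hh), hC2⟩
  have h1 := PrS_mul k _ _ _ _ C2 (PrS_ext hS k p n Unit B h) hQ2
  refine ⟨p ⊕ Unit, inferInstance, inferInstance, C1, _, hQ1, h1, ?_⟩
  ext1 k l
  simp only [Matrix.mul_apply, Fintype.sum_sum_type, hC1l, hC1r, hC2l, hC2r, fromBlocks_apply₁₁,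
    fromBlocks_apply₁₂, fromBlocks_apply₂₁, fromBlocks_apply₂₂, Matrix.zero_apply, zero_mul,
    Finset.sum_const_zero, add_zero, zero_add, Finset.univ_unique, Finset.sum_singleton,
    Matrix.one_apply_eq, one_mul, mul_ite, mul_one, mul_zero, Finset.sum_ite_eq', Finset.mem_univ,
    if_true, ite_mul, Finset.sum_ite_eq, Matrix.add_apply, Matrix.single_apply]
  congr 1
  · simp
  · by_cases hk : k = i
    · subst hk
      by_cases hl : l = j
      · subst hl; simp
      · have hl' : ¬ j = l := fun h => hl h.symm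
        simp [hl, hl']
    · have hk' : ¬ i = k := fun h => hk h.symm
      simp [hk, hk']

theorem PrS_all (hS : Gens S) (A : Matrix p n (MonoidAlgebra R G)) : ∃ k, PrS S k p n A := by
  have key : ∀ M : Matrix p n (MonoidAlgebra R G), ∀ A : Matrix p n (MonoidAlgebra R G),
      (∃ k, PrS S k p n A) → ∃ k, PrS S k p n (A + M) := by
    intro M
    induction M using Matrix.induction_on' with
    | h_zero => intro A h; simpa using h
    | h_add P Q hP hQ =>
      intro A h
      rw [← add_assoc]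
      exact hQ _ (hP _ h)
    | h_std_basis i j a =>
      induction a using MonoidAlgebra.induction_linear with
      | zero => intro A h; simpa using h
      | add a b ha hb =>
        intro A h
        rw [Matrix.single_add, ← add_assoc]
        exact hb _ (ha _ h)
      | single g r =>
        have hr : r ∈ AddSubmonoid.closure (S ∪ -S) := by
          rw [← AddSubgroup.closure_toAddSubmonoid, hS.gen]; trivial
        induction hr using AddSubmonoid.closure_induction with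
        | zero => intro A h; simpa using h
        | add a b _ _ ha hb =>
          intro A h
          rw [MonoidAlgebra.single_add, Matrix.single_add, ← add_assoc]
          exact hb _ (ha _ h)
        | mem r hr =>
          intro A h
          by_cases hr0 : r = 0
          · subst hr0; simpa using h
          · obtain ⟨k, hk⟩ := h
            refine ⟨k + 2, PrS_add hS k _ hk i j g r hr0 ?_⟩
            rcases hr with hr | hr
            · exact hr
            · rw [← neg_neg r]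
              exact hS.neg _ hr
  have h0 : QS S (0 : Matrix p n (MonoidAlgebra R G)) 2 := by
    refine ⟨CS_zero S, ?_⟩
    intro x
    rw [tp_zero, Matrix.vecMul_zero]
    have : normSq (0 : n → MonoidAlgebra ℝ G) = 0 := by
      rw [normSq_eq]
      exact Finset.sum_eq_zero fun i _ => n1_zero
    rw [this]
    exact mul_nonneg (by norm_num) (normSq_nonneg _)
  obtain ⟨k, hk⟩ := key A 0 ⟨0, h0⟩
  exact ⟨k, by simpa using hk⟩

end add

/-- A linear model of the matrix `B`. -/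
def Mod (S : Set R) (r γ β : ℝ) {p n : Type} [Fintype p] [Fintype n]
    (B : Matrix p n (MonoidAlgebra R G)) : Prop :=
  ∃ (q : Type) (_ : Fintype q) (_ : DecidableEq q) (X : Matrix p q (MonoidAlgebra R G))
    (Y : Matrix q n (MonoidAlgebra R G)) (Z W : Matrix q q (MonoidAlgebra R G)),
    Z ∈ El (R := MonoidAlgebra R G) q ∧ Z * W = 1 ∧ W * Z = 1 ∧ -(X * W * Y) = B ∧
    3 ≤ Fintype.card q ∧ CS S X ∧ CS S Y ∧ CS S Z ∧
    ∀ (x : p → MonoidAlgebra ℝ G) (y : n → MonoidAlgebra ℝ G) (a b : q → MonoidAlgebra ℝ G),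
      r * (2 * |ip (x ᵥ* tp X) a + ip (b ᵥ* tp Z) a + ip (b ᵥ* tp Y) y|) ≤
        β * normSq x + 2 * normSq y + γ * (normSq a + normSq b)

section mod

variable {p n m : Type} [Fintype p] [Fintype n] [Fintype m] [DecidableEq p] [DecidableEq n]
  [DecidableEq m]

theorem Mod.mono {r γ β β' : ℝ} {B : Matrix p n (MonoidAlgebra R G)} (h : Mod S r γ β B)
    (hb : β ≤ β') : Mod S r γ β' B := by
  obtain ⟨q, i1, i2, X, Y, Z, W, h1, h2, h3, h4, h5, k1, k2, k3, h6⟩ := h
  refine ⟨q, i1, i2, X, Y, Z, W, h1, h2, h3, h4, h5, k1, k2, k3,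
    fun x y a b => (h6 x y a b).trans ?_⟩
  have := mul_le_mul_of_nonneg_right hb (normSq_nonneg x)
  linarith

theorem mod_base (hS : Gens S) {r γ : ℝ} (hr0 : 0 < r) (hr : r ^ 2 = 2) (hγ : 3 ≤ γ)
    (B : Matrix p n (MonoidAlgebra R G)) (hB' : QS S B 2) : Mod S r γ 2 B := by
  have hB := hB'.2
  refine ⟨n ⊕ Fin 3, inferInstance, inferInstance, fromCols B 0, fromRows (-1) 0, 1, 1,
    one_mem _, by rw [Matrix.one_mul], by rw [Matrix.one_mul], ?_, by simp,
    CS_fromCols hB'.1 (CS_zero S), CS_fromRows (CS_neg hS.neg (CS_one hS.one)) (CS_zero S),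
    CS_one hS.one, ?_⟩
  · rw [Matrix.mul_one, Matrix.fromCols_mul_fromRows]
    simp
  · intro x y a b
    rw [vm_fromCols, tp_one, Matrix.vecMul_one, vm_fromRows, tp_neg, tp_one, Matrix.vecMul_one,
      ip_elim, ip_elim b a]
    have e4 : (Sum.elim (x ᵥ* tp B) (0 : Fin 3 → MonoidAlgebra ℝ G)) ∘ Sum.inl
        = x ᵥ* tp B := rfl
    have e5 : (Sum.elim (x ᵥ* tp B) (0 : Fin 3 → MonoidAlgebra ℝ G)) ∘ Sum.inr = 0 := rfl
    rw [e4, e5, ip_zero_left, normSq_sum a, normSq_sum b]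
    set a1 := a ∘ Sum.inl
    set a2 := a ∘ Sum.inr
    set b1 := b ∘ Sum.inl
    set b2 := b ∘ Sum.inr
    have f1 := rip hr0 hr (x ᵥ* tp B) a1 1 one_pos
    have f2 := rip hr0 hr b1 a1 2 two_pos
    have f3 := rip hr0 hr b1 y 1 one_pos
    have f4 := rip hr0 hr b2 a2 1 one_pos
    have f5 := hB x
    have g1 := normSq_nonneg a1
    have g2 := normSq_nonneg a2
    have g3 := normSq_nonneg b1
    have g4 := normSq_nonneg b2
    have habs : |ip (x ᵥ* tp B) a1 + 0 + (ip b1 a1 + ip b2 a2) + ip b1 y| ≤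
        |ip (x ᵥ* tp B) a1| + |ip b1 a1| + |ip b2 a2| + |ip b1 y| := by
      have t1 := abs_add_le (ip (x ᵥ* tp B) a1 + 0 + (ip b1 a1 + ip b2 a2)) (ip b1 y)
      have t2 := abs_add_le (ip (x ᵥ* tp B) a1 + 0) (ip b1 a1 + ip b2 a2)
      have t3 := abs_add_le (ip b1 a1) (ip b2 a2)
      rw [add_zero] at t2 t1 ⊢
      linarith
    have hm := mul_le_mul_of_nonneg_left habs (show 0 ≤ r * 2 by positivity)
    have h1 : γ * (normSq a1 + normSq a2 + (normSq b1 + normSq b2))
        ≥ 3 * (normSq a1 + normSq a2 + (normSq b1 + normSq b2)) :=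
      mul_le_mul_of_nonneg_right hγ (by positivity)
    norm_num at f1 f2 f3 f4
    nlinarith

theorem mod_step (hS : Gens S) {r γ β w : ℝ} (hr0 : 0 < r) (hr : r ^ 2 = 2) (hβ : β < γ)
    (hδ : 0 < γ - 2 / (γ - β)) (P : Matrix m p (MonoidAlgebra R G)) (hP' : QS S P w)
    (B : Matrix p n (MonoidAlgebra R G)) (h : Mod S r γ β B) :
    Mod S r γ (2 * w / (γ - 2 / (γ - β))) (P * B) := by
  have hP := hP'.2
  obtain ⟨q, i1, i2, X, Y, Z, W, h1, h2, h3, h4, h5, k1, k2, k3, h6⟩ := h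
  refine ⟨p ⊕ q, inferInstance, inferInstance, fromCols (-P) 0, fromRows 0 Y,
    fromBlocks 1 X 0 Z, fromBlocks 1 (-(X * W)) 0 W, ?_, ?_, ?_, ?_, ?_,
    CS_fromCols (CS_neg hS.neg hP'.1) (CS_zero S), CS_fromRows (CS_zero S) k2,
    CS_fromBlocks (CS_one hS.one) k1 (CS_zero S) k3, ?_⟩
  · have e : fromBlocks 1 X 0 Z = fromBlocks (1 : Matrix p p (MonoidAlgebra R G)) 0 0 Z
        * (1 + fromBlocks 0 X 0 0) := by
      rw [← Matrix.fromBlocks_one, Matrix.fromBlocks_add, Matrix.fromBlocks_multiply]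
      simp
    rw [e]
    refine mul_mem (el_ext2 Z h1) (el_unip (Finset.univ.filter fun v : p ⊕ q => v.isLeft) _ ?_)
    rintro (i | i) (j | j) h <;> simp at h ⊢
  · rw [Matrix.fromBlocks_multiply, ← Matrix.fromBlocks_one]
    simp [h2]
  · rw [Matrix.fromBlocks_multiply, ← Matrix.fromBlocks_one]
    simp [h3, Matrix.mul_assoc]
  · rw [Matrix.fromCols_mul_fromBlocks, Matrix.fromCols_mul_fromRows, ← h4]
    simp [Matrix.mul_assoc]
  · rw [Fintype.card_sum]; omega
  · intro x y a b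
    have e2 : b ᵥ* tp (fromBlocks (1 : Matrix p p (MonoidAlgebra R G)) X 0 Z)
        = Sum.elim (b ∘ Sum.inl) ((b ∘ Sum.inl) ᵥ* tp X + (b ∘ Sum.inr) ᵥ* tp Z) := by
      rw [tp_fromBlocks, tp_one, tp_zero]
      conv_lhs => rw [← Sum.elim_comp_inl_inr b]
      rw [Matrix.vecMul_fromBlocks]
      simp
    rw [vm_fromCols, tp_neg, e2, vm_fromRows', ip_elim, ip_elim (Sum.elim _ _) a]
    have e4 : (Sum.elim (x ᵥ* tp P) (0 : q → MonoidAlgebra ℝ G)) ∘ Sum.inl
        = x ᵥ* tp P := rfl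
    have e5 : (Sum.elim (x ᵥ* tp P) (0 : q → MonoidAlgebra ℝ G)) ∘ Sum.inr = 0 := rfl
    have e6 : (Sum.elim (b ∘ Sum.inl) ((b ∘ Sum.inl) ᵥ* tp X + (b ∘ Sum.inr) ᵥ* tp Z))
        ∘ Sum.inl = b ∘ Sum.inl := rfl
    have e7 : (Sum.elim (b ∘ Sum.inl) ((b ∘ Sum.inl) ᵥ* tp X + (b ∘ Sum.inr) ᵥ* tp Z))
        ∘ Sum.inr = (b ∘ Sum.inl) ᵥ* tp X + (b ∘ Sum.inr) ᵥ* tp Z := rfl
    rw [e4, e5, e6, e7, ip_zero_left, normSq_sum a, normSq_sum b, ip_add_left]
    set a1 := a ∘ Sum.inl
    set a2 := a ∘ Sum.inr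
    set b1 := b ∘ Sum.inl
    set b2 := b ∘ Sum.inr
    have f0 := h6 b1 y a2 b2
    have hγβ : 0 < γ - β := by linarith
    have f1 := rip hr0 hr b1 a1 (γ - β) hγβ
    have f2 := rip hr0 hr (x ᵥ* tp P) a1 (2 / (γ - 2 / (γ - β))) (by positivity)
    have f3 := hP x
    set δ := γ - 2 / (γ - β) with hδd
    have f4 : 2 / (2 / δ) = δ := by field_simp
    rw [f4] at f2
    have f5 : 2 / δ * normSq (x ᵥ* tp P) ≤ 2 * w / δ * normSq x := by
      have := mul_le_mul_of_nonneg_left f3 (show 0 ≤ 2 / δ by positivity)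
      calc _ ≤ 2 / δ * (w * normSq x) := this
        _ = _ := by ring
    have habs : |ip (x ᵥ* tp P) a1 + 0 + (ip b1 a1 + (ip (b1 ᵥ* tp X) a2
        + ip (b2 ᵥ* tp Z) a2)) + ip (b2 ᵥ* tp Y) y| ≤
        |ip (x ᵥ* tp P) a1| + |ip b1 a1| + |ip (b1 ᵥ* tp X) a2
        + ip (b2 ᵥ* tp Z) a2 + ip (b2 ᵥ* tp Y) y| := by
      have t1 := abs_add_le (ip (x ᵥ* tp P) a1) (ip b1 a1 + (ip (b1 ᵥ* tp X) a2
        + ip (b2 ᵥ* tp Z) a2 + ip (b2 ᵥ* tp Y) y))
      have t2 := abs_add_le (ip b1 a1) (ip (b1 ᵥ* tp X) a2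
        + ip (b2 ᵥ* tp Z) a2 + ip (b2 ᵥ* tp Y) y)
      have t3 : ip (x ᵥ* tp P) a1 + 0 + (ip b1 a1 + (ip (b1 ᵥ* tp X) a2
        + ip (b2 ᵥ* tp Z) a2)) + ip (b2 ᵥ* tp Y) y
        = ip (x ᵥ* tp P) a1 + (ip b1 a1 + (ip (b1 ᵥ* tp X) a2
        + ip (b2 ᵥ* tp Z) a2 + ip (b2 ᵥ* tp Y) y)) := by ring
      rw [t3]
      linarith
    have hm := mul_le_mul_of_nonneg_left habs (show 0 ≤ r * 2 by positivity)
    have h7 : δ * normSq a1 = γ * normSq a1 - 2 / (γ - β) * normSq a1 := by
      rw [hδd]; ring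
    rw [h7] at f2
    linarith

theorem mod_reduce (hS : Gens S) {r γ : ℝ} (hr0 : 0 < r) (hr : r ^ 2 = 2) (hγ : 3 < γ)
    (B : Matrix p n (MonoidAlgebra R G)) (h : Mod S r γ 2 B) : Mod S r γ 1 B := by
  set η : ℝ := (γ - 3) / ((γ - 2) * (γ + 1)) with hη
  have hη0 : 0 < η := div_pos (by linarith) (mul_pos (by linarith) (by linarith))
  have key : ∀ k : ℕ, ∀ β : ℝ, β ≤ 2 → β ≤ 1 + k * η → Mod S r γ β B → Mod S r γ 1 B := by
    intro k
    induction k with
    | zero =>
      intro β _ hb hB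
      exact hB.mono (by simpa using hb)
    | succ k ih =>
      intro β hβ2 hb hB
      by_cases h1 : β ≤ 1
      · exact hB.mono h1
      push Not at h1
      have hγβ : 0 < γ - β := by linarith
      have hD : 0 < γ * (γ - β) - 2 := by nlinarith
      have hδ : γ - 2 / (γ - β) = (γ * (γ - β) - 2) / (γ - β) := by
        field_simp
      have hδ0 : 0 < γ - 2 / (γ - β) := by rw [hδ]; positivity
      have hstep := mod_step hS hr0 hr (by linarith) hδ0 (1 : Matrix p p (MonoidAlgebra R G))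
        ⟨CS_one hS.one, PS_one⟩ B hB
      rw [Matrix.one_mul, mul_one, hδ] at hstep
      have hval : 2 / ((γ * (γ - β) - 2) / (γ - β)) = 2 * (γ - β) / (γ * (γ - β) - 2) := by
        field_simp
      rw [hval] at hstep
      have hle : 2 * (γ - β) / (γ * (γ - β) - 2) ≤ β - η := by
        have h2 : (γ - 3) / ((γ - 2) * (γ + 1)) ≤ (γ - 3) / (γ * (γ - β) - 2) := by
          apply div_le_div_of_nonneg_left (by linarith) hD
          nlinarith
        have h3 : 2 * (γ - β) / (γ * (γ - β) - 2) + (γ - 3) / (γ * (γ - β) - 2) ≤ β := by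
          rw [← add_div, div_le_iff₀ hD]
          nlinarith [mul_nonneg (show 0 ≤ β - 1 by linarith) (show 0 ≤ 2 - β by linarith),
            mul_nonneg (mul_nonneg (show 0 ≤ β - 1 by linarith) (show 0 ≤ 2 - β by linarith))
              (show 0 ≤ γ by linarith),
            mul_nonneg (show 0 ≤ γ - 3 by linarith) (show 0 ≤ β - 1 by linarith),
            mul_nonneg (mul_nonneg (show 0 ≤ γ - 3 by linarith) (show 0 ≤ β - 1 by linarith))
              (show 0 ≤ γ by linarith)]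
        linarith
      refine ih _ (by linarith) ?_ hstep
      push_cast at hb
      linarith
  obtain ⟨k, hk⟩ := exists_nat_gt (1 / η)
  refine key k 2 le_rfl ?_ h
  rw [div_lt_iff₀ hη0] at hk
  linarith

theorem mod_of_Pr (hS : Gens S) {r γ : ℝ} (hr0 : 0 < r) (hr : r ^ 2 = 2) (hγ : 3 < γ) :
    ∀ (k : ℕ) (p n : Type) [Fintype p] [Fintype n] [DecidableEq p] [DecidableEq n]
      (B : Matrix p n (MonoidAlgebra R G)), PrS S k p n B → Mod S r γ 1 B := by
  intro k
  induction k with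
  | zero =>
    intro p n _ _ _ _ B h
    exact mod_reduce hS hr0 hr hγ B (mod_base hS hr0 hr hγ.le B h)
  | succ k ih =>
    intro p n _ _ _ _ B h
    obtain ⟨r', i1, i2, P, C, hP, hC, rfl⟩ := h
    have h1 := ih r' n C hC
    have h2 : γ - 2 / (γ - 1) ≥ 2 := by
      have h3 : 0 < γ - 1 := by linarith
      have : 2 / (γ - 1) ≤ 1 := by rw [div_le_one h3]; linarith
      linarith
    have h3 := mod_step hS hr0 hr (by linarith) (by linarith) P hP C h1
    refine mod_reduce hS hr0 hr hγ _ (h3.mono ?_)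
    rw [div_le_iff₀ (by linarith)]
    linarith

theorem mod_all (hS : Gens S) {r γ : ℝ} (hr0 : 0 < r) (hr : r ^ 2 = 2) (hγ : 3 < γ)
    (B : Matrix p n (MonoidAlgebra R G)) : Mod S r γ 1 B := by
  obtain ⟨k, hk⟩ := PrS_all hS B
  exact mod_of_Pr hS hr0 hr hγ k p n B hk

end mod

/-- A linear model of the matrix `B` near the identity. -/
def ModD (S : Set R) (β : ℝ) {p n : Type} [Fintype p] [Fintype n]
    (B : Matrix p n (MonoidAlgebra R G)) : Prop :=
  ∃ (q : Type) (_ : Fintype q) (_ : DecidableEq q) (X : Matrix p q (MonoidAlgebra R G))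
    (Y : Matrix q n (MonoidAlgebra R G)) (Z W : Matrix q q (MonoidAlgebra R G)),
    1 + Z ∈ El (R := MonoidAlgebra R G) q ∧ (1 + Z) * W = 1 ∧ W * (1 + Z) = 1 ∧
    -(X * W * Y) = B ∧ 3 ≤ Fintype.card q ∧ CS S X ∧ CS S Y ∧ CS S Z ∧
    ∀ (x : p → MonoidAlgebra ℝ G) (y : n → MonoidAlgebra ℝ G) (a b : q → MonoidAlgebra ℝ G),
      Real.sqrt 2 * (2 * |ip (x ᵥ* tp X) b + ip (a ᵥ* tp Z) b + ip (a ᵥ* tp Y) y|) ≤
        β * normSq x + normSq y + 2 * (normSq a + normSq b)

section mod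

variable {p n m : Type} [Fintype p] [Fintype n] [Fintype m] [DecidableEq p] [DecidableEq n]
  [DecidableEq m]

theorem modD_base (hS : Gens S) (B : Matrix p n (MonoidAlgebra R G)) (hB' : QS S B 2) :
    ModD S 2 B := by
  have hB := hB'.2
  refine ⟨n ⊕ Fin 3, inferInstance, inferInstance, fromCols B 0, fromRows (-1) 0, 0, 1,
    by rw [add_zero]; exact one_mem _, by simp, by simp, ?_, by simp,
    CS_fromCols hB'.1 (CS_zero S), CS_fromRows (CS_neg hS.neg (CS_one hS.one)) (CS_zero S),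
    CS_zero S, ?_⟩
  · rw [Matrix.mul_one, Matrix.fromCols_mul_fromRows]
    simp
  · intro x y a b
    rw [vm_fromCols, tp_zero, Matrix.vecMul_zero, vm_fromRows, tp_neg, tp_one, Matrix.vecMul_one,
      ip_elim, ip_zero_left]
    have e4 : (Sum.elim (x ᵥ* tp B) (0 : Fin 3 → MonoidAlgebra ℝ G)) ∘ Sum.inl
        = x ᵥ* tp B := rfl
    have e5 : (Sum.elim (x ᵥ* tp B) (0 : Fin 3 → MonoidAlgebra ℝ G)) ∘ Sum.inr = 0 := rfl
    rw [e4, e5, ip_zero_left, normSq_sum a, normSq_sum b]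
    set a1 := a ∘ Sum.inl
    set a2 := a ∘ Sum.inr
    set b1 := b ∘ Sum.inl
    set b2 := b ∘ Sum.inr
    have f1 := rip sqrt2_pos sqrt2_sq (x ᵥ* tp B) b1 1 one_pos
    have f2 := rip sqrt2_pos sqrt2_sq a1 y 2 two_pos
    have f5 := hB x
    have g1 := normSq_nonneg a2
    have g2 := normSq_nonneg b2
    have habs : |ip (x ᵥ* tp B) b1 + 0 + 0 + ip a1 y| ≤
        |ip (x ᵥ* tp B) b1| + |ip a1 y| := by
      rw [add_zero, add_zero]
      exact abs_add_le _ _
    have hm := mul_le_mul_of_nonneg_left habs (show 0 ≤ Real.sqrt 2 * 2 by positivity)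
    norm_num at f1 f2
    nlinarith

theorem modD_step (hS : Gens S) {β w : ℝ} (hβ : β ≤ 2) (P : Matrix m p (MonoidAlgebra R G))
    (hP' : QS S P w) (B : Matrix p n (MonoidAlgebra R G)) (h : ModD S β B) :
    ModD S w (P * B) := by
  have hP := hP'.2
  obtain ⟨q, i1, i2, X, Y, Z, W, h1, h2, h3, h4, h5, k1, k2, k3, h6⟩ := h
  have hZ : (1 + fromBlocks 0 X 0 Z : Matrix (p ⊕ q) (p ⊕ q) (MonoidAlgebra R G))
      = fromBlocks 1 X 0 (1 + Z) := by
    rw [← Matrix.fromBlocks_one, Matrix.fromBlocks_add]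
    simp
  refine ⟨p ⊕ q, inferInstance, inferInstance, fromCols (-P) 0, fromRows 0 Y,
    fromBlocks 0 X 0 Z, fromBlocks 1 (-(X * W)) 0 W, ?_, ?_, ?_, ?_, ?_,
    CS_fromCols (CS_neg hS.neg hP'.1) (CS_zero S), CS_fromRows (CS_zero S) k2,
    CS_fromBlocks (CS_zero S) k1 (CS_zero S) k3, ?_⟩
  · have e : fromBlocks 1 X 0 (1 + Z) = fromBlocks (1 : Matrix p p (MonoidAlgebra R G)) 0 0 (1 + Z)
        * (1 + fromBlocks 0 X 0 0) := by
      rw [← Matrix.fromBlocks_one, Matrix.fromBlocks_add, Matrix.fromBlocks_multiply]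
      simp
    rw [hZ, e]
    refine mul_mem (el_ext2 (1 + Z) h1)
      (el_unip (Finset.univ.filter fun v : p ⊕ q => v.isLeft) _ ?_)
    rintro (i | i) (j | j) h <;> simp at h ⊢
  · rw [hZ, Matrix.fromBlocks_multiply, ← Matrix.fromBlocks_one]
    simp [h2]
  · rw [hZ, Matrix.fromBlocks_multiply, ← Matrix.fromBlocks_one]
    simp [h3, Matrix.mul_assoc]
  · rw [Matrix.fromCols_mul_fromBlocks, Matrix.fromCols_mul_fromRows, ← h4]
    simp [Matrix.mul_assoc]
  · rw [Fintype.card_sum]; omega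
  · intro x y a b
    have e2 : a ᵥ* tp (fromBlocks (0 : Matrix p p (MonoidAlgebra R G)) X 0 Z)
        = Sum.elim (0 : p → MonoidAlgebra ℝ G) ((a ∘ Sum.inl) ᵥ* tp X + (a ∘ Sum.inr) ᵥ* tp Z) := by
      rw [tp_fromBlocks, tp_zero, tp_zero]
      conv_lhs => rw [← Sum.elim_comp_inl_inr a]
      rw [Matrix.vecMul_fromBlocks]
      simp
    rw [vm_fromCols, tp_neg, e2, vm_fromRows', ip_elim, ip_elim (Sum.elim _ _) b]
    have e4 : (Sum.elim (x ᵥ* tp P) (0 : q → MonoidAlgebra ℝ G)) ∘ Sum.inl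
        = x ᵥ* tp P := rfl
    have e5 : (Sum.elim (x ᵥ* tp P) (0 : q → MonoidAlgebra ℝ G)) ∘ Sum.inr = 0 := rfl
    have e6 : (Sum.elim (0 : p → MonoidAlgebra ℝ G)
        ((a ∘ Sum.inl) ᵥ* tp X + (a ∘ Sum.inr) ᵥ* tp Z)) ∘ Sum.inl = 0 := rfl
    have e7 : (Sum.elim (0 : p → MonoidAlgebra ℝ G)
        ((a ∘ Sum.inl) ᵥ* tp X + (a ∘ Sum.inr) ᵥ* tp Z))
        ∘ Sum.inr = (a ∘ Sum.inl) ᵥ* tp X + (a ∘ Sum.inr) ᵥ* tp Z := rfl
    rw [e4, e5, e6, e7, ip_zero_left, ip_zero_left, normSq_sum a, normSq_sum b, ip_add_left]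
    set a1 := a ∘ Sum.inl
    set a2 := a ∘ Sum.inr
    set b1 := b ∘ Sum.inl
    set b2 := b ∘ Sum.inr
    have f0 := h6 a1 y a2 b2
    have f1 := rip sqrt2_pos sqrt2_sq (x ᵥ* tp P) b1 1 one_pos
    have f2 := hP x
    have f3 := mul_le_mul_of_nonneg_right hβ (normSq_nonneg a1)
    have habs : |ip (x ᵥ* tp P) b1 + 0 + (0 + (ip (a1 ᵥ* tp X) b2
        + ip (a2 ᵥ* tp Z) b2)) + ip (a2 ᵥ* tp Y) y| ≤
        |ip (x ᵥ* tp P) b1| + |ip (a1 ᵥ* tp X) b2
        + ip (a2 ᵥ* tp Z) b2 + ip (a2 ᵥ* tp Y) y| := by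
      have t1 := abs_add_le (ip (x ᵥ* tp P) b1) (ip (a1 ᵥ* tp X) b2
        + ip (a2 ᵥ* tp Z) b2 + ip (a2 ᵥ* tp Y) y)
      have t3 : ip (x ᵥ* tp P) b1 + 0 + (0 + (ip (a1 ᵥ* tp X) b2
        + ip (a2 ᵥ* tp Z) b2)) + ip (a2 ᵥ* tp Y) y
        = ip (x ᵥ* tp P) b1 + (ip (a1 ᵥ* tp X) b2
        + ip (a2 ᵥ* tp Z) b2 + ip (a2 ᵥ* tp Y) y) := by ring
      rw [t3]
      exact t1
    have hm := mul_le_mul_of_nonneg_left habs (show 0 ≤ Real.sqrt 2 * 2 by positivity)
    norm_num at f1
    nlinarith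

theorem modD_of_Pr (hS : Gens S) : ∀ (k : ℕ) (p n : Type) [Fintype p] [Fintype n]
    [DecidableEq p] [DecidableEq n] (B : Matrix p n (MonoidAlgebra R G)),
    PrS S k p n B → ModD S 2 B := by
  intro k
  induction k with
  | zero =>
    intro p n _ _ _ _ B h
    exact modD_base hS B h
  | succ k ih =>
    intro p n _ _ _ _ B h
    obtain ⟨r', i1, i2, P, C, hP, hC, rfl⟩ := h
    exact modD_step hS le_rfl P hP C (ih r' n C hC)

theorem modD_all (hS : Gens S) (B : Matrix p n (MonoidAlgebra R G)) : ModD S 1 B := by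
  obtain ⟨k, hk⟩ := PrS_all hS B
  have h := modD_step hS le_rfl (1 : Matrix p p (MonoidAlgebra R G))
    ⟨CS_one hS.one, PS_one⟩ B (modD_of_Pr hS k p n B hk)
  rwa [Matrix.one_mul] at h

end mod

end Pool.Agent.N510.LT
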