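import Pool.Agent.N510.LT.Near

set_option autoImplicit false
set_option linter.unusedSectionVars false

/-! Forms near the hyperbolic form over the group ring of an arbitrary ring with involution. -/

namespace Pool.Agent.N510.LT

open Matrix TH57.Thr TH6.LF TH6.PF

variable {R : Type} [Ring R] [StarRing R] {Γ : Type} [Group Γ] {κ μ ι : Type} [Fintype κ]
  [DecidableEq κ] [Fintype μ] [DecidableEq μ] [Fintype ι] [DecidableEq ι]

/-- a vector with at most one term -/
def Mono {J : Type} (v : J → MonoidAlgebra R Γ) : Prop :=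
  (∀ j, v j = 0) ∨ ∃ (j : J) (g : Γ) (r : R), v j = MonoidAlgebra.single g r ∧ ∀ k, k ≠ j → v k = 0

theorem Mono.comp {J J' : Type} {v : J → MonoidAlgebra R Γ} (h : Mono v) (e : J' → J)
    (he : Function.Injective e) : Mono (fun j => v (e j)) := by
  rcases h with h | ⟨j, g, r, h1, h2⟩
  · exact Or.inl fun j => h _
  · by_cases hj : ∃ j', e j' = j
    · obtain ⟨j', rfl⟩ := hj
      exact Or.inr ⟨j', g, r, h1, fun k hk => h2 _ fun hh => hk (he hh)⟩
    · exact Or.inl fun k => h2 _ fun hh => hj ⟨k, hh⟩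

theorem Mono.single {J : Type} {v : J → MonoidAlgebra R Γ} (h : Mono v) (j : J) :
    ∃ (g : Γ) (r : R), v j = MonoidAlgebra.single g r := by
  classical
  rcases h with h | ⟨j', g, r, h1, h2⟩
  · exact ⟨1, 0, by rw [h, MonoidAlgebra.single_zero]⟩
  · by_cases hj : j = j'
    · subst hj; exact ⟨g, r, h1⟩
    · exact ⟨1, 0, by rw [h2 j hj, MonoidAlgebra.single_zero]⟩

theorem Mono.lmul {J : Type} {v : J → MonoidAlgebra R Γ} (h : Mono v) (a : MonoidAlgebra R Γ)
    (ha : ∃ (g : Γ) (r : R), a = MonoidAlgebra.single g r) : Mono (fun j => a * v j) := by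
  obtain ⟨g', r', rfl⟩ := ha
  rcases h with h | ⟨j, g, r, h1, h2⟩
  · exact Or.inl fun j => by simp only [h, mul_zero]
  · refine Or.inr ⟨j, g' * g, r' * r, ?_, fun k hk => ?_⟩
    · simp only [h1, MonoidAlgebra.single_mul_single]
    · simp only [h2 k hk, mul_zero]

theorem Mono.zs {J : Type} {v : J → MonoidAlgebra R Γ} (h : Mono v) (z : ℤ) :
    Mono (fun j => z • v j) := by
  rcases h with h | ⟨j, g, r, h1, h2⟩
  · exact Or.inl fun j => by simp only [h, smul_zero]
  · refine Or.inr ⟨j, g, z • r, ?_, fun k hk => ?_⟩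
    · simp only [h1, MonoidAlgebra.smul_single]
    · simp only [h2 k hk, smul_zero]

theorem Mono.zero_of {J : Type} {v : J → MonoidAlgebra R Γ} (h : Mono v) {j k : J} (hj : v j ≠ 0)
    (hk : k ≠ j) : v k = 0 := by
  rcases h with h | ⟨j', g, r, h1, h2⟩
  · exact h k
  · have e1 : j = j' := by
      by_contra hh
      exact hj (h2 j hh)
    subst e1
    exact h2 k hk

theorem zero_of_pat {A : Matrix κ κ (MonoidAlgebra R Γ)} {i j : κ} {g : Γ}
    (h : (pat A i j).coeff g = 0) : (A i j).coeff g = 0 := by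
  rw [coeff_pat] at h
  by_contra hh
  exact (ind_ne _).2 hh h

theorem mono_of_norm {c : ℝ} (hc : c ^ 2 < 2) {A : Matrix κ κ (MonoidAlgebra R Γ)}
    (hN : NormLE (pat A) c) (i : κ) : Mono (fun j => A i j) := by
  classical
  rcases rowOne_of_norm _ c hc hN i with h | ⟨j, g, δ, hδ, h1, h2⟩
  · refine Or.inl fun j => ?_
    ext g
    exact zero_of_pat (by rw [h j]; rfl)
  · refine Or.inr ⟨j, g, (A i j).coeff g, ?_, fun k hk => ?_⟩
    · ext g'
      rw [MonoidAlgebra.coeff_single, Finsupp.single_apply]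
      by_cases hg : g = g'
      · subst hg; rw [if_pos rfl]
      · rw [if_neg hg]
        refine zero_of_pat ?_
        rw [h1, MonoidAlgebra.coeff_single, Finsupp.single_apply, if_neg hg]
    · ext g'
      exact zero_of_pat (by rw [h2 k hk]; rfl)

section skew

variable (w : Γ →* ℤˣ) (U : Subgroup (MonoidAlgebra R Γ)ˣ)

theorem gskew_red' (htf : ∀ g : Γ, g * g = 1 → g = 1) {ε : ℤ} (p : MonoidAlgebra R Γ) (s : R)
    (hp : p + ε • sbar w p = MonoidAlgebra.single 1 s) :
    ∃ (a : R) (χ : MonoidAlgebra R Γ),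
      p = MonoidAlgebra.single 1 a + (χ - ε • sbar w χ) := by
  classical
  have hpg : ∀ g, p.coeff g + ε • (((w g : ℤˣ) : ℤ) • star (p.coeff g⁻¹))
      = if (1 : Γ) = g then s else 0 := by
    intro g
    have h := congrArg (fun x : MonoidAlgebra R Γ => x.coeff g) hp
    simp only [MonoidAlgebra.coeff_add, Finsupp.add_apply, gcoeff_zs, coeff_sbar,
      MonoidAlgebra.coeff_single, Finsupp.single_apply] at h
    exact h
  obtain ⟨a, χ, _, h2⟩ := gskew_red w htf (ε := ε) (p - MonoidAlgebra.single 1 (p.coeff 1)) (by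
    ext g
    rw [MonoidAlgebra.coeff_add, Finsupp.add_apply, gcoeff_zs, coeff_sbar,
      MonoidAlgebra.coeff_sub, Finsupp.sub_apply, Finsupp.sub_apply, MonoidAlgebra.coeff_single,
      Finsupp.single_apply, Finsupp.single_apply]
    by_cases hg : g = 1
    · subst hg
      rw [if_pos rfl, if_pos inv_one.symm, inv_one, sub_self, star_zero, smul_zero, smul_zero,
        add_zero]
      rfl
    · have hg' : ¬ (1 : Γ) = g⁻¹ := fun h => hg (inv_eq_one.1 h.symm)
      rw [if_neg (Ne.symm hg), if_neg hg', sub_zero, sub_zero, hpg g, if_neg (Ne.symm hg)]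
      rfl)
  refine ⟨a + p.coeff 1, χ, ?_⟩
  rw [MonoidAlgebra.single_add, add_right_comm, ← h2]
  abel

variable {w U}

/-- a nonsingular plane with `λ(x, y) = 1` and `λ(x, x)`, `λ(y, y)` in the ring -/
theorem gplane1 (htf : ∀ g : Γ, g * g = 1 → g = 1) {ε : ℤ}
    (ψ : Matrix (Unit ⊕ Unit) (Unit ⊕ Unit) (MonoidAlgebra R Γ)) (s t : R)
    (h1 : glam w ε ψ (Sum.inl ()) (Sum.inl ()) = MonoidAlgebra.single 1 s)
    (h2 : glam w ε ψ (Sum.inr ()) (Sum.inr ()) = MonoidAlgebra.single 1 t)
    (h3 : glam w ε ψ (Sum.inl ()) (Sum.inr ()) = 1) :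
    ∃ a b : Unit → R, GIso w U ε ψ (gpf a b) := by
  obtain ⟨a, χ1, a3⟩ := gskew_red' w htf (ψ (Sum.inl ()) (Sum.inl ())) s h1
  obtain ⟨b, χ2, b3⟩ := gskew_red' w htf (ψ (Sum.inr ()) (Sum.inr ())) t h2
  refine ⟨fun _ => a, fun _ => b, ?_⟩
  refine ⟨1, fromBlocks (Matrix.of fun _ _ => χ1) 0
    (Matrix.of fun _ _ => ψ (Sum.inr ()) (Sum.inl ())) (Matrix.of fun _ _ => χ2), TT_one _, ?_⟩
  rw [Units.val_one, sadj_one, Matrix.one_mul, Matrix.mul_one]
  ext1 i j
  rcases i with ⟨⟩ | ⟨⟩ <;> rcases j with ⟨⟩ | ⟨⟩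
  · rw [a3]
    rfl
  · change ψ (Sum.inl ()) (Sum.inr ()) = (1 : Matrix Unit Unit (MonoidAlgebra R Γ)) () ()
      + (0 - ε • sbar w (ψ (Sum.inr ()) (Sum.inl ())))
    rw [Matrix.one_apply_eq, ← h3, glam_apply]
    abel
  · change ψ (Sum.inr ()) (Sum.inl ()) = 0
      + (ψ (Sum.inr ()) (Sum.inl ()) - ε • sbar w (0 : MonoidAlgebra R Γ))
    rw [sbar_zero, smul_zero, sub_zero, zero_add]
  · rw [b3]
    rfl

theorem loop_one (htf : ∀ g : Γ, g * g = 1 → g = 1) {ε : ℤ} (hε : ε * ε = 1)
    (ψ : Matrix κ κ (MonoidAlgebra R Γ)) (i : κ)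
    (h : ∃ (g : Γ) (r : R), glam w ε ψ i i = MonoidAlgebra.single g r) :
    ∃ s : R, glam w ε ψ i i = MonoidAlgebra.single 1 s := by
  classical
  obtain ⟨g, r, hgr⟩ := h
  by_cases hr : r = 0
  · exact ⟨0, by rw [hgr, hr, MonoidAlgebra.single_zero, MonoidAlgebra.single_zero]⟩
  · have h1 := glam_symm w ε hε ψ i i
    rw [hgr] at h1
    have h2 := congrArg (fun x : MonoidAlgebra R Γ => x.coeff g) h1
    simp only [gcoeff_zs, coeff_sbar, MonoidAlgebra.coeff_single, Finsupp.single_apply] at h2
    rw [if_true] at h2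
    by_cases hg : g = g⁻¹
    · have h3 : g = 1 := htf g (by nth_rewrite 2 [hg]; exact mul_inv_cancel g)
      exact ⟨r, by rw [hgr, h3]⟩
    · rw [if_neg hg, star_zero, smul_zero] at h2
      exfalso
      apply hr
      calc r = ε • (ε • r) := by rw [smul_smul, hε, one_smul]
        _ = 0 := by rw [← h2, smul_zero]

theorem glam_hyp_xy (ε : ℤ) (k : κ) :
    glam w ε (hyp (MonoidAlgebra R Γ) κ) (Sum.inl k) (Sum.inr k) = 1 := by
  rw [glam_apply, ghyp_lr, ghyp_rl, if_pos rfl, sbar_zero, smul_zero, add_zero]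

theorem glam_hyp_yx (ε : ℤ) (k : κ) :
    glam w ε (hyp (MonoidAlgebra R Γ) κ) (Sum.inr k) (Sum.inl k) = ε • 1 := by
  rw [glam_apply, ghyp_lr, ghyp_rl, if_pos rfl, sbar_one, zero_add]

end skew

section main

variable {w : Γ →* ℤˣ}

/-- the plane `k` and the other planes -/
def eqp (k : κ) : (Unit ⊕ Unit) ⊕ ({l : κ // l ≠ k} ⊕ {l : κ // l ≠ k}) ≃ κ ⊕ κ where
  toFun := Sum.elim (Sum.elim (fun _ => Sum.inl k) (fun _ => Sum.inr k))
    (Sum.elim (fun l => Sum.inl l.1) (fun l => Sum.inr l.1))
  invFun := Sum.elim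
    (fun l => if h : l = k then Sum.inl (Sum.inl ()) else Sum.inr (Sum.inl ⟨l, h⟩))
    (fun l => if h : l = k then Sum.inl (Sum.inr ()) else Sum.inr (Sum.inr ⟨l, h⟩))
  left_inv := by
    rintro ((⟨⟩ | ⟨⟩) | (⟨l, h⟩ | ⟨l, h⟩))
    · simp
    · simp
    · simp [h]
    · simp [h]
  right_inv := by
    rintro (l | l)
    · by_cases h : l = k
      · subst h; simp
      · simp [h]
    · by_cases h : l = k
      · subst h; simp
      · simp [h]

/-- **Nonsingular forms near the hyperbolic form, over any ring.** -/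
theorem allR_main (htf : ∀ g : Γ, g * g = 1 → g = 1) {ε : ℤ} (hε : ε * ε = 1) :
    ∀ (n : ℕ) (κ : Type) [Fintype κ] [DecidableEq κ], Fintype.card κ = n →
    ∀ (ψ : Matrix (κ ⊕ κ) (κ ⊕ κ) (MonoidAlgebra R Γ)), IsUnit (glam w ε ψ) →
      (∀ i, Mono (fun j => (glam w ε ψ - glam w ε (hyp (MonoidAlgebra R Γ) κ)) i j)) →
      ∃ a b : κ → R, GIso w (⊤ : Subgroup (MonoidAlgebra R Γ)ˣ) ε ψ (gpf a b) := by
  intro n
  induction n with
  | zero =>
    intro κ _ _ hn ψ _ _
    have hκ : IsEmpty κ := Fintype.card_eq_zero_iff.1 hn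
    refine ⟨fun k => (hκ.false k).elim, fun k => (hκ.false k).elim, ?_⟩
    have : ψ = gpf (fun k => (hκ.false k).elim) (fun k => (hκ.false k).elim) := by
      ext1 x y
      rcases x with x | x <;> exact (hκ.false x).elim
    rw [← this]
    exact GIso.refl w _ _ _
  | succ n ih =>
    intro κ _ _ hn ψ hu hT
    obtain ⟨k⟩ : Nonempty κ := Fintype.card_pos_iff.1 (by omega)
    set L := glam w ε ψ with hL
    set H := glam w ε (hyp (MonoidAlgebra R Γ) κ) with hH
    set T := L - H with hTd
    have hTs : ∀ i j, sbar w (T i j) = ε • T j i := by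
      intro i j
      rw [hTd, Matrix.sub_apply, Matrix.sub_apply, sbar_sub, smul_sub, hL, hH,
        glam_symm w ε hε, glam_symm w ε hε]
    have hT0 : ∀ i j, T i j ≠ 0 → T j i ≠ 0 := by
      intro i j h hh
      apply h
      have e1 := hTs j i
      rw [hh, sbar_zero] at e1
      calc T i j = ε • (ε • T i j) := by rw [smul_smul, hε, one_smul]
        _ = 0 := by rw [← e1, smul_zero]
    have hT0' : ∀ i j, T i j = 0 → T j i = 0 := by
      intro i j h
      by_contra hh
      exact hT0 j i hh h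
    have hLT : ∀ i j, L i j = H i j + T i j := by
      intro i j
      rw [hTd, Matrix.sub_apply]; abel
    have hLT' : ∀ i j, j ≠ i.swap → L i j = T i j := by
      intro i j hij
      rw [hLT, hH, glam_hyp_ne w ε i j hij, zero_add]
    let κ' := {l : κ // l ≠ k}
    let e := eqp k
    set φ := ψ.submatrix e e with hφ
    have hlφ : glam w ε φ = L.submatrix e e := rfl
    have huφ : IsUnit (glam w ε φ) := by
      obtain ⟨L', hL'⟩ := hu
      exact ⟨Units.map (re e) L', by rw [hlφ, ← hL']; rfl⟩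
    have hx : (glam w ε φ).toBlocks₁₁ (Sum.inl ()) (Sum.inl ()) = T (Sum.inl k) (Sum.inl k) :=
      hLT' (Sum.inl k) (Sum.inl k) (by simp)
    have hy : (glam w ε φ).toBlocks₁₁ (Sum.inr ()) (Sum.inr ()) = T (Sum.inr k) (Sum.inr k) :=
      hLT' (Sum.inr k) (Sum.inr k) (by simp)
    have hxy : (glam w ε φ).toBlocks₁₁ (Sum.inl ()) (Sum.inr ())
        = 1 + T (Sum.inl k) (Sum.inr k) := by
      have e1 := hLT (Sum.inl k) (Sum.inr k)
      rw [hH, glam_hyp_xy] at e1
      exact e1
    have hyx : (glam w ε φ).toBlocks₁₁ (Sum.inr ()) (Sum.inl ())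
        = ε • 1 + T (Sum.inr k) (Sum.inl k) := by
      have e1 := hLT (Sum.inr k) (Sum.inl k)
      rw [hH, glam_hyp_yx] at e1
      exact e1
    -- rows and columns
    have hout : ∀ l : κ' ⊕ κ', e (Sum.inr l) ≠ Sum.inl k ∧ e (Sum.inr l) ≠ Sum.inr k := by
      rintro (l | l)
      · exact ⟨fun hh => l.2 (Sum.inl.inj hh), fun hh => by cases hh⟩
      · exact ⟨(fun hh => by cases hh), fun hh => l.2 (Sum.inr.inj hh)⟩
    have c12x : ∀ l, (glam w ε φ).toBlocks₁₂ (Sum.inl ()) l = T (Sum.inl k) (e (Sum.inr l)) :=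
      fun l => hLT' _ _ (hout l).2
    have c12y : ∀ l, (glam w ε φ).toBlocks₁₂ (Sum.inr ()) l = T (Sum.inr k) (e (Sum.inr l)) :=
      fun l => hLT' _ _ (hout l).1
    have c21x : ∀ l, (glam w ε φ).toBlocks₂₁ l (Sum.inl ()) = T (e (Sum.inr l)) (Sum.inl k) :=
      fun l => hLT' _ _ (fun hh => (hout l).2 (by rw [← Sum.swap_swap (e (Sum.inr l)), ← hh]; rfl))
    have c21y : ∀ l, (glam w ε φ).toBlocks₂₁ l (Sum.inr ()) = T (e (Sum.inr l)) (Sum.inr k) :=
      fun l => hLT' _ _ (fun hh => (hout l).1 (by rw [← Sum.swap_swap (e (Sum.inr l)), ← hh]; rfl))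
    have hfin : ∀ B' : Matrix (Unit ⊕ Unit) (Unit ⊕ Unit) (MonoidAlgebra R Γ),
        (glam w ε φ).toBlocks₁₁ * B' = 1 → B' * (glam w ε φ).toBlocks₁₁ = 1 →
        (∀ i : κ' ⊕ κ', Mono (fun j : κ' ⊕ κ' => T (e (Sum.inr i)) (e (Sum.inr j))
          - ((glam w ε φ).toBlocks₂₁ * B' * (glam w ε φ).toBlocks₁₂) i j)) →
        (∃ a b : Unit → R, GIso w (⊤ : Subgroup (MonoidAlgebra R Γ)ˣ) ε φ.toBlocks₁₁ (gpf a b)) →
        ∃ a b : κ → R, GIso w (⊤ : Subgroup (MonoidAlgebra R Γ)ˣ) ε ψ (gpf a b) := by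
      intro B' hB1 hB2 hmono ⟨a0, b0, d3⟩
      obtain ⟨ψ', hψ1, hψ2, hψ3⟩ := GIso.split w ⊤ hε φ B' hB1 hB2
      have hu' := hψ3 huφ
      have hcard : Fintype.card κ' = n := by
        have h1 := Fintype.card_subtype_compl (fun l : κ => l = k)
        rw [Fintype.card_subtype_eq, hn] at h1
        have h2 : Fintype.card κ' = Fintype.card {x : κ // ¬ x = k} := rfl
        omega
      obtain ⟨a', b', c3⟩ := ih κ' hcard ψ' hu' (by
        intro i
        have h1 : (fun j => (glam w ε ψ' - glam w ε (hyp (MonoidAlgebra R Γ) κ')) i j)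
            = fun j : κ' ⊕ κ' => T (e (Sum.inr i)) (e (Sum.inr j))
          - ((glam w ε φ).toBlocks₂₁ * B' * (glam w ε φ).toBlocks₁₂) i j := by
          funext j
          rw [hψ2, Matrix.sub_apply, Matrix.sub_apply, hTd, Matrix.sub_apply]
          have h2 : (glam w ε φ).toBlocks₂₂ i j = L (e (Sum.inr i)) (e (Sum.inr j)) := rfl
          have h3 : glam w ε (hyp (MonoidAlgebra R Γ) κ') i j
              = H (e (Sum.inr i)) (e (Sum.inr j)) := by
            rw [hH, glam_apply, glam_apply]
            rcases i with i | i <;> rcases j with j | j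
            · rfl
            · change _ = hyp (MonoidAlgebra R Γ) κ (Sum.inl i.1) (Sum.inr j.1)
                + ε • sbar w (hyp (MonoidAlgebra R Γ) κ (Sum.inr j.1) (Sum.inl i.1))
              rw [ghyp_lr, ghyp_rl, ghyp_lr, ghyp_rl]
              congr 1
              by_cases hij : i = j
              · subst hij; rw [if_pos rfl, if_pos rfl]
              · rw [if_neg hij, if_neg (fun hh => hij (Subtype.ext hh))]
            · change _ = hyp (MonoidAlgebra R Γ) κ (Sum.inr i.1) (Sum.inl j.1)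
                + ε • sbar w (hyp (MonoidAlgebra R Γ) κ (Sum.inl j.1) (Sum.inr i.1))
              rw [ghyp_lr, ghyp_rl, ghyp_lr, ghyp_rl]
              congr 3
              by_cases hij : j = i
              · subst hij; rw [if_pos rfl, if_pos rfl]
              · rw [if_neg hij, if_neg (fun hh => hij (Subtype.ext hh))]
            · rfl
          rw [h2, h3]
          abel
        rw [h1]
        exact hmono i)
      -- assembling
      have s1 : GIso w (⊤ : Subgroup (MonoidAlgebra R Γ)ˣ) ε φ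
          (fromBlocks (gpf a0 b0) 0 0 (gpf a' b')) :=
        GIso.trans w _ hψ1 (GIso.blocks w _ d3 c3)
      have s2 := s1.reindex w _ e.symm
      have s3 : φ.submatrix e.symm e.symm = ψ := by
        rw [hφ, Matrix.submatrix_submatrix, Equiv.self_comp_symm, Matrix.submatrix_id_id]
      rw [s3] at s2
      refine ⟨fun l => if h : l = k then a0 () else a' ⟨l, h⟩,
        fun l => if h : l = k then b0 () else b' ⟨l, h⟩, ?_⟩
      have s4 : (fromBlocks (gpf a0 b0) 0 0 (gpf a' b') :
          Matrix ((Unit ⊕ Unit) ⊕ (κ' ⊕ κ')) ((Unit ⊕ Unit) ⊕ (κ' ⊕ κ'))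
            (MonoidAlgebra R Γ)) = (gpf (fun l => if h : l = k then a0 () else a' ⟨l, h⟩)
          (fun l => if h : l = k then b0 () else b' ⟨l, h⟩)).submatrix e e := by
        ext1 x y
        rcases x with (⟨⟩ | ⟨⟩) | (x | x) <;> rcases y with (⟨⟩ | ⟨⟩) | (y | y)
        · simp [gpf, e, eqp, Matrix.one_apply, Matrix.diagonal_apply]
        · simp [gpf, e, eqp, Matrix.one_apply, Matrix.diagonal_apply]
        · simp [gpf, e, eqp, Matrix.one_apply, Matrix.diagonal_apply, Ne.symm y.2]
        · simp [gpf, e, eqp, Matrix.one_apply, Matrix.diagonal_apply, Ne.symm y.2]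
        · simp [gpf, e, eqp, Matrix.one_apply, Matrix.diagonal_apply]
        · simp [gpf, e, eqp, Matrix.one_apply, Matrix.diagonal_apply]
        · simp [gpf, e, eqp, Matrix.one_apply, Matrix.diagonal_apply, Ne.symm y.2]
        · simp [gpf, e, eqp, Matrix.one_apply, Matrix.diagonal_apply, Ne.symm y.2]
        · simp [gpf, e, eqp, Matrix.one_apply, Matrix.diagonal_apply, x.2]
        · simp [gpf, e, eqp, Matrix.one_apply, Matrix.diagonal_apply, x.2]
        · by_cases hxy : x = y
          · subst hxy; simp [gpf, e, eqp, Matrix.diagonal_apply, x.2]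
          · have hxy' : x.1 ≠ y.1 := fun hh => hxy (Subtype.ext hh)
            simp [gpf, e, eqp, Matrix.diagonal_apply, hxy, hxy']
        · by_cases hxy : x = y
          · subst hxy; simp [gpf, e, eqp, Matrix.one_apply]
          · have hxy' : x.1 ≠ y.1 := fun hh => hxy (Subtype.ext hh)
            simp [gpf, e, eqp, Matrix.one_apply, hxy, hxy']
        · simp [gpf, e, eqp, Matrix.one_apply, Matrix.diagonal_apply, x.2]
        · simp [gpf, e, eqp, Matrix.one_apply, Matrix.diagonal_apply, x.2]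
        · simp [gpf, e, eqp, Matrix.one_apply, Matrix.diagonal_apply]
        · by_cases hxy : x = y
          · subst hxy; simp [gpf, e, eqp, Matrix.diagonal_apply, x.2]
          · have hxy' : x.1 ≠ y.1 := fun hh => hxy (Subtype.ext hh)
            simp [gpf, e, eqp, Matrix.diagonal_apply, hxy, hxy']
      rw [s4, Matrix.submatrix_submatrix, Equiv.self_comp_symm, Matrix.submatrix_id_id] at s2
      exact s2
    -- the closed plane
    have hclosed : (∀ l, T (Sum.inl k) (e (Sum.inr l)) = 0) →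
        (∀ l, T (Sum.inr k) (e (Sum.inr l)) = 0) →
        (∀ B' : Matrix (Unit ⊕ Unit) (Unit ⊕ Unit) (MonoidAlgebra R Γ),
          (glam w ε φ).toBlocks₁₁ * B' = 1 → B' * (glam w ε φ).toBlocks₁₁ = 1 →
          ∃ a b : Unit → R,
            GIso w (⊤ : Subgroup (MonoidAlgebra R Γ)ˣ) ε φ.toBlocks₁₁ (gpf a b)) →
        ∃ a b : κ → R, GIso w (⊤ : Subgroup (MonoidAlgebra R Γ)ˣ) ε ψ (gpf a b) := by
      intro g1 g2 g3
      have e12 : (glam w ε φ).toBlocks₁₂ = 0 := by
        ext1 i l
        rcases i with ⟨⟩ | ⟨⟩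
        · rw [c12x, g1]; rfl
        · rw [c12y, g2]; rfl
      have e21 : (glam w ε φ).toBlocks₂₁ = 0 := by
        ext1 l i
        rcases i with ⟨⟩ | ⟨⟩
        · rw [c21x, hT0' _ _ (g1 l)]; rfl
        · rw [c21y, hT0' _ _ (g2 l)]; rfl
      obtain ⟨V, hV⟩ := huφ
      have h5 : V.val * V⁻¹.val = 1 := V.mul_inv
      have h6 : V⁻¹.val * V.val = 1 := V.inv_mul
      rw [hV, ← fromBlocks_toBlocks V⁻¹.val, ← fromBlocks_toBlocks (glam w ε φ), e12, e21,
        fromBlocks_multiply, ← fromBlocks_one, fromBlocks_inj] at h5 h6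
      have h7 : (glam w ε φ).toBlocks₁₁ * V⁻¹.val.toBlocks₁₁ = 1 := by simpa using h5.1
      have h8 : V⁻¹.val.toBlocks₁₁ * (glam w ε φ).toBlocks₁₁ = 1 := by simpa using h6.1
      refine hfin _ h7 h8 ?_ (g3 _ h7 h8)
      intro i
      have h9 : (fun j : κ' ⊕ κ' => T (e (Sum.inr i)) (e (Sum.inr j))
          - ((glam w ε φ).toBlocks₂₁ * V⁻¹.val.toBlocks₁₁ * (glam w ε φ).toBlocks₁₂) i j)
          = fun j => T (e (Sum.inr i)) (e (Sum.inr j)) := by
        funext j
        rw [e12, Matrix.mul_zero, Matrix.zero_apply, sub_zero]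
      rw [h9]
      exact (hT (e (Sum.inr i))).comp (fun j => e (Sum.inr j))
        (fun a b hab => Sum.inr.inj (e.injective hab))
    by_cases hA : T (Sum.inl k) (Sum.inr k) ≠ 0
    · -- an entry inside the plane
      have hA' := hT0 _ _ hA
      refine hclosed (fun l => (hT (Sum.inl k)).zero_of hA (hout l).2)
        (fun l => (hT (Sum.inr k)).zero_of hA' (hout l).1) ?_
      intro B' hB1 hB2
      have k1 : (glam w ε φ).toBlocks₁₁ (Sum.inl ()) (Sum.inl ()) = 0 := by
        rw [hx]; exact (hT (Sum.inl k)).zero_of hA (by simp)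
      have k2 : (glam w ε φ).toBlocks₁₁ (Sum.inr ()) (Sum.inr ()) = 0 := by
        rw [hy]; exact (hT (Sum.inr k)).zero_of hA' (by simp)
      have k3 := congrFun (congrFun hB1 (Sum.inl ())) (Sum.inl ())
      have k4 := congrFun (congrFun hB2 (Sum.inr ())) (Sum.inr ())
      rw [Matrix.mul_apply, Fintype.sum_sum_type, Matrix.one_apply_eq] at k3 k4
      simp only [Finset.univ_unique, Finset.sum_singleton, PUnit.default_eq_unit, k1, k2, zero_mul,
        mul_zero, zero_add, add_zero] at k3 k4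
      let u : (MonoidAlgebra R Γ)ˣ :=
        { val := B' (Sum.inr ()) (Sum.inl ())
          inv := (glam w ε φ).toBlocks₁₁ (Sum.inl ()) (Sum.inr ())
          val_inv := k4
          inv_val := k3 }
      obtain ⟨a, b, _, hI⟩ := gplane0 (w := w) (U := ⊤) (ε := ε) htf φ.toBlocks₁₁ u
        (Subgroup.mem_top _) k1 k2 rfl
      exact ⟨a, b, hI⟩
    · push Not at hA
      have hA' := hT0' _ _ hA
      rw [hA, add_zero] at hxy
      rw [hA', add_zero] at hyx
      obtain ⟨s, hs⟩ := loop_one (w := w) htf hε ψ (Sum.inl k) (by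
        obtain ⟨g, r, hgr⟩ := (hT (Sum.inl k)).single (Sum.inl k)
        exact ⟨g, r, (hLT' _ _ (by simp)).trans hgr⟩)
      obtain ⟨t, ht⟩ := loop_one (w := w) htf hε ψ (Sum.inr k) (by
        obtain ⟨g, r, hgr⟩ := (hT (Sum.inr k)).single (Sum.inr k)
        exact ⟨g, r, (hLT' _ _ (by simp)).trans hgr⟩)
      have hplane : ∃ a b : Unit → R,
          GIso w (⊤ : Subgroup (MonoidAlgebra R Γ)ˣ) ε φ.toBlocks₁₁ (gpf a b) :=
        gplane1 (w := w) (U := ⊤) (ε := ε) htf φ.toBlocks₁₁ s t hs ht hxy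
      have hx' : T (Sum.inl k) (Sum.inl k) = MonoidAlgebra.single 1 s :=
        (hLT' _ _ (by simp)).symm.trans hs
      have hy' : T (Sum.inr k) (Sum.inr k) = MonoidAlgebra.single 1 t :=
        (hLT' _ _ (by simp)).symm.trans ht
      set S := T (Sum.inl k) (Sum.inl k) with hS
      set Q := T (Sum.inr k) (Sum.inr k) with hQ
      by_cases hC : S ≠ 0 ∧ Q ≠ 0
      · exact hclosed (fun l => (hT (Sum.inl k)).zero_of hC.1 (hout l).1)
          (fun l => (hT (Sum.inr k)).zero_of hC.2 (hout l).2) (fun _ _ _ => hplane)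
      · have hC' : S = 0 ∨ Q = 0 := by
          by_cases h1 : S = 0
          · exact Or.inl h1
          · exact Or.inr (by by_contra h2; exact hC ⟨h1, h2⟩)
        have hSQ : S * Q = 0 ∧ Q * S = 0 := by
          rcases hC' with h | h <;> rw [h] <;> simp
        let B' : Matrix (Unit ⊕ Unit) (Unit ⊕ Unit) (MonoidAlgebra R Γ) :=
          fromBlocks (Matrix.of fun _ _ => -(ε • Q)) (Matrix.of fun _ _ => ε • 1)
            (Matrix.of fun _ _ => 1) (Matrix.of fun _ _ => -(ε • S))
        have b1 : B' (Sum.inl ()) (Sum.inl ()) = -(ε • Q) := rfl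
        have b2 : B' (Sum.inl ()) (Sum.inr ()) = ε • 1 := rfl
        have b3 : B' (Sum.inr ()) (Sum.inl ()) = 1 := rfl
        have b4 : B' (Sum.inr ()) (Sum.inr ()) = -(ε • S) := rfl
        have h11 : ((1 : Matrix (Unit ⊕ Unit) (Unit ⊕ Unit) (MonoidAlgebra R Γ)))
            (Sum.inl ()) (Sum.inr ()) = 0 := Matrix.one_apply_ne (by simp)
        have h22 : ((1 : Matrix (Unit ⊕ Unit) (Unit ⊕ Unit) (MonoidAlgebra R Γ)))
            (Sum.inr ()) (Sum.inl ()) = 0 := Matrix.one_apply_ne (by simp)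
        have hB1 : (glam w ε φ).toBlocks₁₁ * B' = 1 := by
          ext1 i j
          rw [Matrix.mul_apply, Fintype.sum_sum_type]
          simp only [Finset.univ_unique, Finset.sum_singleton, PUnit.default_eq_unit]
          rcases i with ⟨⟩ | ⟨⟩ <;> rcases j with ⟨⟩ | ⟨⟩
          · rw [hx, hxy, b1, b3, Matrix.one_apply_eq, mul_neg, mul_smul_comm, hSQ.1, smul_zero,
              neg_zero, zero_add, one_mul]
          · rw [hx, hxy, b2, b4, h11, mul_smul_comm, mul_one, one_mul, add_neg_cancel]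
          · rw [hyx, hy, b1, b3, h22, mul_one, smul_mul_assoc, one_mul, smul_neg, smul_smul, hε,
              one_smul, neg_add_cancel]
          · rw [hyx, hy, b2, b4, Matrix.one_apply_eq, smul_mul_assoc, one_mul, smul_smul, hε,
              one_smul, mul_neg, mul_smul_comm, hSQ.2, smul_zero, neg_zero, add_zero]
        have hB2 : B' * (glam w ε φ).toBlocks₁₁ = 1 := by
          ext1 i j
          rw [Matrix.mul_apply, Fintype.sum_sum_type]
          simp only [Finset.univ_unique, Finset.sum_singleton, PUnit.default_eq_unit]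
          rcases i with ⟨⟩ | ⟨⟩ <;> rcases j with ⟨⟩ | ⟨⟩
          · rw [hx, hyx, b1, b2, Matrix.one_apply_eq, neg_mul, smul_mul_assoc, hSQ.2, smul_zero,
              neg_zero, zero_add, smul_mul_assoc, one_mul, smul_smul, hε, one_smul]
          · rw [hxy, hy, b1, b2, h11, mul_one, smul_mul_assoc, one_mul, neg_add_cancel]
          · rw [hx, hyx, b3, b4, h22, one_mul, mul_smul_comm, mul_one, smul_neg, smul_smul, hε,
              one_smul, add_neg_cancel]
          · rw [hxy, hy, b3, b4, Matrix.one_apply_eq, one_mul, neg_mul, smul_mul_assoc, hSQ.1,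
              smul_zero, neg_zero, add_zero]
        refine hfin B' hB1 hB2 ?_ hplane
        intro i
        -- the two combinations
        have m1 : Mono (fun l : κ' ⊕ κ' => -(ε • Q) * T (Sum.inl k) (e (Sum.inr l))
            + (ε • 1) * T (Sum.inr k) (e (Sum.inr l))) := by
          by_cases hQ0 : Q = 0
          · have h1 : (fun l : κ' ⊕ κ' => -(ε • Q) * T (Sum.inl k) (e (Sum.inr l))
                + (ε • 1) * T (Sum.inr k) (e (Sum.inr l)))
                = fun l => ε • T (Sum.inr k) (e (Sum.inr l)) := by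
              funext l
              rw [hQ0, smul_zero, neg_zero, zero_mul, zero_add, smul_mul_assoc, one_mul]
            rw [h1]
            exact ((hT (Sum.inr k)).comp (fun j => e (Sum.inr j))
              (fun a b hab => Sum.inr.inj (e.injective hab))).zs ε
          · have h1 : (fun l : κ' ⊕ κ' => -(ε • Q) * T (Sum.inl k) (e (Sum.inr l))
                + (ε • 1) * T (Sum.inr k) (e (Sum.inr l)))
                = fun l => MonoidAlgebra.single 1 (-(ε • t)) * T (Sum.inl k) (e (Sum.inr l)) := by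
              funext l
              have h2 : T (Sum.inr k) (e (Sum.inr l)) = 0 :=
                (hT (Sum.inr k)).zero_of hQ0 (hout l).2
              rw [h2, mul_zero, add_zero, hy', MonoidAlgebra.smul_single,
                MonoidAlgebra.single_neg]
            rw [h1]
            exact ((hT (Sum.inl k)).comp (fun j => e (Sum.inr j))
              (fun a b hab => Sum.inr.inj (e.injective hab))).lmul _ ⟨_, _, rfl⟩
        have m2 : Mono (fun l : κ' ⊕ κ' => 1 * T (Sum.inl k) (e (Sum.inr l))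
            + -(ε • S) * T (Sum.inr k) (e (Sum.inr l))) := by
          by_cases hS0 : S = 0
          · have h1 : (fun l : κ' ⊕ κ' => 1 * T (Sum.inl k) (e (Sum.inr l))
                + -(ε • S) * T (Sum.inr k) (e (Sum.inr l)))
                = fun l => T (Sum.inl k) (e (Sum.inr l)) := by
              funext l
              rw [hS0, smul_zero, neg_zero, zero_mul, add_zero, one_mul]
            rw [h1]
            exact (hT (Sum.inl k)).comp (fun j => e (Sum.inr j))
              (fun a b hab => Sum.inr.inj (e.injective hab))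
          · have h1 : (fun l : κ' ⊕ κ' => 1 * T (Sum.inl k) (e (Sum.inr l))
                + -(ε • S) * T (Sum.inr k) (e (Sum.inr l)))
                = fun l => MonoidAlgebra.single 1 (-(ε • s)) * T (Sum.inr k) (e (Sum.inr l)) := by
              funext l
              have h2 : T (Sum.inl k) (e (Sum.inr l)) = 0 :=
                (hT (Sum.inl k)).zero_of hS0 (hout l).1
              rw [h2, mul_zero, zero_add, hx', MonoidAlgebra.smul_single,
                MonoidAlgebra.single_neg]
            rw [h1]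
            exact ((hT (Sum.inr k)).comp (fun j => e (Sum.inr j))
              (fun a b hab => Sum.inr.inj (e.injective hab))).lmul _ ⟨_, _, rfl⟩
        have hprod : ∀ j, ((glam w ε φ).toBlocks₂₁ * B' * (glam w ε φ).toBlocks₁₂) i j
            = T (e (Sum.inr i)) (Sum.inl k) * (-(ε • Q) * T (Sum.inl k) (e (Sum.inr j))
              + (ε • 1) * T (Sum.inr k) (e (Sum.inr j)))
            + T (e (Sum.inr i)) (Sum.inr k) * (1 * T (Sum.inl k) (e (Sum.inr j))
              + -(ε • S) * T (Sum.inr k) (e (Sum.inr j))) := by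
          intro j
          rw [Matrix.mul_assoc, Matrix.mul_apply, Fintype.sum_sum_type]
          simp only [Finset.univ_unique, Finset.sum_singleton, PUnit.default_eq_unit]
          rw [c21x, c21y, Matrix.mul_apply, Matrix.mul_apply, Fintype.sum_sum_type,
            Fintype.sum_sum_type]
          simp only [Finset.univ_unique, Finset.sum_singleton, PUnit.default_eq_unit]
          rw [b1, b2, b3, b4, c12x, c12y]
        by_cases hkx : T (e (Sum.inr i)) (Sum.inl k) = 0
        · by_cases hky : T (e (Sum.inr i)) (Sum.inr k) = 0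
          · have h1 : (fun j : κ' ⊕ κ' => T (e (Sum.inr i)) (e (Sum.inr j))
              - ((glam w ε φ).toBlocks₂₁ * B' * (glam w ε φ).toBlocks₁₂) i j)
              = fun j => T (e (Sum.inr i)) (e (Sum.inr j)) := by
              funext j
              rw [hprod, hkx, hky, zero_mul, zero_mul, add_zero, sub_zero]
            rw [h1]
            exact (hT (e (Sum.inr i))).comp (fun j => e (Sum.inr j))
              (fun a b hab => Sum.inr.inj (e.injective hab))
          · have h1 : (fun j : κ' ⊕ κ' => T (e (Sum.inr i)) (e (Sum.inr j))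
              - ((glam w ε φ).toBlocks₂₁ * B' * (glam w ε φ).toBlocks₁₂) i j)
              = fun j => (-1 : ℤ) • (T (e (Sum.inr i)) (Sum.inr k)
                * (1 * T (Sum.inl k) (e (Sum.inr j))
              + -(ε • S) * T (Sum.inr k) (e (Sum.inr j)))) := by
              funext j
              have h2 : T (e (Sum.inr i)) (e (Sum.inr j)) = 0 :=
                (hT (e (Sum.inr i))).zero_of hky (hout j).2
              rw [hprod, hkx, zero_mul, zero_add, h2, zero_sub, neg_smul, one_smul]
            rw [h1]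
            exact (m2.lmul _ ((hT (e (Sum.inr i))).single _)).zs (-1)
        · have h1 : (fun j : κ' ⊕ κ' => T (e (Sum.inr i)) (e (Sum.inr j))
              - ((glam w ε φ).toBlocks₂₁ * B' * (glam w ε φ).toBlocks₁₂) i j)
              = fun j => (-1 : ℤ) • (T (e (Sum.inr i)) (Sum.inl k)
                * (-(ε • Q) * T (Sum.inl k) (e (Sum.inr j))
              + (ε • 1) * T (Sum.inr k) (e (Sum.inr j)))) := by
              funext j
              have h2 : T (e (Sum.inr i)) (e (Sum.inr j)) = 0 :=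
                (hT (e (Sum.inr i))).zero_of hkx (hout j).1
              have h3 : T (e (Sum.inr i)) (Sum.inr k) = 0 :=
                (hT (e (Sum.inr i))).zero_of hkx (by simp)
              rw [hprod, h3, zero_mul, add_zero, h2, zero_sub, neg_smul, one_smul]
          rw [h1]
          exact (m1.lmul _ ((hT (e (Sum.inr i))).single _)).zs (-1)

end main

end Pool.Agent.N510.LT
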