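import Pool.Agent.N510.LT.Trip
import Pool.Agent.R719.DD.Elim

set_option autoImplicit false
set_option linter.unusedSectionVars false

/-! A symmetric non-negative matrix over an integral group ring all whose rows have mass at least two
and one of whose rows has mass at least three has norm at least `3 / √2`. -/

namespace Pool.Agent.N510.LT

open Matrix TH57.Thr TH6.LF Pool.Agent.Y35.KC.TTm Pool.Agent.R719.DD

variable {Γ : Type} [Group Γ] {κ : Type} [Fintype κ] [DecidableEq κ]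

/-- the neighbours -/
noncomputable def ns (A : Matrix κ κ (MonoidAlgebra ℤ Γ)) (u : κ × Γ) : Finset (κ × Γ) := by
  classical
  exact Finset.univ.biUnion fun j => (A u.1 j).coeff.support.image fun s => (j, u.2 * s)

theorem bb_eq_zero (A : Matrix κ κ (MonoidAlgebra ℤ Γ)) (u y : κ × Γ) (h : y ∉ ns A u) :
    bb A u y = 0 := by
  classical
  by_contra h1
  apply h
  unfold ns
  rw [Finset.mem_biUnion]
  refine ⟨y.1, Finset.mem_univ _, ?_⟩
  rw [Finset.mem_image]
  refine ⟨u.2⁻¹ * y.2, Finsupp.mem_support_iff.2 h1, ?_⟩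
  rw [mul_inv_cancel_left]

theorem sum_bb (A : Matrix κ κ (MonoidAlgebra ℤ Γ)) (hA : ∀ i j g, 0 ≤ (A i j).coeff g)
    (u : κ × Γ) : ∑ y ∈ ns A u, bb A u y = ∑ j, (l1 (A u.1 j) : ℤ) := by
  classical
  unfold ns
  rw [Finset.sum_biUnion]
  · refine Finset.sum_congr rfl fun j _ => ?_
    rw [Finset.sum_image (fun a _ b _ hab => mul_left_cancel (Prod.mk.inj hab).2),
      l1_cast (A u.1 j) _ (Finset.Subset.refl _)]
    refine Finset.sum_congr rfl fun s _ => ?_
    unfold bb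
    rw [inv_mul_cancel_left, abs_of_nonneg (hA _ _ _)]
  · intro i _ j _ hij
    rw [Function.onFun, Finset.disjoint_left]
    intro v h1 h2
    obtain ⟨a, _, rfl⟩ := Finset.mem_image.1 h1
    obtain ⟨b, _, h3⟩ := Finset.mem_image.1 h2
    exact hij (Prod.mk.inj h3).1.symm

/-- a neighbour with more weight than `φ` -/
theorem pick (A : Matrix κ κ (MonoidAlgebra ℤ Γ)) (hA : ∀ i j g, 0 ≤ (A i j).coeff g)
    (u : κ × Γ) (φ : κ × Γ → ℤ) (n : ℤ) (hφ : ∀ S : Finset (κ × Γ), ∑ y ∈ S, φ y ≤ n)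
    (hn : n < ∑ j, (l1 (A u.1 j) : ℤ)) : ∃ y, φ y + 1 ≤ bb A u y := by
  by_contra hcon
  push Not at hcon
  have h1 : ∑ y ∈ ns A u, bb A u y ≤ ∑ y ∈ ns A u, φ y :=
    Finset.sum_le_sum fun y _ => by have := hcon y; omega
  rw [sum_bb A hA] at h1
  have := hφ (ns A u)
  omega

theorem ind_sum [DecidableEq (κ × Γ)] (p : κ × Γ) (S : Finset (κ × Γ)) :
    ∑ y ∈ S, (if p = y then (1 : ℤ) else 0) ≤ 1 := by
  rw [Finset.sum_ite_eq]
  split_ifs <;> norm_num

theorem bb_symm (A : Matrix κ κ (MonoidAlgebra ℤ Γ))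
    (hs : ∀ i j g, (A i j).coeff g = (A j i).coeff g⁻¹) (u v : κ × Γ) : bb A u v = bb A v u := by
  unfold bb
  rw [hs]
  congr 1
  rw [_root_.mul_inv_rev, inv_inv]

theorem next [DecidableEq (κ × Γ)] (A : Matrix κ κ (MonoidAlgebra ℤ Γ))
    (hA : ∀ i j g, 0 ≤ (A i j).coeff g) (h2 : ∀ i, 2 ≤ ∑ j, (l1 (A i j) : ℤ)) (a b : κ × Γ)
    (hab : 1 ≤ bb A b a) : ∃ d, ∀ y, (if a = y then (1 : ℤ) else 0) + (if d = y then 1 else 0)
      ≤ bb A b y := by
  obtain ⟨d, hd⟩ := pick A hA b (fun y => if a = y then 1 else 0) 1 (ind_sum a)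
    (by have := h2 b.1; omega)
  refine ⟨d, fun y => ?_⟩
  have h0 : 0 ≤ bb A b y := hA _ _ _
  by_cases h1 : d = y
  · subst h1; rw [if_pos rfl]; exact hd
  · rw [if_neg h1, add_zero]
    by_cases h3 : a = y
    · subst h3; rw [if_pos rfl]; exact hab
    · rw [if_neg h3]; exact h0

/-- an infinite path without backtracking -/
theorem arm [DecidableEq (κ × Γ)] (A : Matrix κ κ (MonoidAlgebra ℤ Γ))
    (hA : ∀ i j g, 0 ≤ (A i j).coeff g) (hs : ∀ i j g, (A i j).coeff g = (A j i).coeff g⁻¹)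
    (h2 : ∀ i, 2 ≤ ∑ j, (l1 (A i j) : ℤ)) (v p : κ × Γ) (hvp : 1 ≤ bb A v p) :
    ∃ s : ℕ → κ × Γ, s 0 = v ∧ s 1 = p ∧ ∀ k y, (if s k = y then (1 : ℤ) else 0)
      + (if s (k + 2) = y then 1 else 0) ≤ bb A (s (k + 1)) y := by
  classical
  let nx : κ × Γ → κ × Γ → κ × Γ := fun a b =>
    if h : 1 ≤ bb A b a then (next A hA h2 a b h).choose else a
  have hnx : ∀ a b, 1 ≤ bb A b a → ∀ y, (if a = y then (1 : ℤ) else 0)
      + (if nx a b = y then 1 else 0) ≤ bb A b y := by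
    intro a b h
    have h1 : nx a b = (next A hA h2 a b h).choose := dif_pos h
    rw [h1]
    exact (next A hA h2 a b h).choose_spec
  let st : (κ × Γ) × (κ × Γ) → (κ × Γ) × (κ × Γ) := fun q => (q.2, nx q.1 q.2)
  let s : ℕ → κ × Γ := fun k => (st^[k] (v, p)).1
  have hs1 : ∀ k, (st^[k] (v, p)).2 = s (k + 1) := by
    intro k
    change _ = (st^[k + 1] (v, p)).1
    rw [Function.iterate_succ_apply']
  have hs2 : ∀ k, s (k + 2) = nx (s k) (s (k + 1)) := by
    intro k
    change (st^[k + 2] (v, p)).1 = _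
    rw [Function.iterate_succ_apply', Function.iterate_succ_apply']
    change nx (st^[k] (v, p)).1 (st^[k] (v, p)).2 = _
    rw [hs1]
  have hinv : ∀ k, 1 ≤ bb A (s (k + 1)) (s k) := by
    intro k
    induction k with
    | zero =>
      rw [bb_symm A hs]
      exact hvp
    | succ k ih =>
      rw [bb_symm A hs]
      have h1 := hnx _ _ ih (s (k + 2))
      rw [← hs2, if_pos rfl] at h1
      have h3 : (0 : ℤ) ≤ (if s k = s (k + 2) then 1 else 0) := by split_ifs <;> norm_num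
      have h4 : k + 1 + 1 = k + 2 := rfl
      rw [h4]
      linarith
  refine ⟨s, rfl, rfl, fun k y => ?_⟩
  rw [hs2]
  exact hnx _ _ (hinv k) y

/-- **The leaf lemma.** -/
theorem exists_leaf (A : Matrix κ κ (MonoidAlgebra ℤ Γ)) {c : ℝ}
    (hc : 0 < c) (hc2 : c ^ 2 < 9 / 2) (hN : NormLE A c) (hA : ∀ i j g, 0 ≤ (A i j).coeff g)
    (hs : ∀ i j g, (A i j).coeff g = (A j i).coeff g⁻¹)
    (h1 : ∀ i, ∑ j, l1 (A i j) ≠ 0) (i₀ : κ) (h3 : ((∑ j, l1 (A i₀ j) : ℕ) : ZMod 2) ≠ 0) :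
    ∃ i, ∑ j, l1 (A i j) = 1 := by
  classical
  by_contra hcon
  push Not at hcon
  have h2 : ∀ i, 2 ≤ ∑ j, (l1 (A i j) : ℤ) := by
    intro i
    have e1 := h1 i
    have e2 := hcon i
    have e3 : 2 ≤ ∑ j, l1 (A i j) := by omega
    exact_mod_cast e3
  have h4 : 3 ≤ ∑ j, (l1 (A i₀ j) : ℤ) := by
    have e1 := h1 i₀
    have e2 := hcon i₀
    have e3 : ∑ j, l1 (A i₀ j) ≠ 2 := by
      intro h
      rw [h] at h3
      exact h3 rfl
    have e4 : 3 ≤ ∑ j, l1 (A i₀ j) := by omega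
    exact_mod_cast e4
  set v : κ × Γ := (i₀, 1) with hv
  obtain ⟨p, hp⟩ := pick A hA v (fun _ => 0) 0 (fun S => by simp) (by
    have : v.1 = i₀ := rfl
    rw [this]; omega)
  obtain ⟨q, hq⟩ := pick A hA v (fun y => if p = y then 1 else 0) 1 (ind_sum p) (by
    have : v.1 = i₀ := rfl
    rw [this]; omega)
  obtain ⟨t, ht⟩ := pick A hA v (fun y => (if p = y then 1 else 0) + (if q = y then 1 else 0)) 2
    (fun S => by
      rw [Finset.sum_add_distrib]
      have e1 := ind_sum p S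
      have e2 := ind_sum q S
      linarith) (by
    have : v.1 = i₀ := rfl
    rw [this]; omega)
  have hnn : ∀ a y : κ × Γ, (0 : ℤ) ≤ if a = y then 1 else 0 := fun a y => by
    split_ifs <;> norm_num
  have hroot : ∀ y, (if p = y then (1 : ℤ) else 0) + (if q = y then 1 else 0)
      + (if t = y then 1 else 0) ≤ bb A v y := by
    intro y
    by_cases h5 : t = y
    · subst h5; rw [if_pos rfl]; exact ht
    · rw [if_neg h5, add_zero]
      by_cases h6 : q = y
      · subst h6; rw [if_pos rfl]; exact hq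
      · rw [if_neg h6, add_zero]
        by_cases h7 : p = y
        · subst h7; rw [if_pos rfl]; linarith
        · rw [if_neg h7]; exact hA _ _ _
  have hp1 : 1 ≤ bb A v p := by
    have e1 := hroot p
    rw [if_pos rfl] at e1
    have e2 := hnn q p
    have e3 := hnn t p
    linarith
  have hq1 : 1 ≤ bb A v q := by
    have e1 := hroot q
    rw [if_pos rfl] at e1
    have e2 := hnn p q
    have e3 := hnn t q
    linarith
  have ht1 : 1 ≤ bb A v t := by
    have e1 := hroot t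
    rw [if_pos rfl] at e1
    have e2 := hnn p t
    have e3 := hnn q t
    linarith
  obtain ⟨s0, a0, b0, c0⟩ := arm A hA hs h2 v p hp1
  obtain ⟨s1, a1, b1, c1⟩ := arm A hA hs h2 v q hq1
  obtain ⟨s2, a2, b2, c2⟩ := arm A hA hs h2 v t ht1
  have hfin := tripod_lower A hc hN v ![s0, s1, s2] (by
    intro a
    fin_cases a
    · exact a0
    · exact a1
    · exact a2) (by
    intro y
    rw [Fin.sum_univ_three]
    change (if s0 1 = y then (1 : ℤ) else 0) + (if s1 1 = y then 1 else 0)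
      + (if s2 1 = y then 1 else 0) ≤ bb A v y
    rw [b0, b1, b2]
    exact hroot y) (by
    intro a k y
    fin_cases a
    · exact c0 k y
    · exact c1 k y
    · exact c2 k y)
  linarith

end Pool.Agent.N510.LT
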