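import Pool.Agent.TH6.PF.SBar
import Pool.Agent.TH57.Thr.KOne
import Pool.Agent.R719.DD.Elim

set_option autoImplicit false
set_option linter.unusedSectionVars false

/-! Simple isometries of quadratic forms over the group ring of a ring with involution, with the
involution twisted by an orientation character. -/

namespace Pool.Agent.N510.LT

open Matrix TH57.Thr TH6.PF

variable {R : Type} [Ring R] [StarRing R] {Γ : Type} [Group Γ] {κ μ ι : Type} [Fintype κ]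
  [DecidableEq κ] [Fintype μ] [DecidableEq μ] [Fintype ι] [DecidableEq ι] (w : Γ →* ℤˣ)
  (U : Subgroup (MonoidAlgebra R Γ)ˣ)

/-- simple isometry of the quadratic forms given by two matrices -/
def GIso (ε : ℤ) (ψ ψ' : Matrix κ κ (MonoidAlgebra R Γ)) : Prop :=
  ∃ (E : (Matrix κ κ (MonoidAlgebra R Γ))ˣ) (χ : Matrix κ κ (MonoidAlgebra R Γ)),
    TT U E ∧ E.val * ψ * sadj w E.val = ψ' + (χ - ε • sadj w χ)

theorem GIso.refl (ε : ℤ) (ψ : Matrix κ κ (MonoidAlgebra R Γ)) : GIso w U ε ψ ψ :=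
  ⟨1, 0, TT_one _, by rw [Units.val_one, sadj_one, sadj_zero]; simp⟩

theorem GIso.trans {ε : ℤ} {ψ ψ' ψ'' : Matrix κ κ (MonoidAlgebra R Γ)} (h : GIso w U ε ψ ψ')
    (h' : GIso w U ε ψ' ψ'') : GIso w U ε ψ ψ'' := by
  obtain ⟨E, χ, hE, h1⟩ := h
  obtain ⟨F, ξ, hF, h2⟩ := h'
  refine ⟨F * E, F.val * χ * sadj w F.val + ξ, TT_mul _ _ _ hF hE, ?_⟩
  have e1 : (F * E).val * ψ * sadj w (F * E).val = F.val * (E.val * ψ * sadj w E.val) * sadj w F.val := by
    rw [Units.val_mul, sadj_mul]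
    simp only [Matrix.mul_assoc]
  rw [e1, h1, Matrix.mul_add, Matrix.add_mul, h2, sadj_add, sadj_mul, sadj_mul, sadj_sadj]
  rw [Matrix.mul_sub, Matrix.sub_mul, Matrix.mul_smul, Matrix.smul_mul, smul_add]
  simp only [Matrix.mul_assoc]
  abel

/-- block sums of matrices in the group of stably trivial matrices -/
theorem TT_blocks (U : Subgroup (MonoidAlgebra R Γ)ˣ) (a : (Matrix κ κ (MonoidAlgebra R Γ))ˣ)
    (b : (Matrix μ μ (MonoidAlgebra R Γ))ˣ) (ha : TT U a) (hb : TT U b) :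
    ∃ x : (Matrix (κ ⊕ μ) (κ ⊕ μ) (MonoidAlgebra R Γ))ˣ, x.val = fromBlocks a.val 0 0 b.val ∧
      TT U x := by
  let x : (Matrix (κ ⊕ μ) (κ ⊕ μ) (MonoidAlgebra R Γ))ˣ :=
    { val := fromBlocks a.val 0 0 b.val
      inv := fromBlocks a⁻¹.val 0 0 b⁻¹.val
      val_inv := by rw [fromBlocks_multiply]; simp [fromBlocks_one]
      inv_val := by rw [fromBlocks_multiply]; simp [fromBlocks_one] }
  exact ⟨x, rfl, TT_tri U a b 0 x rfl ha hb⟩

theorem fb_sub {α β γ δ : Type} {S : Type} [AddGroup S] (A A' : Matrix α γ S) (B B' : Matrix α δ S)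
    (C C' : Matrix β γ S) (D D' : Matrix β δ S) :
    fromBlocks A B C D - fromBlocks A' B' C' D' = fromBlocks (A - A') (B - B') (C - C') (D - D') := by
  ext1 i j
  rcases i with i | i <;> rcases j with j | j <;> rfl

theorem GIso.blocks {ε : ℤ} {ψ ψ' : Matrix κ κ (MonoidAlgebra R Γ)}
    {φ φ' : Matrix μ μ (MonoidAlgebra R Γ)} (h : GIso w U ε ψ ψ') (h' : GIso w U ε φ φ') :
    GIso w U ε (fromBlocks ψ 0 0 φ) (fromBlocks ψ' 0 0 φ') := by
  obtain ⟨E, χ, hE, h1⟩ := h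
  obtain ⟨F, ξ, hF, h2⟩ := h'
  obtain ⟨x, hx1, hx2⟩ := TT_blocks U E F hE hF
  refine ⟨x, fromBlocks χ 0 0 ξ, hx2, ?_⟩
  rw [hx1, sadj_fromBlocks, sadj_fromBlocks, fromBlocks_multiply, fromBlocks_multiply]
  simp only [sadj_zero, Matrix.mul_zero, Matrix.zero_mul, add_zero, zero_add]
  rw [h1, h2, fromBlocks_smul, fb_sub, fromBlocks_add]
  simp only [smul_zero, sub_zero, add_zero]

theorem GIso.reindex {ε : ℤ} {ψ ψ' : Matrix κ κ (MonoidAlgebra R Γ)} (e : μ ≃ κ)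
    (h : GIso w U ε ψ ψ') : GIso w U ε (ψ.submatrix e e) (ψ'.submatrix e e) := by
  obtain ⟨E, χ, hE, h1⟩ := h
  have e1 : (Units.map (re e) E).val = E.val.submatrix e e := rfl
  have e2 : E.val.submatrix e e * ψ.submatrix e e * sadj w (E.val.submatrix e e)
      = (E.val * ψ * sadj w E.val).submatrix e e := by
    rw [sadj_submatrix, Matrix.submatrix_mul_equiv, Matrix.submatrix_mul_equiv]
  have e3 : (ψ' + (χ - ε • sadj w χ)).submatrix e e
      = ψ'.submatrix e e + (χ.submatrix e e - ε • sadj w (χ.submatrix e e)) := by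
    rw [sadj_submatrix]
    rfl
  have e4 : (Units.map (re e) E).val * ψ.submatrix e e * sadj w (Units.map (re e) E).val
      = ψ'.submatrix e e + (χ.submatrix e e - ε • sadj w (χ.submatrix e e)) := by
    rw [e1, e2, h1, e3]
  have e5 : TT U (Units.map (re e) E) := TT_re U e E hE
  exact ⟨_, _, e5, e4⟩

/-- the symmetrisation -/
noncomputable def glam (w : Γ →* ℤˣ) (ε : ℤ) (ψ : Matrix κ κ (MonoidAlgebra R Γ)) :
    Matrix κ κ (MonoidAlgebra R Γ) := ψ + ε • sadj w ψ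

theorem glam_conj (ε : ℤ) (ψ : Matrix κ κ (MonoidAlgebra R Γ)) (E : Matrix κ κ (MonoidAlgebra R Γ)) :
    glam w ε (E * ψ * sadj w E) = E * glam w ε ψ * sadj w E := by
  unfold glam
  rw [sadj_mul, sadj_mul, sadj_sadj, Matrix.mul_add, Matrix.add_mul, Matrix.mul_smul, Matrix.smul_mul]
  simp only [Matrix.mul_assoc]

theorem sadj_glam (ε : ℤ) (hε : ε * ε = 1) (ψ : Matrix κ κ (MonoidAlgebra R Γ)) :
    sadj w (glam w ε ψ) = ε • glam w ε ψ := by
  unfold glam
  rw [sadj_add, sadj_zsmul, sadj_sadj, smul_add, smul_smul, hε, one_smul, add_comm]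

theorem glam_apply (ε : ℤ) (ψ : Matrix κ κ (MonoidAlgebra R Γ)) (i j : κ) :
    glam w ε ψ i j = ψ i j + ε • sbar w (ψ j i) := rfl

theorem glam_symm (ε : ℤ) (hε : ε * ε = 1) (ψ : Matrix κ κ (MonoidAlgebra R Γ)) (i j : κ) :
    sbar w (glam w ε ψ i j) = ε • glam w ε ψ j i := congrFun (congrFun (sadj_glam w ε hε ψ) j) i

/-- splitting off a nonsingular block -/
theorem GIso.split {ε : ℤ} (hε : ε * ε = 1)
    (ψ : Matrix (ι ⊕ κ) (ι ⊕ κ) (MonoidAlgebra R Γ)) (B' : Matrix ι ι (MonoidAlgebra R Γ))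
    (h1 : (glam w ε ψ).toBlocks₁₁ * B' = 1) (h2 : B' * (glam w ε ψ).toBlocks₁₁ = 1) :
    ∃ ψ' : Matrix κ κ (MonoidAlgebra R Γ), GIso w U ε ψ (fromBlocks ψ.toBlocks₁₁ 0 0 ψ') ∧
      glam w ε ψ' = (glam w ε ψ).toBlocks₂₂ - (glam w ε ψ).toBlocks₂₁ * B' * (glam w ε ψ).toBlocks₁₂ ∧
      (IsUnit (glam w ε ψ) → IsUnit (glam w ε ψ')) := by
  set B := (glam w ε ψ).toBlocks₁₁ with hB
  set C := (glam w ε ψ).toBlocks₁₂ with hC
  set C' := (glam w ε ψ).toBlocks₂₁ with hC'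
  set D := (glam w ε ψ).toBlocks₂₂ with hD
  have hblk : glam w ε ψ = fromBlocks B C C' D := (fromBlocks_toBlocks _).symm
  have hadj := sadj_glam w ε hε ψ
  rw [hblk, sadj_fromBlocks, fromBlocks_smul, fromBlocks_inj] at hadj
  obtain ⟨a1, a2, a3, a4⟩ := hadj
  -- the change of basis
  let Z : Matrix (ι ⊕ κ) (ι ⊕ κ) (MonoidAlgebra R Γ) := fromBlocks 1 0 (-(C' * B')) 1
  obtain ⟨E, hE1, hE2⟩ := El_unit (R := MonoidAlgebra R Γ) Z (by
    have h3 : Z = 1 + fromBlocks 0 0 (-(C' * B')) 0 := by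
      rw [← fromBlocks_one, fromBlocks_add]; simp [Z]
    rw [h3]
    exact el_unip (Finset.univ.filter fun v : ι ⊕ κ => v.isRight) _ (by
      rintro (i | i) (j | j) h <;> simp at h ⊢))
  set φ := E.val * ψ * sadj w E.val with hφ
  have hlam : glam w ε φ = fromBlocks B 0 0 (D - C' * B' * C) := by
    rw [hφ, glam_conj, hE1, hblk]
    change fromBlocks 1 0 (-(C' * B')) 1 * fromBlocks B C C' D
      * sadj w (fromBlocks 1 0 (-(C' * B')) 1) = _
    rw [sadj_fromBlocks, sadj_one, sadj_zero, sadj_one, sadj_neg, sadj_mul, fromBlocks_multiply,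
      fromBlocks_multiply]
    have e1 : C' * B' * B = C' := by rw [Matrix.mul_assoc, h2, Matrix.mul_one]
    have e2 : sadj w B' * sadj w C' = B' * C := by
      -- `sadj w C' = ε C`, `sadj w B' = ε B'`
      have e3 : sadj w C' = ε • C := a2
      have e4 : sadj w B' = ε • B' := by
        have e5 : B * (ε • sadj w B') = 1 := by
          rw [Matrix.mul_smul]
          have e6 : ε • (B * sadj w B') = (ε • B) * sadj w B' := (Matrix.smul_mul _ _ _).symm
          rw [e6, ← a1, ← sadj_mul, h2, sadj_one]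
        have e7 : ε • sadj w B' = B' := by
          calc ε • sadj w B' = (B' * B) * (ε • sadj w B') := by rw [h2, Matrix.one_mul]
            _ = B' := by rw [Matrix.mul_assoc, e5, Matrix.mul_one]
        calc sadj w B' = ε • (ε • sadj w B') := by rw [smul_smul, hε, one_smul]
          _ = ε • B' := by rw [e7]
      rw [e3, e4, Matrix.smul_mul, Matrix.mul_smul, smul_smul, hε, one_smul]
    simp only [Matrix.one_mul, Matrix.zero_mul, add_zero, Matrix.mul_one, Matrix.mul_zero,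
      Matrix.neg_mul, e1, Matrix.mul_neg, e2]
    congr 1
    · rw [← Matrix.mul_assoc, h1, Matrix.one_mul]
      abel
    · abel
    · rw [neg_add_cancel, Matrix.zero_mul, neg_zero, zero_add]
      abel
  set φ' := φ.toBlocks₂₂ with hφ'
  have hφblk : φ = fromBlocks φ.toBlocks₁₁ φ.toBlocks₁₂ φ.toBlocks₂₁ φ' :=
    (fromBlocks_toBlocks _).symm
  have h11 : φ.toBlocks₁₁ = ψ.toBlocks₁₁ := by
    have e1 : φ = fromBlocks 1 0 (-(C' * B')) 1
        * fromBlocks ψ.toBlocks₁₁ ψ.toBlocks₁₂ ψ.toBlocks₂₁ ψ.toBlocks₂₂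
        * sadj w (fromBlocks 1 0 (-(C' * B')) 1) := by
      rw [hφ, hE1, fromBlocks_toBlocks]
    rw [e1, sadj_fromBlocks, sadj_one, sadj_zero, sadj_one, fromBlocks_multiply,
      fromBlocks_multiply, toBlocks_fromBlocks₁₁]
    simp
  have hl : glam w ε φ = fromBlocks (glam w ε φ.toBlocks₁₁) (φ.toBlocks₁₂ + ε • sadj w φ.toBlocks₂₁)
      (φ.toBlocks₂₁ + ε • sadj w φ.toBlocks₁₂) (glam w ε φ') := by
    conv_lhs => rw [hφblk]
    unfold glam
    rw [sadj_fromBlocks, fromBlocks_smul, fromBlocks_add]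
  rw [hlam, fromBlocks_inj] at hl
  obtain ⟨b1, b2, b3, b4⟩ := hl
  refine ⟨φ', ⟨E, fromBlocks 0 φ.toBlocks₁₂ 0 0, hE2 _, ?_⟩, b4.symm, ?_⟩
  · rw [← hφ, sadj_fromBlocks, fromBlocks_smul, fb_sub, fromBlocks_add, sadj_zero, sadj_zero, sadj_zero]
    conv_lhs => rw [hφblk]
    rw [h11]
    congr 1
    · simp
    · simp
    · rw [zero_add, zero_sub]
      exact eq_neg_of_add_eq_zero_left b3.symm
    · simp
  · intro hu
    have h3 : IsUnit (glam w ε φ) := by
      rw [hφ, glam_conj]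
      obtain ⟨u, hu⟩ := hu
      have h4 : IsUnit (sadj w E.val) := by
        refine ⟨⟨sadj w E.val, sadj w E⁻¹.val, ?_, ?_⟩, rfl⟩
        · rw [← sadj_mul, E.inv_mul, sadj_one]
        · rw [← sadj_mul, E.mul_inv, sadj_one]
      exact (E.isUnit.mul ⟨u, hu⟩).mul h4
    rw [hlam] at h3
    obtain ⟨w, hw⟩ := h3
    have h5 : w.val * w⁻¹.val = 1 := w.mul_inv
    have h6 : w⁻¹.val * w.val = 1 := w.inv_mul
    rw [hw, ← fromBlocks_toBlocks w⁻¹.val, fromBlocks_multiply, ← fromBlocks_one,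
      fromBlocks_inj] at h5 h6
    rw [← b4]
    refine ⟨⟨D - C' * B' * C, w⁻¹.val.toBlocks₂₂, ?_, ?_⟩, rfl⟩
    · simpa using h5.2.2.2
    · simpa using h6.2.2.2

end Pool.Agent.N510.LT
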