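import Pool.Agent.N510.LT.GPiv
import Pool.Agent.N510.LT.Arms
import Pool.Agent.TH57.Thr.Red
import Pool.Agent.R719.LF.Main

set_option autoImplicit false
set_option linter.unusedSectionVars false

/-! Nonsingular quadratic forms below the critical norm are sums of planes. -/

namespace Pool.Agent.N510.LT

open Matrix TH57.Thr TH6.PF Pool.Agent.Y35.KC.TTm

section size

variable {R : Type} [Ring R] [StarRing R] {Γ : Type} [Group Γ] {κ μ ι : Type} [Fintype κ]
  [DecidableEq κ] [Fintype μ] [DecidableEq μ]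

/-- a size function on the ring -/
structure IsSize (f : R →+* ZMod 2) (ν : R → ℕ) : Prop where
  zero : ν 0 = 0
  pos : ∀ r, ν r = 0 → r = 0
  neg : ∀ r, ν (-r) = ν r
  star : ∀ r, ν (star r) = ν r
  par : ∀ r, (ν r : ZMod 2) = f r
  unit : ∀ r, ν r = 1 → IsUnit r

/-- the sizes of the coefficients -/
noncomputable def sz (ν : R → ℕ) (h0 : ν 0 = 0) (x : MonoidAlgebra R Γ) : MonoidAlgebra ℤ Γ :=
  .ofCoeff (x.coeff.mapRange (fun r => (ν r : ℤ)) (by simp [h0]))

/-- the sizes of the coefficients -/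
noncomputable def szm (ν : R → ℕ) (h0 : ν 0 = 0) (A : Matrix ι κ (MonoidAlgebra R Γ)) :
    Matrix ι κ (MonoidAlgebra ℤ Γ) := A.map (sz ν h0)

theorem coeff_sz (ν : R → ℕ) (h0 : ν 0 = 0) (x : MonoidAlgebra R Γ) (g : Γ) :
    (sz ν h0 x).coeff g = ν (x.coeff g) := by
  rfl

theorem l1_sz (ν : R → ℕ) (h0 : ν 0 = 0) (x : MonoidAlgebra R Γ) :
    l1 (sz ν h0 x) = ∑ g ∈ x.coeff.support, ν (x.coeff g) := by
  rw [l1_eq (sz ν h0 x) x.coeff.support]
  · exact Finset.sum_congr rfl fun g _ => by rw [coeff_sz]; rfl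
  · intro g hg
    rw [Finsupp.mem_support_iff, coeff_sz] at hg
    rw [Finsupp.mem_support_iff]
    intro h
    rw [h, h0] at hg
    exact hg rfl

/-- the augmentation modulo two -/
noncomputable def af (f : R →+* ZMod 2) : MonoidAlgebra R Γ →+* ZMod 2 :=
  (MonoidAlgebra.lift (ZMod 2) (ZMod 2) Γ (1 : Γ →* ZMod 2)).toRingHom.comp
    (MonoidAlgebra.mapRingHom Γ f)

theorem af_single (f : R →+* ZMod 2) (g : Γ) (r : R) :
    af f (MonoidAlgebra.single g r) = f r := by
  unfold af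
  rw [RingHom.comp_apply, MonoidAlgebra.mapRingHom_single]
  change MonoidAlgebra.lift (ZMod 2) (ZMod 2) Γ (1 : Γ →* ZMod 2) _ = _
  rw [MonoidAlgebra.lift_single]
  simp

theorem af_eq (f : R →+* ZMod 2) (x : MonoidAlgebra R Γ) :
    af f x = ∑ g ∈ x.coeff.support, f (x.coeff g) := by
  conv_lhs => rw [← MonoidAlgebra.sum_coeff_single x]
  rw [Finsupp.sum, map_sum]
  exact Finset.sum_congr rfl fun g _ => af_single _ _ _

theorem l1_sz_two {f : R →+* ZMod 2} {ν : R → ℕ} (h : IsSize f ν) (x : MonoidAlgebra R Γ) :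
    (l1 (sz ν h.zero x) : ZMod 2) = af f x := by
  rw [l1_sz, af_eq]
  push_cast
  exact Finset.sum_congr rfl fun g _ => h.par _

theorem l1_sz_zero {f : R →+* ZMod 2} {ν : R → ℕ} (h : IsSize f ν) (x : MonoidAlgebra R Γ)
    (hx : l1 (sz ν h.zero x) = 0) : x = 0 := by
  rw [l1_sz, Finset.sum_eq_zero_iff] at hx
  ext g
  by_cases hg : g ∈ x.coeff.support
  · exact h.pos _ (hx g hg)
  · exact Finsupp.notMem_support_iff.1 hg

theorem l1_sz_one {f : R →+* ZMod 2} {ν : R → ℕ} (h : IsSize f ν) (x : MonoidAlgebra R Γ)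
    (hx : l1 (sz ν h.zero x) = 1) : ∃ (g : Γ) (r : Rˣ), x = MonoidAlgebra.single g r.val := by
  classical
  rw [l1_sz] at hx
  have h1 : x.coeff.support.Nonempty := by
    rw [Finset.nonempty_iff_ne_empty]
    intro h2
    rw [h2, Finset.sum_empty] at hx
    exact absurd hx (by norm_num)
  obtain ⟨g, hg⟩ := h1
  have h2 : ν (x.coeff g) ≠ 0 := fun h3 => (Finsupp.mem_support_iff.1 hg) (h.pos _ h3)
  rw [← Finset.add_sum_erase _ _ hg] at hx
  have h3 : ν (x.coeff g) = 1 := by omega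
  have h4 : ∑ k ∈ x.coeff.support.erase g, ν (x.coeff k) = 0 := by omega
  rw [Finset.sum_eq_zero_iff] at h4
  obtain ⟨r, hr⟩ := h.unit _ h3
  refine ⟨g, r, ?_⟩
  ext k
  rw [MonoidAlgebra.coeff_single, Finsupp.single_apply]
  split_ifs with hk
  · rw [← hk, hr]
  · by_cases hk2 : k ∈ x.coeff.support
    · exact h.pos _ (h4 k (Finset.mem_erase.2 ⟨Ne.symm hk, hk2⟩))
    · exact Finsupp.notMem_support_iff.1 hk2

theorem f_star {f : R →+* ZMod 2} {ν : R → ℕ} (h : IsSize f ν) (r : R) : f (star r) = f r := by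
  rw [← h.par, ← h.par, h.star]

theorem f_zs (f : R →+* ZMod 2) {z : ℤ} (hz : z * z = 1) (r : R) : f (z • r) = f r := by
  rw [map_zsmul]
  rcases Int.isUnit_iff.1 (IsUnit.of_mul_eq_one _ hz) with h | h <;> rw [h]
  · exact one_smul _ _
  · rw [neg_smul, one_smul]
    exact CharTwo.neg_eq _

theorem af_sbar {f : R →+* ZMod 2} {ν : R → ℕ} (h : IsSize f ν) (w : Γ →* ℤˣ)
    (x : MonoidAlgebra R Γ) : af f (sbar w x) = af f x := by
  unfold sbar
  rw [map_sum, af_eq]
  refine Finset.sum_congr rfl fun g _ => ?_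
  rw [af_single, f_zs f (w_sq w g), f_star h]

end size

section main

variable {R : Type} [Ring R] [StarRing R] {Γ : Type} [Group Γ] {κ μ ι : Type} [Fintype κ]
  [DecidableEq κ] [Fintype μ] [DecidableEq μ] [Fintype ι] [DecidableEq ι] {w : Γ →* ℤˣ}
  {U : Subgroup (MonoidAlgebra R Γ)ˣ}

theorem sz_symm {f : R →+* ZMod 2} {ν : R → ℕ} (h : IsSize f ν) {ε : ℤ} (hε : ε * ε = 1)
    (ψ : Matrix κ κ (MonoidAlgebra R Γ)) (i j : κ) (g : Γ) :
    (szm ν h.zero (glam w ε ψ) i j).coeff g = (szm ν h.zero (glam w ε ψ) j i).coeff g⁻¹ := by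
  have key : ∀ (z : ℤ), z * z = 1 → ∀ r : R, ν (z • r) = ν r := by
    intro z hz r
    rcases Int.isUnit_iff.1 (IsUnit.of_mul_eq_one _ hz) with h1 | h1 <;> rw [h1]
    · rw [one_smul]
    · rw [neg_smul, one_smul, h.neg]
  have h1 := congrArg (fun x : MonoidAlgebra R Γ => x.coeff g⁻¹) (glam_symm w ε hε ψ i j)
  simp only [coeff_sbar, inv_inv, gcoeff_zs] at h1
  rw [szm, Matrix.map_apply, Matrix.map_apply, coeff_sz, coeff_sz]
  congr 1
  calc ν ((glam w ε ψ i j).coeff g) = ν (star ((glam w ε ψ i j).coeff g)) := (h.star _).symm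
    _ = ν (((w g⁻¹ : ℤˣ) : ℤ) • star ((glam w ε ψ i j).coeff g)) := (key _ (w_sq w _) _).symm
    _ = ν (ε • (glam w ε ψ j i).coeff g⁻¹) := by rw [h1]
    _ = _ := key _ hε _

theorem norm_sub (e : μ → κ) (he : Function.Injective e) (A : Matrix κ κ (MonoidAlgebra ℤ Γ))
    (c : ℝ) (hA : NormLE A c) : NormLE (A.submatrix e e) c := by
  classical
  intro x
  let y : κ → MonoidAlgebra ℝ Γ := fun k => if h : ∃ m, e m = k then x h.choose else 0
  have hy : ∀ m, y (e m) = x m := by
    intro m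
    have h : ∃ m', e m' = e m := ⟨m, rfl⟩
    have h1 : y (e m) = x h.choose := dif_pos h
    rw [h1, he h.choose_spec]
  have hy0 : ∀ k, (¬ ∃ m, e m = k) → y k = 0 := fun k h => dif_neg h
  have hsum : ∀ (F : κ → ℝ), (∀ k, (¬ ∃ m, e m = k) → F k = 0) → ∑ k, F k = ∑ m, F (e m) := by
    intro F hF
    rw [← Finset.sum_image (g := e) (s := Finset.univ) (f := F) (fun a _ b _ hab => he hab)]
    symm
    refine Finset.sum_subset (Finset.subset_univ _) fun k _ hk => hF k ?_
    rintro ⟨m, rfl⟩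
    exact hk (Finset.mem_image_of_mem _ (Finset.mem_univ m))
  have hn : normSq y = normSq x := by
    rw [normSq_eq, normSq_eq, hsum]
    · exact Finset.sum_congr rfl fun m _ => by rw [hy]
    · intro k hk
      rw [hy0 k hk, n1_zero]
  have hv : ∀ m, (x ᵥ* toReal (A.submatrix e e)) m = (y ᵥ* toReal A) (e m) := by
    intro m
    simp only [Matrix.vecMul, dotProduct]
    rw [← Finset.sum_subset (Finset.subset_univ (Finset.univ.image e)),
      Finset.sum_image (fun a _ b _ hab => he hab)]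
    · exact Finset.sum_congr rfl fun k _ => by rw [hy]; rfl
    · intro k _ hk
      rw [hy0, zero_mul]
      rintro ⟨m, rfl⟩
      exact hk (Finset.mem_image_of_mem _ (Finset.mem_univ m))
  have h1 : normSq (x ᵥ* toReal (A.submatrix e e)) ≤ normSq (y ᵥ* toReal A) := by
    rw [normSq_eq, normSq_eq]
    calc ∑ m, n1 ((x ᵥ* toReal (A.submatrix e e)) m)
        = ∑ k ∈ Finset.univ.image e, n1 ((y ᵥ* toReal A) k) := by
          rw [Finset.sum_image (fun a _ b _ hab => he hab)]
          exact Finset.sum_congr rfl fun m _ => by rw [hv]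
      _ ≤ _ := Finset.sum_le_sum_of_subset_of_nonneg (Finset.subset_univ _)
          fun _ _ _ => n1_nonneg _
  have h2 := hA y
  rw [hn] at h2
  exact h1.trans h2

/-- the leaf of a nonsingular form -/
theorem form_leaf {f : R →+* ZMod 2} {ν : R → ℕ} (h : IsSize f ν) {ε : ℤ} (hε : ε * ε = 1)
    {c : ℝ} (hc : 0 < c) (hc2 : c ^ 2 < 9 / 2) (ψ : Matrix κ κ (MonoidAlgebra R Γ))
    (hu : IsUnit (glam w ε ψ)) (hN : NormLE (szm ν h.zero (glam w ε ψ)) c) [Nonempty κ] :
    ∃ (i j : κ) (g : Γ) (r : Rˣ), i ≠ j ∧ glam w ε ψ i j = MonoidAlgebra.single g r.val ∧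
      ∀ k, k ≠ j → glam w ε ψ i k = 0 := by
  classical
  obtain ⟨L, hL⟩ := hu
  have hone : (1 : ZMod 2) ≠ 0 := one_ne_zero
  have hR : (1 : MonoidAlgebra R Γ) ≠ 0 := by
    intro h1
    have h2 := congrArg (af f) h1
    rw [map_one, map_zero] at h2
    exact hone h2
  -- an odd row
  have hodd : ∃ i₀, ((∑ j, l1 (szm ν h.zero (glam w ε ψ) i₀ j) : ℕ) : ZMod 2) ≠ 0 := by
    by_contra hcon
    push Not at hcon
    have h1 : ∀ i, ∑ j, af f (glam w ε ψ i j) = 0 := by
      intro i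
      rw [← hcon i]
      push_cast
      exact Finset.sum_congr rfl fun j _ => (l1_sz_two h _).symm
    obtain ⟨i⟩ := ‹Nonempty κ›
    have h2 : (L⁻¹.val * L.val) = 1 := L.inv_mul
    have h3 : ∑ j, af f ((L⁻¹.val * L.val) i j) = 0 := by
      have h4 : ∀ j, af f ((L⁻¹.val * L.val) i j)
          = ∑ k, af f (L⁻¹.val i k) * af f (glam w ε ψ k j) := by
        intro j
        rw [Matrix.mul_apply, map_sum, hL]
        exact Finset.sum_congr rfl fun k _ => map_mul _ _ _
      simp only [h4]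
      rw [Finset.sum_comm]
      refine Finset.sum_eq_zero fun k _ => ?_
      rw [← Finset.mul_sum, h1, mul_zero]
    rw [h2, Finset.sum_eq_single i] at h3
    · rw [Matrix.one_apply_eq, map_one] at h3
      exact hone h3
    · intro j _ hj
      rw [Matrix.one_apply_ne (Ne.symm hj), map_zero]
    · intro hh; exact absurd (Finset.mem_univ _) hh
  obtain ⟨i₀, hi₀⟩ := hodd
  have hrow : ∀ i, ∑ j, l1 (szm ν h.zero (glam w ε ψ) i j) ≠ 0 := by
    intro i hi
    rw [Finset.sum_eq_zero_iff] at hi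
    have h1 : ∀ j, glam w ε ψ i j = 0 := fun j => l1_sz_zero h _ (hi j (Finset.mem_univ _))
    have h2 : (L.val * L⁻¹.val) i i = 0 := by
      rw [Matrix.mul_apply, hL]
      exact Finset.sum_eq_zero fun j _ => by rw [h1, zero_mul]
    rw [L.mul_inv, Matrix.one_apply_eq] at h2
    exact hR h2
  obtain ⟨i, hi⟩ := exists_leaf (szm ν h.zero (glam w ε ψ)) hc hc2 hN
    (fun i j g => by rw [szm, Matrix.map_apply, coeff_sz]; exact Nat.cast_nonneg _)
    (sz_symm h hε ψ) hrow i₀ hi₀
  have h1 : ∃ j, l1 (szm ν h.zero (glam w ε ψ) i j) ≠ 0 := by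
    by_contra hcon
    push Not at hcon
    rw [Finset.sum_eq_zero fun j _ => hcon j] at hi
    exact absurd hi (by norm_num)
  obtain ⟨j, hj⟩ := h1
  rw [← Finset.add_sum_erase _ _ (Finset.mem_univ j)] at hi
  have h2 : l1 (szm ν h.zero (glam w ε ψ) i j) = 1 := by omega
  have h3 : ∑ k ∈ Finset.univ.erase j, l1 (szm ν h.zero (glam w ε ψ) i k) = 0 := by omega
  rw [Finset.sum_eq_zero_iff] at h3
  obtain ⟨g, r, hgr⟩ := l1_sz_one h _ h2
  refine ⟨i, j, g, r, ?_, hgr, fun k hk => l1_sz_zero h _ (h3 k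
    (Finset.mem_erase.2 ⟨hk, Finset.mem_univ _⟩))⟩
  rintro rfl
  have h4 : (l1 (szm ν h.zero (glam w ε ψ) i i) : ZMod 2) = 0 := by
    refine (l1_sz_two h _).trans ?_
    rw [glam_apply, map_add, map_zsmul, af_sbar h]
    rcases Int.isUnit_iff.1 (IsUnit.of_mul_eq_one _ hε) with h5 | h5 <;> rw [h5]
    · rw [one_smul]; exact CharTwo.add_self_eq_zero _
    · rw [neg_smul, one_smul, add_neg_cancel]
  rw [h2] at h4
  exact absurd h4 (by decide)

/-- **Nonsingular forms below the critical norm.** -/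
theorem gmain {f : R →+* ZMod 2} {ν : R → ℕ} (h : IsSize f ν)
    (hU : ∀ (u : (MonoidAlgebra R Γ)ˣ) (g : Γ) (r : Rˣ), u.val = MonoidAlgebra.single g r.val → u ∈ U)
    (htf : ∀ g : Γ, g * g = 1 → g = 1) {ε : ℤ} (hε : ε * ε = 1)
    {c : ℝ} (hc : 0 < c) (hc2 : c ^ 2 < 9 / 2) :
    ∀ (n : ℕ) (κ : Type) [Fintype κ] [DecidableEq κ], Fintype.card κ = n →
    ∀ (ψ : Matrix κ κ (MonoidAlgebra R Γ)), IsUnit (glam w ε ψ) →
      NormLE (szm ν h.zero (glam w ε ψ)) c →
      ∃ (μ : Type) (_ : Fintype μ) (_ : DecidableEq μ) (e : μ ⊕ μ ≃ κ) (a b : μ → R),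
        (∀ k, a k + ε • star (a k) = 0 ∧ b k + ε • star (b k) = 0) ∧
        GIso w U ε (ψ.submatrix e e) (gpf a b) := by
  intro n
  induction n using Nat.strong_induction_on with
  | _ n ih =>
  intro κ _ _ hn ψ hu hN
  by_cases hne : Nonempty κ
  · obtain ⟨i, j, g, r, hij, hi1, hi2⟩ := form_leaf h hε hc hc2 ψ hu hN
    let u : (MonoidAlgebra R Γ)ˣ :=
      { val := MonoidAlgebra.single g⁻¹ r⁻¹.val
        inv := MonoidAlgebra.single g r.val
        val_inv := by
          rw [MonoidAlgebra.single_mul_single, inv_mul_cancel, r.inv_mul, MonoidAlgebra.one_def]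
        inv_val := by
          rw [MonoidAlgebra.single_mul_single, mul_inv_cancel, r.mul_inv, MonoidAlgebra.one_def] }
    have huU : u ∈ U := hU u g⁻¹ r⁻¹ rfl
    have hui : glam w ε ψ i j = u⁻¹.val := hi1
    -- the other entries
    have hi0 : glam w ε ψ i i = 0 := hi2 i hij
    have hji : glam w ε ψ j i = ε • sbar w u⁻¹.val := by
      have e1 := glam_symm w ε hε ψ i j
      rw [hui] at e1
      rw [e1, smul_smul, hε, one_smul]
    have hki : ∀ k, k ≠ j → glam w ε ψ k i = 0 := by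
      intro k hk
      have e1 := glam_symm w ε hε ψ i k
      rw [hi2 k hk, sbar_zero] at e1
      calc glam w ε ψ k i = ε • (ε • glam w ε ψ k i) := by rw [smul_smul, hε, one_smul]
        _ = 0 := by rw [← e1, smul_zero]
    let v' : MonoidAlgebra R Γ := ε • sbar w u.val
    have hvv : (ε • sbar w u⁻¹.val) * v' = 1 := by
      simp only [v']
      rw [smul_mul_smul_comm, hε, one_smul, ← sbar_mul, u.mul_inv, sbar_one]
    have hvv' : v' * (ε • sbar w u⁻¹.val) = 1 := by
      simp only [v']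
      rw [smul_mul_smul_comm, hε, one_smul, ← sbar_mul, u.inv_mul, sbar_one]
    -- reindexing
    let κ' := {k : κ // k ≠ i ∧ k ≠ j}
    let e := Pool.Agent.R719.LF.e2 i j hij
    set φ := ψ.submatrix e e with hφ
    have hlφ : glam w ε φ = (glam w ε ψ).submatrix e e := rfl
    set d := glam w ε ψ j j with hd
    let B' : Matrix (Unit ⊕ Unit) (Unit ⊕ Unit) (MonoidAlgebra R Γ) :=
      fromBlocks (Matrix.of fun _ _ => -(v' * d * u.val)) (Matrix.of fun _ _ => v')
        (Matrix.of fun _ _ => u.val) 0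
    have hB : (glam w ε φ).toBlocks₁₁
        = fromBlocks 0 (Matrix.of fun _ _ => u⁻¹.val)
        (Matrix.of fun _ _ => ε • sbar w u⁻¹.val) (Matrix.of fun _ _ => d) := by
      ext1 x y
      rcases x with ⟨⟩ | ⟨⟩ <;> rcases y with ⟨⟩ | ⟨⟩
      · exact hi0
      · exact hui
      · exact hji
      · rfl
    have hmul : ∀ a b : MonoidAlgebra R Γ, (Matrix.of fun _ _ : Unit => a)
        * (Matrix.of fun _ _ : Unit => b) = Matrix.of fun _ _ : Unit => a * b := by
      intro a b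
      ext1 x y
      rw [Matrix.mul_apply]
      simp only [Finset.univ_unique, Finset.sum_singleton, Matrix.of_apply]
    have hadd : ∀ a b : MonoidAlgebra R Γ, (Matrix.of fun _ _ : Unit => a)
        + (Matrix.of fun _ _ : Unit => b) = Matrix.of fun _ _ : Unit => a + b := by
      intro a b
      rfl
    have hof1 : (Matrix.of fun _ _ : Unit => (1 : MonoidAlgebra R Γ)) = 1 := by
      ext1 x y
      exact (Matrix.one_apply_eq ()).symm
    have hof0 : (Matrix.of fun _ _ : Unit => (0 : MonoidAlgebra R Γ)) = 0 := rfl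
    have hB1 : (glam w ε φ).toBlocks₁₁ * B' = 1 := by
      rw [hB, fromBlocks_multiply, ← fromBlocks_one]
      simp only [Matrix.mul_zero, Matrix.zero_mul, add_zero, zero_add, hmul, hadd]
      congr 1
      · rw [u.inv_mul, hof1]
      · have e1 : (ε • sbar w u⁻¹.val) * -(v' * d * u.val) + d * u.val = 0 := by
          rw [mul_neg, ← mul_assoc, ← mul_assoc, hvv, one_mul, neg_add_cancel]
        rw [e1, hof0]
      · rw [hvv, hof1]
    have hB2 : B' * (glam w ε φ).toBlocks₁₁ = 1 := by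
      rw [hB, fromBlocks_multiply, ← fromBlocks_one]
      simp only [Matrix.mul_zero, Matrix.zero_mul, add_zero, zero_add, hmul, hadd]
      congr 1
      · rw [hvv', hof1]
      · have e1 : -(v' * d * u.val) * u⁻¹.val + v' * d = 0 := by
          rw [neg_mul, mul_assoc, u.mul_inv, mul_one, neg_add_cancel]
        rw [e1, hof0]
      · rw [u.mul_inv, hof1]
    obtain ⟨ψ', hψ1, hψ2, hψ3⟩ := GIso.split w U hε φ B' hB1 hB2
    have huφ : IsUnit (glam w ε φ) := by
      obtain ⟨L, hL⟩ := hu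
      exact ⟨Units.map (re e) L, by rw [hlφ, ← hL]; rfl⟩
    have hu' := hψ3 huφ
    have hent : glam w ε ψ' = (glam w ε ψ).submatrix Subtype.val Subtype.val := by
      ext1 k l
      rw [hψ2, Matrix.sub_apply]
      have h1 : ((glam w ε φ).toBlocks₂₁ * B' * (glam w ε φ).toBlocks₁₂) k l = 0 := by
        rw [Matrix.mul_apply, Fintype.sum_sum_type]
        simp only [Finset.univ_unique, Finset.sum_singleton]
        have h2 : (glam w ε φ).toBlocks₁₂ (Sum.inl default) l = 0 := hi2 l.1 l.2.2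
        have h3 : ((glam w ε φ).toBlocks₂₁ * B') k (Sum.inr default) = 0 := by
          rw [Matrix.mul_apply, Fintype.sum_sum_type]
          simp only [Finset.univ_unique, Finset.sum_singleton]
          have h4 : (glam w ε φ).toBlocks₂₁ k (Sum.inl default) = 0 := hki k.1 k.2.2
          have h5 : B' (Sum.inr default) (Sum.inr default) = 0 := rfl
          rw [h4, h5, zero_mul, mul_zero, add_zero]
        rw [h2, h3, mul_zero, zero_mul, add_zero]
      rw [h1, sub_zero]
      rfl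
    have hN' : NormLE (szm ν h.zero (glam w ε ψ')) c := by
      have e1 : szm ν h.zero (glam w ε ψ') = (szm ν h.zero (glam w ε ψ)).submatrix
          (Subtype.val : κ' → κ) (Subtype.val : κ' → κ) := by
        rw [hent]
        rfl
      rw [e1]
      exact norm_sub (Subtype.val : κ' → κ) Subtype.val_injective
        (szm ν h.zero (glam w ε ψ)) c hN
    have hcard : Fintype.card κ' < n := by
      rw [← hn]
      exact Fintype.card_subtype_lt (x := i) (fun hh => hh.1 rfl)
    obtain ⟨μ', i1, i2, e', a', b', c1, c3⟩ := ih _ hcard κ' rfl ψ' hu' hN'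
    have hi0' : glam w ε φ.toBlocks₁₁ (Sum.inl ()) (Sum.inl ()) = 0 := hi0
    have hui' : glam w ε φ.toBlocks₁₁ (Sum.inl ()) (Sum.inr ()) = u⁻¹.val := hui
    obtain ⟨a0, b0, d1, d3⟩ := gplane (w := w) (U := U) (ε := ε) htf hε φ.toBlocks₁₁ u huU hi0' hui'
    -- assembling
    let w' : (Unit ⊕ μ') ⊕ (Unit ⊕ μ') ≃ (Unit ⊕ Unit) ⊕ (μ' ⊕ μ') :=
      { toFun := Sum.elim (Sum.elim (fun _ => Sum.inl (Sum.inl ())) (fun k => Sum.inr (Sum.inl k)))
          (Sum.elim (fun _ => Sum.inl (Sum.inr ())) (fun k => Sum.inr (Sum.inr k)))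
        invFun := Sum.elim (Sum.elim (fun _ => Sum.inl (Sum.inl ())) (fun _ => Sum.inr (Sum.inl ())))
          (Sum.elim (fun k => Sum.inl (Sum.inr k)) (fun k => Sum.inr (Sum.inr k)))
        left_inv := by rintro ((⟨⟩ | k) | (⟨⟩ | k)) <;> rfl
        right_inv := by rintro ((⟨⟩ | ⟨⟩) | (k | k)) <;> rfl }
    let v : (Unit ⊕ Unit) ⊕ (μ' ⊕ μ') ≃ (Unit ⊕ Unit) ⊕ κ' :=
      Equiv.sumCongr (Equiv.refl _) e'
    refine ⟨Unit ⊕ μ', inferInstance, inferInstance, w'.trans (v.trans e), Sum.elim a0 a',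
      Sum.elim b0 b', ?_, ?_⟩
    · rintro (k | k)
      · exact d1 k
      · exact c1 k
    · have s1 : GIso w U ε (φ.submatrix v v)
          ((fromBlocks φ.toBlocks₁₁ 0 0 ψ').submatrix v v) := hψ1.reindex w U v
      have s2 : (fromBlocks φ.toBlocks₁₁ 0 0 ψ').submatrix v v
          = fromBlocks φ.toBlocks₁₁ 0 0 (ψ'.submatrix e' e') := by
        ext1 x y
        rcases x with x | x <;> rcases y with y | y <;> rfl
      have s3 : GIso w U ε (fromBlocks φ.toBlocks₁₁ 0 0 (ψ'.submatrix e' e'))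
          (fromBlocks (gpf a0 b0) 0 0 (gpf a' b')) := GIso.blocks w U d3 c3
      rw [s2] at s1
      have s4 := (GIso.trans w U s1 s3).reindex w U w'
      have s5 : (fromBlocks (gpf a0 b0) 0 0 (gpf a' b') :
          Matrix ((Unit ⊕ Unit) ⊕ (μ' ⊕ μ')) ((Unit ⊕ Unit) ⊕ (μ' ⊕ μ'))
            (MonoidAlgebra R Γ)).submatrix w' w' = gpf (Sum.elim a0 a') (Sum.elim b0 b') := by
        ext1 x y
        rcases x with (x | x) | (x | x) <;> rcases y with (y | y) | (y | y) <;>
          simp [gpf, w', Matrix.one_apply, Matrix.diagonal_apply]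
      rw [s5] at s4
      exact s4
  · have hκ : IsEmpty κ := not_nonempty_iff.1 hne
    refine ⟨Empty, inferInstance, inferInstance, ⟨Sum.elim Empty.elim Empty.elim,
      fun k => (hκ.false k).elim, ?_, ?_⟩, Empty.elim, Empty.elim, ?_, ?_⟩
    · rintro (x | x) <;> exact x.elim
    · intro k; exact (hκ.false k).elim
    · rintro ⟨⟩
    · have : ψ.submatrix (Sum.elim Empty.elim Empty.elim : Empty ⊕ Empty → κ)
          (Sum.elim Empty.elim Empty.elim) = gpf (Γ := Γ) Empty.elim Empty.elim := by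
        ext1 x y
        rcases x with x | x <;> exact x.elim
      change GIso w U ε (ψ.submatrix (Sum.elim Empty.elim Empty.elim : Empty ⊕ Empty → κ)
          (Sum.elim Empty.elim Empty.elim)) _
      rw [this]
      exact GIso.refl w U _ _

end main

end Pool.Agent.N510.LT
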