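import Pool.Agent.N510.LT.GIso

set_option autoImplicit false
set_option linter.unusedSectionVars false

/-! Nonsingular planes over the group ring of a ring with involution. -/

namespace Pool.Agent.N510.LT

open Matrix TH57.Thr TH6.PF

variable {R : Type} [Ring R] [StarRing R] {Γ : Type} [Group Γ] {κ μ ι : Type} [Fintype κ]
  [DecidableEq κ] [Fintype μ] [DecidableEq μ] [Fintype ι] [DecidableEq ι] (w : Γ →* ℤˣ)
  (U : Subgroup (MonoidAlgebra R Γ)ˣ)

theorem gcoeff_zs (ε : ℤ) (x : MonoidAlgebra R Γ) (g : Γ) : (ε • x).coeff g = ε • x.coeff g := rfl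

/-- skew elements are skew elements of the ring modulo the trivial ones -/
theorem gskew_red (htf : ∀ g : Γ, g * g = 1 → g = 1) {ε : ℤ} (p : MonoidAlgebra R Γ)
    (hp : p + ε • sbar w p = 0) :
    ∃ (a : R) (χ : MonoidAlgebra R Γ), a + ε • star a = 0 ∧
      p = MonoidAlgebra.single 1 a + (χ - ε • sbar w χ) := by
  classical
  have hpg : ∀ g, p.coeff g + ε • (((w g : ℤˣ) : ℤ) • star (p.coeff g⁻¹)) = 0 := by
    intro g
    have h := congrArg (fun x : MonoidAlgebra R Γ => x.coeff g) hp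
    simp only [MonoidAlgebra.coeff_add, Finsupp.add_apply, gcoeff_zs, coeff_sbar] at h
    exact h
  have hinv : ∀ g : Γ, g⁻¹ = g → g = 1 := by
    intro g hg
    apply htf g
    nth_rewrite 1 [← hg]
    exact inv_mul_cancel g
  let f : Γ → R := fun g => if WellOrderingRel g g⁻¹ then p.coeff g else 0
  have hfin : (Function.support f).Finite := by
    refine (p.coeff.support.finite_toSet).subset fun g hg => ?_
    rw [Finset.mem_coe]
    by_contra h
    apply hg
    simp only [f]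
    rw [Finsupp.notMem_support_iff.1 h, ite_self]
  let χ : MonoidAlgebra R Γ := MonoidAlgebra.ofCoeff (Finsupp.ofSupportFinite f hfin)
  have hχ : ∀ g, χ.coeff g = f g := fun g => rfl
  have hirr : ¬ WellOrderingRel (1 : Γ) (1 : Γ)⁻¹ := by
    rw [inv_one]
    exact irrefl (r := WellOrderingRel) (1 : Γ)
  refine ⟨p.coeff 1, χ, ?_, ?_⟩
  · have h := hpg 1
    have hw : ((w 1 : ℤˣ) : ℤ) = 1 := by rw [map_one, Units.val_one]
    rwa [inv_one, hw, one_smul] at h
  · ext g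
    have h1 : (MonoidAlgebra.single (1 : Γ) (p.coeff 1)
        + (χ - ε • sbar w χ)).coeff g
        = (if (1 : Γ) = g then p.coeff 1 else 0)
          + (f g - ε • (((w g : ℤˣ) : ℤ) • star (f g⁻¹))) := by
      rw [MonoidAlgebra.coeff_add, Finsupp.add_apply, MonoidAlgebra.coeff_sub, Finsupp.sub_apply,
        gcoeff_zs, coeff_sbar, hχ, hχ, MonoidAlgebra.coeff_single, Finsupp.single_apply]
    rw [h1]
    by_cases hg : g = 1
    · subst hg
      rw [if_pos rfl]
      have h3 : f 1 = 0 := if_neg hirr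
      have h4 : f (1 : Γ)⁻¹ = 0 := by rw [inv_one]; exact h3
      rw [h3, h4, star_zero, smul_zero, smul_zero, sub_zero, add_zero]
    · rw [if_neg (Ne.symm hg), zero_add]
      rcases trichotomous_of WellOrderingRel g g⁻¹ with h | h | h
      · have h2 : ¬ WellOrderingRel g⁻¹ g := fun h' => asymm h h'
        have h3 : f g = p.coeff g := if_pos h
        have h4 : f g⁻¹ = 0 := by
          simp only [f]
          rw [inv_inv, if_neg h2]
        rw [h3, h4, star_zero, smul_zero, smul_zero, sub_zero]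
      · exact absurd (hinv g h.symm) hg
      · have h2 : ¬ WellOrderingRel g g⁻¹ := fun h' => asymm h h'
        have h3 : f g = 0 := if_neg h2
        have h4 : f g⁻¹ = p.coeff g⁻¹ := by
          simp only [f]
          rw [inv_inv, if_pos h]
        rw [h3, h4, zero_sub]
        exact eq_neg_of_add_eq_zero_left (hpg g)

/-- sums of planes -/
noncomputable def gpf (a b : μ → R) : Matrix (μ ⊕ μ) (μ ⊕ μ) (MonoidAlgebra R Γ) :=
  fromBlocks (diagonal fun k => MonoidAlgebra.single 1 (a k)) 1 0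
    (diagonal fun k => MonoidAlgebra.single 1 (b k))

variable {w U}

/-- a nonsingular plane with `λ(x, x) = λ(y, y) = 0` -/
theorem gplane0 (htf : ∀ g : Γ, g * g = 1 → g = 1) {ε : ℤ}
    (ψ : Matrix (Unit ⊕ Unit) (Unit ⊕ Unit) (MonoidAlgebra R Γ))
    (u : (MonoidAlgebra R Γ)ˣ) (huU : u ∈ U)
    (h1 : glam w ε ψ (Sum.inl ()) (Sum.inl ()) = 0) (h2 : glam w ε ψ (Sum.inr ()) (Sum.inr ()) = 0)
    (h3 : glam w ε ψ (Sum.inl ()) (Sum.inr ()) = u⁻¹.val) :
    ∃ a b : Unit → R, (∀ k, a k + ε • star (a k) = 0 ∧ b k + ε • star (b k) = 0) ∧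
      GIso w U ε ψ (gpf a b) := by
  let E : (Matrix (Unit ⊕ Unit) (Unit ⊕ Unit) (MonoidAlgebra R Γ))ˣ :=
    Units.map (dgm (Sum.inl ())) u
  have hE : TT U E := TT_of_mem _ _ (dgm_mem_HH _ _ u huU)
  have hEv : E.val = fromBlocks (Matrix.of fun _ _ => u.val) 0 0 1 := by
    ext1 i j
    rcases i with ⟨⟩ | ⟨⟩ <;> rcases j with ⟨⟩ | ⟨⟩
    · change (Matrix.diagonal (Function.update 1 (Sum.inl ()) u.val)) (Sum.inl ()) (Sum.inl ()) = _
      rw [Matrix.diagonal_apply_eq, Function.update_self]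
      rfl
    · change (Matrix.diagonal (Function.update 1 (Sum.inl ()) u.val)) (Sum.inl ()) (Sum.inr ()) = _
      rw [Matrix.diagonal_apply_ne _ Sum.inl_ne_inr]
      rfl
    · change (Matrix.diagonal (Function.update 1 (Sum.inl ()) u.val)) (Sum.inr ()) (Sum.inl ()) = _
      rw [Matrix.diagonal_apply_ne _ Sum.inr_ne_inl]
      rfl
    · change (Matrix.diagonal (Function.update 1 (Sum.inl ()) u.val)) (Sum.inr ()) (Sum.inr ()) = _
      rw [Matrix.diagonal_apply_eq, Function.update_of_ne Sum.inr_ne_inl]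
      rfl
  set φ := E.val * ψ * sadj w E.val with hφ
  have hlφ : ∀ x y, glam w ε φ x y
      = ∑ b, (∑ a, E.val x a * glam w ε ψ a b) * sbar w (E.val y b) := by
    intro x y
    rw [hφ, glam_conj, Matrix.mul_apply]
    refine Finset.sum_congr rfl fun b _ => ?_
    rw [Matrix.mul_apply]
    rfl
  have hll : E.val (Sum.inl ()) (Sum.inl ()) = u.val := by rw [hEv]; rfl
  have hlr : E.val (Sum.inl ()) (Sum.inr ()) = 0 := by rw [hEv]; rfl
  have hrl : E.val (Sum.inr ()) (Sum.inl ()) = 0 := by rw [hEv]; rfl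
  have hrr : E.val (Sum.inr ()) (Sum.inr ()) = 1 := by
    rw [hEv]
    exact Matrix.one_apply_eq ()
  have k1 : glam w ε φ (Sum.inl ()) (Sum.inl ()) = 0 := by
    rw [hlφ]
    simp [Fintype.sum_sum_type, hll, hlr, h1, sbar_zero]
  have k2 : glam w ε φ (Sum.inr ()) (Sum.inr ()) = 0 := by
    rw [hlφ]
    simp [Fintype.sum_sum_type, hrl, hrr, h2, sbar_zero]
  have k3 : glam w ε φ (Sum.inl ()) (Sum.inr ()) = 1 := by
    rw [hlφ]
    simp only [Fintype.sum_sum_type, Finset.univ_unique, Finset.sum_singleton, PUnit.default_eq_unit,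
      hll, hlr, hrl, hrr, zero_mul, add_zero, sbar_zero, mul_zero, zero_add, sbar_one, mul_one]
    rw [h3]
    exact u.mul_inv
  obtain ⟨a, χ1, a1, a3⟩ := gskew_red w htf (φ (Sum.inl ()) (Sum.inl ())) k1
  obtain ⟨b, χ2, b1, b3⟩ := gskew_red w htf (φ (Sum.inr ()) (Sum.inr ())) k2
  refine ⟨fun _ => a, fun _ => b, fun _ => ⟨a1, b1⟩, ?_⟩
  refine ⟨E, fromBlocks (Matrix.of fun _ _ => χ1) 0
    (Matrix.of fun _ _ => φ (Sum.inr ()) (Sum.inl ())) (Matrix.of fun _ _ => χ2), hE, ?_⟩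
  rw [← hφ]
  ext1 i j
  rcases i with ⟨⟩ | ⟨⟩ <;> rcases j with ⟨⟩ | ⟨⟩
  · rw [a3]
    rfl
  · change φ (Sum.inl ()) (Sum.inr ()) = (1 : Matrix Unit Unit (MonoidAlgebra R Γ)) () ()
      + (0 - ε • sbar w (φ (Sum.inr ()) (Sum.inl ())))
    rw [Matrix.one_apply_eq, ← k3, glam_apply]
    abel
  · change φ (Sum.inr ()) (Sum.inl ()) = 0
      + (φ (Sum.inr ()) (Sum.inl ()) - ε • sbar w (0 : MonoidAlgebra R Γ))
    rw [sbar_zero, smul_zero, sub_zero, zero_add]
  · rw [b3]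
    rfl

/-- a nonsingular plane with `λ(x, x) = 0` -/
theorem gplane (htf : ∀ g : Γ, g * g = 1 → g = 1) {ε : ℤ} (hε : ε * ε = 1)
    (ψ : Matrix (Unit ⊕ Unit) (Unit ⊕ Unit) (MonoidAlgebra R Γ))
    (u : (MonoidAlgebra R Γ)ˣ) (huU : u ∈ U)
    (h1 : glam w ε ψ (Sum.inl ()) (Sum.inl ()) = 0)
    (h3 : glam w ε ψ (Sum.inl ()) (Sum.inr ()) = u⁻¹.val) :
    ∃ a b : Unit → R, (∀ k, a k + ε • star (a k) = 0 ∧ b k + ε • star (b k) = 0) ∧
      GIso w U ε ψ (gpf a b) := by
  set q := ψ (Sum.inr ()) (Sum.inr ()) with hq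
  set x : MonoidAlgebra R Γ := -(q * u.val) with hx
  let Z : Matrix (Unit ⊕ Unit) (Unit ⊕ Unit) (MonoidAlgebra R Γ) :=
    fromBlocks 1 0 (Matrix.of fun _ _ => x) 1
  obtain ⟨E, hE1, hE2⟩ := El_unit (R := MonoidAlgebra R Γ) Z (by
    have h4 : Z = 1 + fromBlocks 0 0 (Matrix.of fun _ _ => x) 0 := by
      rw [← fromBlocks_one, fromBlocks_add]; simp [Z]
    rw [h4]
    exact el_unip (Finset.univ.filter fun v : Unit ⊕ Unit => v.isRight) _ (by
      rintro (i | i) (j | j) h <;> simp at h ⊢))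
  set φ := E.val * ψ * sadj w E.val with hφ
  have hlφ : ∀ x y, glam w ε φ x y
      = ∑ b, (∑ a, E.val x a * glam w ε ψ a b) * sbar w (E.val y b) := by
    intro x y
    rw [hφ, glam_conj, Matrix.mul_apply]
    refine Finset.sum_congr rfl fun b _ => ?_
    rw [Matrix.mul_apply]
    rfl
  have hll : E.val (Sum.inl ()) (Sum.inl ()) = 1 := by
    rw [hE1]; exact Matrix.one_apply_eq ()
  have hlr : E.val (Sum.inl ()) (Sum.inr ()) = 0 := by rw [hE1]; rfl
  have hrl : E.val (Sum.inr ()) (Sum.inl ()) = x := by rw [hE1]; rfl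
  have hrr : E.val (Sum.inr ()) (Sum.inr ()) = 1 := by
    rw [hE1]; exact Matrix.one_apply_eq ()
  have hsym : glam w ε ψ (Sum.inr ()) (Sum.inl ()) = ε • sbar w u⁻¹.val := by
    have e1 := glam_symm w ε hε ψ (Sum.inl ()) (Sum.inr ())
    rw [h3] at e1
    rw [e1, smul_smul, hε, one_smul]
  have hxu : x * u⁻¹.val = -q := by
    rw [hx, neg_mul, mul_assoc, u.mul_inv, mul_one]
  have k1 : glam w ε φ (Sum.inl ()) (Sum.inl ()) = 0 := by
    rw [hlφ]
    simp [Fintype.sum_sum_type, hll, hlr, h1, sbar_zero]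
  have k3 : glam w ε φ (Sum.inl ()) (Sum.inr ()) = u⁻¹.val := by
    rw [hlφ]
    simp only [Fintype.sum_sum_type, Finset.univ_unique, Finset.sum_singleton, PUnit.default_eq_unit,
      hll, hlr, hrl, hrr, zero_mul, add_zero, one_mul, h1, h3, zero_add, sbar_one, mul_one]
  have k2 : glam w ε φ (Sum.inr ()) (Sum.inr ()) = 0 := by
    rw [hlφ]
    simp only [Fintype.sum_sum_type, Finset.univ_unique, Finset.sum_singleton, PUnit.default_eq_unit,
      hrl, hrr, one_mul, h1, h3, hsym, zero_add, sbar_one, mul_one, mul_zero]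
    rw [hxu, glam_apply, ← hq, smul_mul_assoc, ← sbar_mul, hxu, sbar_neg, smul_neg]
    abel
  obtain ⟨a, b, hab, hI⟩ := gplane0 htf φ u huU k1 k2 k3
  refine ⟨a, b, hab, GIso.trans w U ⟨E, 0, hE2 _, ?_⟩ hI⟩
  rw [← hφ, sadj_zero, smul_zero, sub_zero, add_zero]

end Pool.Agent.N510.LT
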