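import Pool.Agent.N510.LT.UMod
import Pool.Agent.N510.LT.GIso
import Pool.Agent.TH57.Thr.Red

set_option autoImplicit false
set_option linter.unusedSectionVars false
set_option linter.unusedSimpArgs false
set_option linter.style.haveILetI false

/-! Every quadratic form over the group ring of a ring with involution is, after adding a hyperbolic
form, simply isometric to a form near the critical norm whose coefficients lie in a given set of
generators of the ring. -/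

namespace Pool.Agent.N510.LT

open Matrix TH57.Thr TH6.LF TH6.PF

variable {R : Type} [Ring R] [StarRing R] [Nontrivial R] {G : Type} [Group G] {S : Set R}

section shape

variable {ι q : Type} [Fintype ι] [DecidableEq ι] [Fintype q] [DecidableEq q]

/-- the matrix of the reduced form -/
noncomputable def shp (X : Matrix ι q (MonoidAlgebra R G)) (Y : Matrix q ι (MonoidAlgebra R G))
    (Z : Matrix q q (MonoidAlgebra R G)) : Matrix (ι ⊕ (q ⊕ q)) (ι ⊕ (q ⊕ q)) (MonoidAlgebra R G) :=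
  fromBlocks 0 (fromCols 0 X) (fromRows Y 0) (fromBlocks 0 Z 0 0)

theorem shp_zero (X : Matrix ι q (MonoidAlgebra R G)) (Y : Matrix q ι (MonoidAlgebra R G))
    (Z : Matrix q q (MonoidAlgebra R G)) (i j : ι ⊕ (q ⊕ q)) :
    shp X Y Z i j = 0 ∨ shp X Y Z j i = 0 := by
  rcases i with i | i | i <;> rcases j with j | j | j
  · exact Or.inl rfl
  · exact Or.inl rfl
  · exact Or.inr rfl
  · exact Or.inr rfl
  · exact Or.inl rfl
  · exact Or.inr rfl
  · exact Or.inl rfl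
  · exact Or.inl rfl
  · exact Or.inl rfl

theorem CS_shp {X : Matrix ι q (MonoidAlgebra R G)} {Y : Matrix q ι (MonoidAlgebra R G)}
    {Z : Matrix q q (MonoidAlgebra R G)} (hX : CS S X) (hY : CS S Y) (hZ : CS S Z) :
    CS S (shp X Y Z) :=
  CS_fromBlocks (CS_zero S) (CS_fromCols (CS_zero S) hX) (CS_fromRows hY (CS_zero S))
    (CS_fromBlocks (CS_zero S) hZ (CS_zero S) (CS_zero S))

theorem ind_zs {z : ℤ} (hz : z * z = 1) (r : R) : ind (z • r) = ind r := by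
  rcases Int.isUnit_iff.1 (IsUnit.of_mul_eq_one _ hz) with h | h <;> rw [h]
  · rw [one_smul]
  · rw [neg_smul, one_smul, ind_neg]

/-- the symmetrisation of a matrix with `F i j = 0` or `F j i = 0` -/
theorem pat_glam (w : G →* ℤˣ) {κ : Type} [Fintype κ] [DecidableEq κ]
    {F : Matrix κ κ (MonoidAlgebra R G)} (hF : ∀ i j, F i j = 0 ∨ F j i = 0) {ε : ℤ}
    (hε : ε * ε = 1) : pat (glam w ε F) = symPat F := by
  ext i j g
  rw [coeff_symPat, coeff_pat, glam_apply, MonoidAlgebra.coeff_add, Finsupp.add_apply]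
  have h1 : (ε • sbar w (F j i)).coeff g = ε • (((w g : ℤˣ) : ℤ) • star ((F j i).coeff g⁻¹)) := by
    change ε • (sbar w (F j i)).coeff g = _
    rw [coeff_sbar]
  rw [h1]
  have hz : ∀ g', ((0 : MonoidAlgebra R G)).coeff g' = 0 := fun _ => rfl
  rcases hF i j with h | h
  · rw [h, hz, zero_add, ind_zero, zero_add, ind_zs hε, ind_zs (w_sq w g), ind_star]
  · rw [h, hz, star_zero, smul_zero, smul_zero, add_zero, ind_zero, add_zero]

theorem CS_glam (w : G →* ℤˣ) {κ : Type} [Fintype κ] [DecidableEq κ]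
    (hS : ∀ s ∈ S, -s ∈ S) (hst : ∀ s ∈ S, star s ∈ S)
    {F : Matrix κ κ (MonoidAlgebra R G)} (hF : ∀ i j, F i j = 0 ∨ F j i = 0) (hC : CS S F) {ε : ℤ}
    (hε : ε * ε = 1) : CS S (glam w ε F) := by
  have key : ∀ {z : ℤ}, z * z = 1 → ∀ r, r ∈ S → z • r ∈ S := by
    intro z hz r hr
    rcases Int.isUnit_iff.1 (IsUnit.of_mul_eq_one _ hz) with h | h <;> rw [h]
    · rwa [one_smul]
    · rw [neg_smul, one_smul]; exact hS _ hr
  have key0 : ∀ {z : ℤ}, z * z = 1 → ∀ r : R, z • r ≠ 0 → r ≠ 0 := by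
    rintro z hz r hr rfl
    exact hr (smul_zero _)
  intro i j g h
  rw [glam_apply, MonoidAlgebra.coeff_add, Finsupp.add_apply] at h ⊢
  have h1 : (ε • sbar w (F j i)).coeff g = ε • (((w g : ℤˣ) : ℤ) • star ((F j i).coeff g⁻¹)) := by
    change ε • (sbar w (F j i)).coeff g = _
    rw [coeff_sbar]
  rw [h1] at h ⊢
  have hz : ∀ g', ((0 : MonoidAlgebra R G)).coeff g' = 0 := fun _ => rfl
  rcases hF i j with h2 | h2
  · rw [h2, hz, zero_add] at h ⊢
    have h3 := key0 hε _ h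
    have h4 := key0 (w_sq w g) _ h3
    exact key hε _ (key (w_sq w g) _ (hst _ (hC j i g⁻¹ (fun h5 => h4 (by rw [h5, star_zero])))))
  · rw [h2, hz, star_zero, smul_zero, smul_zero, add_zero] at h ⊢
    exact hC i j g h

/-- the isometry of a linear model -/
theorem sform_conj (w : G →* ℤˣ) (ψ : Matrix ι ι (MonoidAlgebra R G))
    (X : Matrix ι q (MonoidAlgebra R G)) (Y : Matrix q ι (MonoidAlgebra R G))
    (Z W : Matrix q q (MonoidAlgebra R G)) (hZW : Z * W = 1) :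
    (fromBlocks 1 (fromCols X (sadj w (W * Y))) 0 (fromBlocks Z 0 0 1) :
        Matrix (ι ⊕ (q ⊕ q)) (ι ⊕ (q ⊕ q)) (MonoidAlgebra R G)) * addHyp q ψ
      * sadj w (fromBlocks 1 (fromCols X (sadj w (W * Y))) 0 (fromBlocks Z 0 0 1) :
        Matrix (ι ⊕ (q ⊕ q)) (ι ⊕ (q ⊕ q)) (MonoidAlgebra R G))
      = fromBlocks (ψ + X * W * Y) (fromCols 0 X) (fromRows Y 0) (fromBlocks 0 Z 0 0) := by
  rw [addHyp, sadj_fromBlocks, sadj_fromBlocks, sadj_fromCols, sadj_sadj, sadj_one, sadj_zero,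
    sadj_zero, sadj_one, Matrix.fromBlocks_multiply, Matrix.fromBlocks_multiply]
  have e1 : (fromCols X (sadj w (W * Y)) : Matrix ι (q ⊕ q) (MonoidAlgebra R G))
      * (fromBlocks (0 : Matrix q q (MonoidAlgebra R G)) (1 : Matrix q q (MonoidAlgebra R G))
        (0 : Matrix q q (MonoidAlgebra R G)) (0 : Matrix q q (MonoidAlgebra R G))) =
      fromCols 0 X := by
    rw [Matrix.fromCols_mul_fromBlocks]; simp
  have e2 : fromBlocks Z (0 : Matrix q q (MonoidAlgebra R G))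
      (0 : Matrix q q (MonoidAlgebra R G)) (1 : Matrix q q (MonoidAlgebra R G))
      * fromBlocks (0 : Matrix q q (MonoidAlgebra R G)) (1 : Matrix q q (MonoidAlgebra R G))
        (0 : Matrix q q (MonoidAlgebra R G)) (0 : Matrix q q (MonoidAlgebra R G))
      = fromBlocks 0 Z 0 0 := by
    rw [Matrix.fromBlocks_multiply]; simp
  simp only [Matrix.one_mul, Matrix.mul_zero, Matrix.zero_mul, add_zero, zero_add, e1, e2,
    Matrix.mul_one]
  have e3 : fromCols (0 : Matrix ι q (MonoidAlgebra R G)) X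
      * fromRows (sadj w X) (W * Y) = X * W * Y := by
    rw [Matrix.fromCols_mul_fromRows]; simp [Matrix.mul_assoc]
  have e4 : fromCols (0 : Matrix ι q (MonoidAlgebra R G)) X
      * fromBlocks (sadj w Z) (0 : Matrix q q (MonoidAlgebra R G))
        (0 : Matrix q q (MonoidAlgebra R G)) (1 : Matrix q q (MonoidAlgebra R G))
      = fromCols 0 X := by
    rw [Matrix.fromCols_mul_fromBlocks]; simp
  have e5 : fromBlocks (0 : Matrix q q (MonoidAlgebra R G)) Z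
      (0 : Matrix q q (MonoidAlgebra R G)) (0 : Matrix q q (MonoidAlgebra R G))
      * fromRows (sadj w X) (W * Y) = fromRows Y 0 := by
    rw [Matrix.fromBlocks_mul_fromRows]
    simp only [Matrix.zero_mul, zero_add, ← Matrix.mul_assoc, hZW, Matrix.one_mul]
  have e6 : fromBlocks (0 : Matrix q q (MonoidAlgebra R G)) Z
      (0 : Matrix q q (MonoidAlgebra R G)) (0 : Matrix q q (MonoidAlgebra R G))
      * fromBlocks (sadj w Z) (0 : Matrix q q (MonoidAlgebra R G))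
      (0 : Matrix q q (MonoidAlgebra R G)) (1 : Matrix q q (MonoidAlgebra R G))
      = fromBlocks 0 Z 0 0 := by
    rw [Matrix.fromBlocks_multiply]; simp
  rw [e3, e4, e5, e6]

theorem sel_model (X : Matrix ι q (MonoidAlgebra R G))
    (X' : Matrix ι q (MonoidAlgebra R G)) (Z : Matrix q q (MonoidAlgebra R G))
    (hZ : Z ∈ El (R := MonoidAlgebra R G) q) :
    (fromBlocks 1 (fromCols X X') 0 (fromBlocks Z 0 0 1) :
      Matrix (ι ⊕ (q ⊕ q)) (ι ⊕ (q ⊕ q)) (MonoidAlgebra R G)) ∈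
      El (R := MonoidAlgebra R G) (ι ⊕ (q ⊕ q)) := by
  have e : (fromBlocks 1 (fromCols X X') 0 (fromBlocks Z 0 0 1) :
      Matrix (ι ⊕ (q ⊕ q)) (ι ⊕ (q ⊕ q)) (MonoidAlgebra R G))
      = fromBlocks (1 : Matrix ι ι (MonoidAlgebra R G)) 0 0
      (fromBlocks Z 0 0 1) * (1 + fromBlocks 0 (fromCols X X') 0 0) := by
    rw [← Matrix.fromBlocks_one, Matrix.fromBlocks_add, Matrix.fromBlocks_multiply]
    simp
  rw [e]
  refine mul_mem (el_ext2 _ (el_ext Z hZ))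
    (el_unip (Finset.univ.filter fun v : ι ⊕ (q ⊕ q) => v.isLeft) _ ?_)
  rintro (i | i) (j | j) h <;> simp at h ⊢

theorem sip_model (X : Matrix ι q (MonoidAlgebra R G)) (Y : Matrix q ι (MonoidAlgebra R G))
    (Z : Matrix q q (MonoidAlgebra R G)) (v v' : ι ⊕ (q ⊕ q) → MonoidAlgebra ℝ G) :
    ip (v ᵥ* tp (shp X Y Z)) v'
      = ip ((v ∘ Sum.inl) ᵥ* tp X) (v' ∘ Sum.inr ∘ Sum.inr)
        + ip ((v ∘ Sum.inr ∘ Sum.inl) ᵥ* tp Z) (v' ∘ Sum.inr ∘ Sum.inr)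
        + ip ((v ∘ Sum.inr ∘ Sum.inl) ᵥ* tp Y) (v' ∘ Sum.inl) := by
  have h1 : v ᵥ* tp (shp X Y Z)
      = Sum.elim ((v ∘ Sum.inr ∘ Sum.inl) ᵥ* tp Y)
      (Sum.elim 0 ((v ∘ Sum.inl) ᵥ* tp X + (v ∘ Sum.inr ∘ Sum.inl) ᵥ* tp Z)) := by
    rw [shp, tp_fromBlocks, tp_fromCols, tp_fromRows, tp_fromBlocks]
    simp only [tp_zero]
    funext j
    rcases j with j | j | j
    · simp [Matrix.vecMul, dotProduct, Fintype.sum_sum_type]
    · simp [Matrix.vecMul, dotProduct, Fintype.sum_sum_type]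
    · simp [Matrix.vecMul, dotProduct, Fintype.sum_sum_type]
  rw [h1, ip_elim, ip_elim (Sum.elim _ _ ∘ Sum.inr)]
  have h2 : (Sum.elim ((v ∘ Sum.inr ∘ Sum.inl) ᵥ* tp Y)
      (Sum.elim (0 : q → MonoidAlgebra ℝ G)
        ((v ∘ Sum.inl) ᵥ* tp X + (v ∘ Sum.inr ∘ Sum.inl) ᵥ* tp Z)))
      ∘ Sum.inl = (v ∘ Sum.inr ∘ Sum.inl) ᵥ* tp Y := rfl
  have h3 : ((Sum.elim ((v ∘ Sum.inr ∘ Sum.inl) ᵥ* tp Y)
      (Sum.elim (0 : q → MonoidAlgebra ℝ G)
        ((v ∘ Sum.inl) ᵥ* tp X + (v ∘ Sum.inr ∘ Sum.inl) ᵥ* tp Z)))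
      ∘ Sum.inr) ∘ Sum.inl = 0 := rfl
  have h4 : ((Sum.elim ((v ∘ Sum.inr ∘ Sum.inl) ᵥ* tp Y)
      (Sum.elim (0 : q → MonoidAlgebra ℝ G)
        ((v ∘ Sum.inl) ᵥ* tp X + (v ∘ Sum.inr ∘ Sum.inl) ᵥ* tp Z)))
      ∘ Sum.inr) ∘ Sum.inr
      = (v ∘ Sum.inl) ᵥ* tp X + (v ∘ Sum.inr ∘ Sum.inl) ᵥ* tp Z := rfl
  rw [h2, h3, h4, ip_zero_left, ip_add_left]
  have h5 : (v' ∘ Sum.inr) ∘ Sum.inr = v' ∘ Sum.inr ∘ Sum.inr := rfl
  rw [h5]
  ring

theorem nsq3 (v : ι ⊕ (q ⊕ q) → MonoidAlgebra ℝ G) :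
    normSq v = normSq (v ∘ Sum.inl) + (normSq (v ∘ Sum.inr ∘ Sum.inl)
      + normSq (v ∘ Sum.inr ∘ Sum.inr)) := by
  rw [normSq_sum v, normSq_sum (v ∘ Sum.inr)]
  rfl

end shape

section final

variable {ι : Type} [Fintype ι] [DecidableEq ι]

theorem sform_reduction (w : G →* ℤˣ) (hS : Gens S) (ψ : Matrix ι ι (MonoidAlgebra R G)) (c : ℝ)
    (hc0 : 0 < c) (hc : 9 / 2 < c ^ 2) :
    ∃ (q : Type) (_ : Fintype q) (_ : DecidableEq q)
      (P : (Matrix (ι ⊕ (q ⊕ q)) (ι ⊕ (q ⊕ q)) (MonoidAlgebra R G))ˣ),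
      P ∈ commutator (Matrix (ι ⊕ (q ⊕ q)) (ι ⊕ (q ⊕ q)) (MonoidAlgebra R G))ˣ ∧
      (∀ i j, (P.val * addHyp q ψ * sadj w P.val) i j = 0
        ∨ (P.val * addHyp q ψ * sadj w P.val) j i = 0) ∧
      CS S (P.val * addHyp q ψ * sadj w P.val) ∧
      NormLE (symPat (P.val * addHyp q ψ * sadj w P.val)) c := by
  have hr0 : 0 < Real.sqrt 2 := Real.sqrt_pos.2 two_pos
  have hr : Real.sqrt 2 ^ 2 = 2 := Real.sq_sqrt two_pos.le
  set r := Real.sqrt 2 with hrd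
  have hγ : 3 < c * r := by
    have h1 : 3 ^ 2 < (c * r) ^ 2 := by
      rw [mul_pow, hr]; linarith
    exact lt_of_pow_lt_pow_left₀ 2 (by positivity) h1
  obtain ⟨q, i1, i2, X, Y, Z, W, hZ, hZW, hWZ, hB, hcard, k1, k2, k3, hN⟩ :=
    mod_all hS hr0 hr hγ ψ
  refine ⟨q, i1, i2, ?_⟩
  have hcard3 : 3 ≤ Fintype.card (ι ⊕ (q ⊕ q)) := by
    rw [Fintype.card_sum, Fintype.card_sum]; omega
  obtain ⟨P, hP1, hP2⟩ := comm_of_El hcard3 _ (sel_model X (sadj w (W * Y)) Z hZ)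
  have hform : P.val * addHyp q ψ * sadj w P.val = shp X Y Z := by
    rw [hP1, sform_conj w ψ X Y Z W hZW, shp]
    have h1 : ψ + X * W * Y = 0 := by rw [← hB]; simp
    rw [h1]
  refine ⟨P, hP2, ?_, ?_, ?_⟩
  · rw [hform]; exact shp_zero X Y Z
  · rw [hform]; exact CS_shp k1 k2 k3
  · rw [hform]
    refine normLE_of_ip _ c hc0 fun v v' => ?_
    have h3 : |ip (v ᵥ* toReal (symPat (shp X Y Z))) v'|
        ≤ |ip (v ᵥ* tp (shp X Y Z)) v'| + |ip (v' ᵥ* tp (shp X Y Z)) v| := by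
      rw [symPat_ip]
      exact abs_add_le _ _
    have h4 := hN (v ∘ Sum.inl) (v' ∘ Sum.inl) (v' ∘ Sum.inr ∘ Sum.inr) (v ∘ Sum.inr ∘ Sum.inl)
    have h5 := hN (v' ∘ Sum.inl) (v ∘ Sum.inl) (v ∘ Sum.inr ∘ Sum.inr) (v' ∘ Sum.inr ∘ Sum.inl)
    rw [← sip_model] at h4 h5
    have n1 := normSq_nonneg (v ∘ Sum.inl)
    have n2 := normSq_nonneg (v' ∘ Sum.inl)
    have h6 : r * (2 * |ip (v ᵥ* toReal (symPat (shp X Y Z))) v'|)
        ≤ r * (c * (normSq v + normSq v')) := by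
      rw [nsq3 v, nsq3 v']
      have h7 := mul_le_mul_of_nonneg_left h3 (show 0 ≤ r * 2 by positivity)
      nlinarith
    exact le_of_mul_le_mul_left h6 hr0

end final

section dist

variable {κ : Type} [Fintype κ] [DecidableEq κ]

theorem sdist_form (w : G →* ℤˣ) (hS : Gens S)
    (ψ : Matrix (κ ⊕ κ) (κ ⊕ κ) (MonoidAlgebra R G)) :
    ∃ (q : Type) (_ : Fintype q) (_ : DecidableEq q)
      (P : (Matrix ((κ ⊕ κ) ⊕ (q ⊕ q)) ((κ ⊕ κ) ⊕ (q ⊕ q)) (MonoidAlgebra R G))ˣ),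
      P ∈ commutator (Matrix ((κ ⊕ κ) ⊕ (q ⊕ q)) ((κ ⊕ κ) ⊕ (q ⊕ q)) (MonoidAlgebra R G))ˣ ∧
      (∀ i j, (P.val * addHyp q ψ * sadj w P.val - addHyp q (hyp (MonoidAlgebra R G) κ)) i j = 0
        ∨ (P.val * addHyp q ψ * sadj w P.val - addHyp q (hyp (MonoidAlgebra R G) κ)) j i = 0) ∧
      CS S (P.val * addHyp q ψ * sadj w P.val - addHyp q (hyp (MonoidAlgebra R G) κ)) ∧
      NormLE (symPat (P.val * addHyp q ψ * sadj w P.val
        - addHyp q (hyp (MonoidAlgebra R G) κ))) (Real.sqrt 2) := by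
  obtain ⟨q, i1, i2, X, Y, Z, W, hZ, hZW, hWZ, hB, hcard, k1, k2, k3, hN⟩ :=
    modD_all hS (ψ - hyp (MonoidAlgebra R G) κ)
  refine ⟨q, i1, i2, ?_⟩
  have hcard3 : 3 ≤ Fintype.card ((κ ⊕ κ) ⊕ (q ⊕ q)) := by
    simp only [Fintype.card_sum]; omega
  obtain ⟨P, hP1, hP2⟩ := comm_of_El hcard3 _ (sel_model X (sadj w (W * Y)) (1 + Z) hZ)
  have hform : P.val * addHyp q ψ * sadj w P.val - addHyp q (hyp (MonoidAlgebra R G) κ)
      = shp X Y Z := by
    rw [hP1, sform_conj w ψ X Y (1 + Z) W hZW, shp, addHyp, sub_eq_iff_eq_add,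
      Matrix.fromBlocks_add, Matrix.fromBlocks_add]
    have h1 : ψ + X * W * Y = hyp (MonoidAlgebra R G) κ := by
      have h2 : X * W * Y = -(ψ - hyp (MonoidAlgebra R G) κ) := by rw [← hB, neg_neg]
      rw [h2]; abel
    rw [h1]
    simp [add_comm]
  refine ⟨P, hP2, ?_, ?_, ?_⟩
  · rw [hform]; exact shp_zero X Y Z
  · rw [hform]; exact CS_shp k1 k2 k3
  · rw [hform]
    refine normLE_of_ip _ (Real.sqrt 2) sqrt2_pos fun v v' => ?_
    have h3 : |ip (v ᵥ* toReal (symPat (shp X Y Z))) v'|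
        ≤ |ip (v ᵥ* tp (shp X Y Z)) v'| + |ip (v' ᵥ* tp (shp X Y Z)) v| := by
      rw [symPat_ip]
      exact abs_add_le _ _
    have h4 := hN (v ∘ Sum.inl) (v' ∘ Sum.inl) (v ∘ Sum.inr ∘ Sum.inl) (v' ∘ Sum.inr ∘ Sum.inr)
    have h5 := hN (v' ∘ Sum.inl) (v ∘ Sum.inl) (v' ∘ Sum.inr ∘ Sum.inl) (v ∘ Sum.inr ∘ Sum.inr)
    rw [← sip_model] at h4 h5
    have h6 : Real.sqrt 2 * (2 * |ip (v ᵥ* toReal (symPat (shp X Y Z))) v'|)
        ≤ Real.sqrt 2 * (Real.sqrt 2 * (normSq v + normSq v')) := by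
      rw [← mul_assoc (Real.sqrt 2) (Real.sqrt 2), Real.mul_self_sqrt two_pos.le, nsq3 v, nsq3 v']
      have h7 := mul_le_mul_of_nonneg_left h3 (show 0 ≤ Real.sqrt 2 * 2 by positivity)
      linarith
    exact le_of_mul_le_mul_left h6 sqrt2_pos

end dist

section fin

variable {ι : Type} [Fintype ι] [DecidableEq ι]

theorem addHyp_re {q q' : Type} [Fintype q] [DecidableEq q] [Fintype q'] [DecidableEq q']
    (e : q' ≃ q) (ψ : Matrix ι ι (MonoidAlgebra R G)) :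
    addHyp q' ψ = (addHyp q ψ).submatrix
      (Equiv.sumCongr (Equiv.refl ι) (Equiv.sumCongr e e))
      (Equiv.sumCongr (Equiv.refl ι) (Equiv.sumCongr e e)) := by
  ext1 i j
  rcases i with i | i | i <;> rcases j with j | j | j <;> simp [addHyp, Matrix.one_apply]

theorem symPat_submatrix {κ μ : Type} (F : Matrix κ κ (MonoidAlgebra R G)) (e : μ → κ) :
    symPat (F.submatrix e e) = (symPat F).submatrix e e := by
  unfold symPat
  rw [pat_submatrix, adj_submatrix]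
  rfl

theorem sform_reduction_fin (w : G →* ℤˣ) (hS : Gens S) (ψ : Matrix ι ι (MonoidAlgebra R G))
    (c : ℝ) (hc0 : 0 < c) (hc : 9 / 2 < c ^ 2) :
    ∃ (m : ℕ) (P : (Matrix (ι ⊕ (Fin m ⊕ Fin m)) (ι ⊕ (Fin m ⊕ Fin m)) (MonoidAlgebra R G))ˣ),
      P ∈ commutator (Matrix (ι ⊕ (Fin m ⊕ Fin m)) (ι ⊕ (Fin m ⊕ Fin m)) (MonoidAlgebra R G))ˣ ∧
      (∀ i j, (P.val * addHyp (Fin m) ψ * sadj w P.val) i j = 0
        ∨ (P.val * addHyp (Fin m) ψ * sadj w P.val) j i = 0) ∧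
      CS S (P.val * addHyp (Fin m) ψ * sadj w P.val) ∧
      NormLE (symPat (P.val * addHyp (Fin m) ψ * sadj w P.val)) c := by
  obtain ⟨q, i1, i2, P, h1, h2, h3, h4⟩ := sform_reduction w hS ψ c hc0 hc
  let e : Fin (Fintype.card q) ≃ q := (Fintype.equivFin q).symm
  let e' : ι ⊕ (Fin (Fintype.card q) ⊕ Fin (Fintype.card q)) ≃ ι ⊕ (q ⊕ q) :=
    Equiv.sumCongr (Equiv.refl _) (Equiv.sumCongr e e)
  have k1 : (Units.map (re e') P).val = P.val.submatrix e' e' := rfl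
  have k2 : (Units.map (re e') P).val * addHyp (Fin (Fintype.card q)) ψ
      * sadj w (Units.map (re e') P).val
      = (P.val * addHyp q ψ * sadj w P.val).submatrix e' e' := by
    rw [k1, addHyp_re e, sadj_submatrix, Matrix.submatrix_mul_equiv, Matrix.submatrix_mul_equiv]
  refine ⟨Fintype.card q, Units.map (re e') P, comm_re e' P h1, ?_, ?_, ?_⟩
  · rw [k2]; exact fun i j => h2 _ _
  · rw [k2]; exact CS_submatrix h3 _ _
  · rw [k2, symPat_submatrix]; exact NormLE_re e' _ _ h4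

theorem sdist_form_fin (w : G →* ℤˣ) (hS : Gens S)
    (ψ : Matrix (ι ⊕ ι) (ι ⊕ ι) (MonoidAlgebra R G)) :
    ∃ (m : ℕ) (P : (Matrix ((ι ⊕ ι) ⊕ (Fin m ⊕ Fin m)) ((ι ⊕ ι) ⊕ (Fin m ⊕ Fin m))
        (MonoidAlgebra R G))ˣ),
      P ∈ commutator (Matrix ((ι ⊕ ι) ⊕ (Fin m ⊕ Fin m)) ((ι ⊕ ι) ⊕ (Fin m ⊕ Fin m))
        (MonoidAlgebra R G))ˣ ∧
      (∀ i j, (P.val * addHyp (Fin m) ψ * sadj w P.val
          - addHyp (Fin m) (hyp (MonoidAlgebra R G) ι)) i j = 0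
        ∨ (P.val * addHyp (Fin m) ψ * sadj w P.val
          - addHyp (Fin m) (hyp (MonoidAlgebra R G) ι)) j i = 0) ∧
      CS S (P.val * addHyp (Fin m) ψ * sadj w P.val
          - addHyp (Fin m) (hyp (MonoidAlgebra R G) ι)) ∧
      NormLE (symPat (P.val * addHyp (Fin m) ψ * sadj w P.val
          - addHyp (Fin m) (hyp (MonoidAlgebra R G) ι))) (Real.sqrt 2) := by
  obtain ⟨q, i1, i2, P, h1, h2, h3, h4⟩ := sdist_form w hS ψ
  let e : Fin (Fintype.card q) ≃ q := (Fintype.equivFin q).symm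
  let e' : (ι ⊕ ι) ⊕ (Fin (Fintype.card q) ⊕ Fin (Fintype.card q)) ≃ (ι ⊕ ι) ⊕ (q ⊕ q) :=
    Equiv.sumCongr (Equiv.refl _) (Equiv.sumCongr e e)
  have k1 : (Units.map (re e') P).val = P.val.submatrix e' e' := rfl
  have k2 : (Units.map (re e') P).val * addHyp (Fin (Fintype.card q)) ψ
      * sadj w (Units.map (re e') P).val
      - addHyp (Fin (Fintype.card q)) (hyp (MonoidAlgebra R G) ι)
      = (P.val * addHyp q ψ * sadj w P.val
        - addHyp q (hyp (MonoidAlgebra R G) ι)).submatrix e' e' := by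
    rw [k1, addHyp_re e, addHyp_re e, sadj_submatrix, Matrix.submatrix_mul_equiv,
      Matrix.submatrix_mul_equiv]
    rfl
  refine ⟨Fintype.card q, Units.map (re e') P, comm_re e' P h1, ?_, ?_, ?_⟩
  · rw [k2]; exact fun i j => h2 _ _
  · rw [k2]; exact CS_submatrix h3 _ _
  · rw [k2, symPat_submatrix]; exact NormLE_re e' _ _ h4

end fin

end Pool.Agent.N510.LT
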