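import Pool.Agent.N510.LT.GMain
import Pool.Agent.N510.LT.UForm

set_option autoImplicit false
set_option linter.unusedSectionVars false

/-! The critical norm for quadratic forms over integral group rings. -/

namespace Pool.Agent.N510.LT

open Matrix TH57.Thr TH6.LF TH6.PF

variable {Γ : Type} [Group Γ] {κ μ : Type} [Fintype κ] [DecidableEq κ] [Fintype μ] [DecidableEq μ]

theorem isSize_int : IsSize (Int.castRingHom (ZMod 2)) Int.natAbs where
  zero := rfl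
  pos r h := Int.natAbs_eq_zero.1 h
  neg r := Int.natAbs_neg r
  star _ := rfl
  par r := by
    rcases Int.natAbs_eq r with h | h
    · nth_rewrite 2 [h]
      simp
    · nth_rewrite 2 [h]
      rw [map_neg, CharTwo.neg_eq]
      simp
  unit r h := Int.isUnit_iff_natAbs_eq.2 h

theorem gens_int : Gens ({1, -1} : Set ℤ) where
  one := Or.inl rfl
  neg := by
    rintro s (rfl | rfl)
    · exact Or.inr rfl
    · exact Or.inl rfl
  gen := by
    rw [eq_top_iff]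
    intro z _
    have h1 : (1 : ℤ) ∈ AddSubgroup.closure ({1, -1} : Set ℤ) :=
      AddSubgroup.subset_closure (Or.inl rfl)
    have h2 := (AddSubgroup.closure ({1, -1} : Set ℤ)).zsmul_mem h1 z
    rwa [smul_eq_mul, mul_one] at h2

theorem star_int (s : ℤ) (hs : s ∈ ({1, -1} : Set ℤ)) : star s ∈ ({1, -1} : Set ℤ) := hs

/-- the coefficients `±1` -/
theorem szm_eq_pat (A : Matrix κ μ (MonoidAlgebra ℤ Γ)) (hA : CS ({1, -1} : Set ℤ) A) :
    szm Int.natAbs rfl A = pat A := by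
  ext i j g
  rw [szm, Matrix.map_apply, coeff_sz, coeff_pat]
  by_cases h : (A i j).coeff g = 0
  · rw [h, ind_zero]; rfl
  · rw [ind_of_ne h]
    rcases hA i j g h with h1 | h1 <;> rw [h1] <;> rfl

theorem int_unit (u : (MonoidAlgebra ℤ Γ)ˣ) (g : Γ) (r : ℤˣ)
    (h : u.val = MonoidAlgebra.single g r.val) : u ∈ TU Γ := by
  rcases Int.units_eq_one_or r with h1 | h1
  · exact ⟨g, 1, by rw [h, h1]⟩
  · exact ⟨g, -1, by rw [h, h1]⟩

/-- planes over `ℤ` -/
theorem int_planes (w : Γ →* ℤˣ) (U : Subgroup (MonoidAlgebra ℤ Γ)ˣ) {ε : ℤ}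
    (hε : ε = 1 ∨ ε = -1) (a b : μ → ℤ)
    (h : ∀ k, a k + ε • star (a k) = 0 ∧ b k + ε • star (b k) = 0) :
    ∃ a' b' : μ → ℤ, (∀ k, (a' k = 0 ∨ a' k = 1) ∧ (b' k = 0 ∨ b' k = 1)) ∧
      (ε = 1 → ∀ k, a' k = 0 ∧ b' k = 0) ∧ GIso w U ε (gpf a b) (gpf a' b') := by
  have h' : ∀ k, a k + ε * a k = 0 ∧ b k + ε * b k = 0 := h
  rcases hε with rfl | rfl
  · have ha : ∀ k, a k = 0 := fun k => by have := (h' k).1; omega
    have hb : ∀ k, b k = 0 := fun k => by have := (h' k).2; omega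
    refine ⟨a, b, fun k => ⟨Or.inl (ha k), Or.inl (hb k)⟩, fun _ k => ⟨ha k, hb k⟩,
      GIso.refl w U _ _⟩
  · refine ⟨fun k => a k % 2, fun k => b k % 2, fun k => ⟨?_, ?_⟩, fun hh => ?_, 1,
      fromBlocks (diagonal fun k => MonoidAlgebra.single 1 (a k / 2)) 0 0
        (diagonal fun k => MonoidAlgebra.single 1 (b k / 2)), TT_one _, ?_⟩
    · exact Int.emod_two_eq_zero_or_one _
    · exact Int.emod_two_eq_zero_or_one _
    · exact absurd hh (by norm_num)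
    · have key : ∀ z : ℤ, (MonoidAlgebra.single 1 z : MonoidAlgebra ℤ Γ)
          = MonoidAlgebra.single 1 (z % 2) + (MonoidAlgebra.single 1 (z / 2)
            - (-1 : ℤ) • sbar w (MonoidAlgebra.single 1 (z / 2))) := by
        intro z
        have hw : ((w 1 : ℤˣ) : ℤ) = 1 := by rw [map_one, Units.val_one]
        rw [sbar_single, inv_one, hw, one_smul, neg_smul, one_smul, sub_neg_eq_add]
        have h1 : star (z / 2) = z / 2 := rfl
        rw [h1, ← MonoidAlgebra.single_add, ← MonoidAlgebra.single_add]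
        congr 1
        omega
      rw [Units.val_one, sadj_one, Matrix.one_mul, Matrix.mul_one]
      ext1 x y
      rcases x with x | x <;> rcases y with y | y
      · by_cases hxy : x = y
        · subst hxy
          have e1 := key (a x)
          simpa [gpf, sadj, sbar_zero] using e1
        · simp [gpf, sadj, hxy, Ne.symm hxy, sbar_zero]
      · simp [gpf, sadj, sbar_zero]
      · simp [gpf, sadj, sbar_zero]
      · by_cases hxy : x = y
        · subst hxy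
          have e1 := key (b x)
          simpa [gpf, sadj, sbar_zero] using e1
        · simp [gpf, sadj, hxy, Ne.symm hxy, sbar_zero]

/-- **Nonsingular integral forms below the critical norm.** -/
theorem int_main (w : Γ →* ℤˣ) (htf : ∀ g : Γ, g * g = 1 → g = 1) {ε : ℤ} (hε : ε = 1 ∨ ε = -1)
    {c : ℝ} (hc : 0 < c) (hc2 : c ^ 2 < 9 / 2) (ψ : Matrix κ κ (MonoidAlgebra ℤ Γ))
    (hu : IsUnit (glam w ε ψ)) (hN : NormLE (szm Int.natAbs rfl (glam w ε ψ)) c) :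
    ∃ (m : ℕ) (e : Fin m ⊕ Fin m ≃ κ) (a b : Fin m → ℤ),
      (∀ k, (a k = 0 ∨ a k = 1) ∧ (b k = 0 ∨ b k = 1)) ∧
      (ε = 1 → ∀ k, a k = 0 ∧ b k = 0) ∧ GIso w (TU Γ) ε (ψ.submatrix e e) (gpf a b) := by
  have hεε : ε * ε = 1 := by rcases hε with rfl | rfl <;> norm_num
  obtain ⟨μ, i1, i2, e, a, b, h1, h2⟩ := gmain (w := w) (U := TU Γ) isSize_int int_unit htf hεε
    hc hc2 _ κ rfl ψ hu hN
  obtain ⟨a', b', h3, h4, h5⟩ := int_planes w (TU Γ) hε a b h1
  let v : Fin (Fintype.card μ) ≃ μ := (Fintype.equivFin μ).symm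
  refine ⟨Fintype.card μ, (Equiv.sumCongr v v).trans e, a' ∘ v, b' ∘ v, fun k => h3 _,
    fun hh k => h4 hh _, ?_⟩
  have h6 := (GIso.trans w (TU Γ) h2 h5).reindex w (TU Γ) (Equiv.sumCongr v v)
  have h7 : (gpf a' b' : Matrix (μ ⊕ μ) (μ ⊕ μ) (MonoidAlgebra ℤ Γ)).submatrix
      (Equiv.sumCongr v v) (Equiv.sumCongr v v) = gpf (a' ∘ v) (b' ∘ v) := by
    ext1 x y
    rcases x with x | x <;> rcases y with y | y <;>
      simp [gpf, Matrix.one_apply, Matrix.diagonal_apply]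
  rw [h7] at h6
  exact h6

/-- **Integral forms near the critical norm.** -/
theorem int_reduction (w : Γ →* ℤˣ) {c : ℝ} (hc : 0 < c) (hc2 : 9 / 2 < c ^ 2)
    (ψ : Matrix κ κ (MonoidAlgebra ℤ Γ)) :
    ∃ (m : ℕ) (φ : Matrix (κ ⊕ (Fin m ⊕ Fin m)) (κ ⊕ (Fin m ⊕ Fin m)) (MonoidAlgebra ℤ Γ)),
      ∀ ε : ℤ, (ε = 1 ∨ ε = -1) → GIso w (TU Γ) ε (addHyp (Fin m) ψ) φ ∧
        CS {1, -1} (glam w ε φ) ∧ NormLE (szm Int.natAbs rfl (glam w ε φ)) c := by
  obtain ⟨m, P, h1, h2, h3, h4⟩ := sform_reduction_fin w gens_int ψ c hc hc2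
  refine ⟨m, P.val * addHyp (Fin m) ψ * sadj w P.val, fun ε hε => ?_⟩
  have hεε : ε * ε = 1 := by rcases hε with rfl | rfl <;> norm_num
  have h5 := CS_glam w gens_int.neg star_int h2 h3 hεε
  refine ⟨⟨P, 0, TT_of_mem _ _ (commutator_le_HH _ h1), ?_⟩, h5, ?_⟩
  · rw [sadj_zero, smul_zero, sub_zero, add_zero]
  · rw [szm_eq_pat _ h5, pat_glam w h2 hεε]
    exact h4

/-- **Integral forms near the hyperbolic form.** -/
theorem int_dist (w : Γ →* ℤˣ) (ψ : Matrix (κ ⊕ κ) (κ ⊕ κ) (MonoidAlgebra ℤ Γ)) :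
    ∃ (m : ℕ) (φ : Matrix ((κ ⊕ κ) ⊕ (Fin m ⊕ Fin m)) ((κ ⊕ κ) ⊕ (Fin m ⊕ Fin m))
        (MonoidAlgebra ℤ Γ)),
      ∀ ε : ℤ, (ε = 1 ∨ ε = -1) → GIso w (TU Γ) ε (addHyp (Fin m) ψ) φ ∧
        CS {1, -1} (glam w ε φ - glam w ε (addHyp (Fin m) (hyp (MonoidAlgebra ℤ Γ) κ))) ∧
        NormLE (szm Int.natAbs rfl
          (glam w ε φ - glam w ε (addHyp (Fin m) (hyp (MonoidAlgebra ℤ Γ) κ)))) (Real.sqrt 2) := by
  obtain ⟨m, P, h1, h2, h3, h4⟩ := sdist_form_fin w gens_int ψ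
  refine ⟨m, P.val * addHyp (Fin m) ψ * sadj w P.val, fun ε hε => ?_⟩
  have hεε : ε * ε = 1 := by rcases hε with rfl | rfl <;> norm_num
  have h5 := CS_glam w gens_int.neg star_int h2 h3 hεε
  have h6 : glam w ε (P.val * addHyp (Fin m) ψ * sadj w P.val
      - addHyp (Fin m) (hyp (MonoidAlgebra ℤ Γ) κ))
      = glam w ε (P.val * addHyp (Fin m) ψ * sadj w P.val)
        - glam w ε (addHyp (Fin m) (hyp (MonoidAlgebra ℤ Γ) κ)) := by
    unfold glam
    rw [sadj_sub, smul_sub]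
    abel
  rw [h6] at h5
  refine ⟨⟨P, 0, TT_of_mem _ _ (commutator_le_HH _ h1), ?_⟩, h5, ?_⟩
  · rw [sadj_zero, smul_zero, sub_zero, add_zero]
  · rw [szm_eq_pat _ h5, ← h6, pat_glam w h2 hεε]
    exact h4

end Pool.Agent.N510.LT
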