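import Pool.Agent.N510.LT.Schur
import Pool.Agent.TH6.PF.LBelow

set_option autoImplicit false
set_option linter.unusedSectionVars false

/-! Forms near the hyperbolic form, over group rings with a twisted involution. -/

namespace Pool.Agent.N510.LT

open Matrix TH57.Thr TH6.LF TH6.PF Pool.Agent.Y35.KC.TTm Pool.Agent.R719.DD

section ring

variable {R : Type} [Ring R] [StarRing R] {Γ : Type} [Group Γ] {κ : Type} [Fintype κ]
  [DecidableEq κ]

theorem ghyp_ll (i j : κ) : hyp (MonoidAlgebra R Γ) κ (Sum.inl i) (Sum.inl j) = 0 := rfl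
theorem ghyp_lr (i j : κ) : hyp (MonoidAlgebra R Γ) κ (Sum.inl i) (Sum.inr j)
    = if i = j then 1 else 0 := Matrix.one_apply
theorem ghyp_rl (i j : κ) : hyp (MonoidAlgebra R Γ) κ (Sum.inr i) (Sum.inl j) = 0 := rfl
theorem ghyp_rr (i j : κ) : hyp (MonoidAlgebra R Γ) κ (Sum.inr i) (Sum.inr j) = 0 := rfl

theorem ghyp_ne (i j : κ ⊕ κ) (h : j ≠ i.swap) : hyp (MonoidAlgebra R Γ) κ i j = 0 := by
  rcases i with i | i <;> rcases j with j | j
  · rfl
  · have h1 : i ≠ j := fun h2 => h (by rw [h2]; rfl)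
    rw [ghyp_lr, if_neg h1]
  · rfl
  · rfl

theorem glam_hyp_ne (w : Γ →* ℤˣ) (ε : ℤ) (i j : κ ⊕ κ) (h : j ≠ i.swap) :
    glam w ε (hyp (MonoidAlgebra R Γ) κ) i j = 0 := by
  have h' : i ≠ j.swap := fun h2 => h (by rw [h2, Sum.swap_swap])
  rw [glam_apply, ghyp_ne i j h, ghyp_ne j i h', sbar_zero, smul_zero, add_zero]

end ring

section int

variable {Γ : Type} [Group Γ] {κ : Type} [Fintype κ] [DecidableEq κ]

theorem glam_hyp_swap (w : Γ →* ℤˣ) (ε : ℤ) (i : κ ⊕ κ) :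
    glam w ε (hyp (MonoidAlgebra ℤ Γ) κ) i i.swap
      = MonoidAlgebra.single 1 (Sum.elim (fun _ => 1) (fun _ => ε) i) := by
  rw [glam_apply]
  rcases i with i | i
  · change hyp (MonoidAlgebra ℤ Γ) κ (Sum.inl i) (Sum.inr i)
      + ε • sbar w (hyp (MonoidAlgebra ℤ Γ) κ (Sum.inr i) (Sum.inl i))
      = MonoidAlgebra.single 1 1
    rw [ghyp_lr, ghyp_rl, if_pos rfl, sbar_zero, smul_zero, add_zero, MonoidAlgebra.one_def]
  · change hyp (MonoidAlgebra ℤ Γ) κ (Sum.inr i) (Sum.inl i)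
      + ε • sbar w (hyp (MonoidAlgebra ℤ Γ) κ (Sum.inl i) (Sum.inr i))
      = MonoidAlgebra.single 1 ε
    rw [ghyp_lr, ghyp_rl, if_pos rfl, sbar_one, zero_add, MonoidAlgebra.one_def]
    ext g
    rw [gcoeff_zs, MonoidAlgebra.coeff_single, MonoidAlgebra.coeff_single]
    classical
    rw [Finsupp.single_apply, Finsupp.single_apply]
    split_ifs <;> simp

theorem l1_szm (x : MonoidAlgebra ℤ Γ) (h0 : Int.natAbs 0 = 0) : l1 (sz Int.natAbs h0 x) = l1 x :=
  l1_sz _ _ _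

/-- **Forms near the hyperbolic form.** -/
theorem int_near (w : Γ →* ℤˣ) (htf : ∀ g : Γ, g * g = 1 → g = 1) {ε : ℤ} (hε : ε = 1 ∨ ε = -1)
    {c : ℝ} (hc2 : c ^ 2 < 2) (ψ : Matrix (κ ⊕ κ) (κ ⊕ κ) (MonoidAlgebra ℤ Γ))
    (hu : IsUnit (glam w ε ψ))
    (hN : NormLE (glam w ε ψ - glam w ε (hyp (MonoidAlgebra ℤ Γ) κ)) c) :
    ∃ (m : ℕ) (e : Fin m ⊕ Fin m ≃ κ ⊕ κ) (a b : Fin m → ℤ),
      (∀ k, (a k = 0 ∨ a k = 1) ∧ (b k = 0 ∨ b k = 1)) ∧
      (ε = 1 → ∀ k, a k = 0 ∧ b k = 0) ∧ GIso w (TU Γ) ε (ψ.submatrix e e) (gpf a b) := by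
  have hεε : ε * ε = 1 := by rcases hε with rfl | rfl <;> norm_num
  have hrow := rowOne_of_norm _ c hc2 hN
  set D := glam w ε ψ - glam w ε (hyp (MonoidAlgebra ℤ Γ) κ) with hD
  have h1 : ∀ i, ∑ j, l1 (szm Int.natAbs rfl (glam w ε ψ) i j) ≤ 2 := by
    intro i
    have e1 : ∀ j, l1 (szm Int.natAbs rfl (glam w ε ψ) i j) ≤
        (if j = i.swap then 1 else 0) + l1 (D i j) := by
      intro j
      have e2 : l1 (szm Int.natAbs rfl (glam w ε ψ) i j) = l1 (glam w ε ψ i j) := l1_szm _ rfl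
      have e3 : glam w ε ψ i j = glam w ε (hyp (MonoidAlgebra ℤ Γ) κ) i j + D i j := by
        rw [hD, Matrix.sub_apply]; abel
      rw [e2, e3]
      refine (l1_add_le _ _).trans (Nat.add_le_add_right ?_ _)
      by_cases hj : j = i.swap
      · rw [if_pos hj, hj, glam_hyp_swap, l1_single]
        rcases i with i | i
        · exact le_rfl
        · rcases hε with h | h
          · subst h; exact le_rfl
          · subst h; exact le_rfl
      · rw [if_neg hj, glam_hyp_ne w ε i j hj]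
        exact ((l1_zero_iff _).2 rfl).le
    refine (Finset.sum_le_sum fun j _ => e1 j).trans ?_
    rw [Finset.sum_add_distrib, Finset.sum_ite_eq', if_pos (Finset.mem_univ _)]
    have e2 := rowOne_sum hrow i
    omega
  have hs : ∀ i j, l1 (szm Int.natAbs rfl (glam w ε ψ) i j)
      = l1 (szm Int.natAbs rfl (glam w ε ψ) j i) := by
    intro i j
    have e1 : szm Int.natAbs rfl (glam w ε ψ) i j
        = bar (szm Int.natAbs rfl (glam w ε ψ) j i) := by
      ext g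
      rw [coeff_bar]
      exact sz_symm isSize_int hεε ψ i j g
    rw [e1, l1_bar]
  have hN2 : NormLE (szm Int.natAbs rfl (glam w ε ψ)) 2 := by
    have e1 := schur (szm Int.natAbs rfl (glam w ε ψ)) 2 two_pos h1 (fun j => by
      have e2 := h1 j
      simp only [hs j] at e2
      exact e2)
    exact_mod_cast e1
  exact int_main w htf hε two_pos (by norm_num) ψ hu hN2

end int

end Pool.Agent.N510.LT
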