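import Pool.Agent.R719.LF.Shp
import Pool.Agent.TH57.Thr.Dist2
import Pool.Agent.TH6.LF.DistF

set_option autoImplicit false
set_option linter.unusedSectionVars false

/-! Quadratic forms at distance less than `√2` from the hyperbolic form are dominant. -/

namespace Pool.Agent.N510.LT

open Matrix TH57.Thr TH6.LF TH6.CX Pool.Agent.Y75.Th Pool.Agent.Y35.KC.TTm Pool.Agent.R719.DD Pool.Agent.R719.LF

variable {Γ : Type} [Group Γ] {κ : Type} [Fintype κ] [DecidableEq κ]

theorem hyp_ll (i j : κ) : TH6.LF.hyp (MonoidAlgebra ℤ Γ) κ (Sum.inl i) (Sum.inl j) = 0 := rfl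
theorem hyp_lr (i j : κ) : TH6.LF.hyp (MonoidAlgebra ℤ Γ) κ (Sum.inl i) (Sum.inr j)
    = if i = j then 1 else 0 := Matrix.one_apply
theorem hyp_rl (i j : κ) : TH6.LF.hyp (MonoidAlgebra ℤ Γ) κ (Sum.inr i) (Sum.inl j) = 0 := rfl
theorem hyp_rr (i j : κ) : TH6.LF.hyp (MonoidAlgebra ℤ Γ) κ (Sum.inr i) (Sum.inr j) = 0 := rfl

theorem lam_hyp_ne (ε : ℤ) (i j : κ ⊕ κ) (h : j ≠ i.swap) :
    lam ε (TH6.LF.hyp (MonoidAlgebra ℤ Γ) κ) i j = 0 := by
  rw [lam_apply]
  rcases i with i | i <;> rcases j with j | j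
  · rw [hyp_ll, hyp_ll, bar_zero, smul_zero, add_zero]
  · have h1 : i ≠ j := fun h2 => h (by rw [h2]; rfl)
    rw [hyp_lr, hyp_rl, if_neg h1, bar_zero, smul_zero, add_zero]
  · have h1 : j ≠ i := fun h2 => h (by rw [h2]; rfl)
    rw [hyp_rl, hyp_lr, if_neg h1, bar_zero, smul_zero, add_zero]
  · rw [hyp_rr, hyp_rr, bar_zero, smul_zero, add_zero]

theorem lam_hyp_swap (ε : ℤ) (i : κ ⊕ κ) :
    lam ε (TH6.LF.hyp (MonoidAlgebra ℤ Γ) κ) i i.swap
      = MonoidAlgebra.single 1 (Sum.elim (fun _ => 1) (fun _ => ε) i) := by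
  rw [lam_apply]
  rcases i with i | i
  · change TH6.LF.hyp (MonoidAlgebra ℤ Γ) κ (Sum.inl i) (Sum.inr i)
      + ε • bar (TH6.LF.hyp (MonoidAlgebra ℤ Γ) κ (Sum.inr i) (Sum.inl i))
      = MonoidAlgebra.single 1 1
    rw [hyp_lr, hyp_rl, if_pos rfl, bar_zero, smul_zero, add_zero, MonoidAlgebra.one_def]
  · change TH6.LF.hyp (MonoidAlgebra ℤ Γ) κ (Sum.inr i) (Sum.inl i)
      + ε • bar (TH6.LF.hyp (MonoidAlgebra ℤ Γ) κ (Sum.inl i) (Sum.inr i))
      = MonoidAlgebra.single 1 ε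
    rw [hyp_lr, hyp_rl, if_pos rfl, bar_one, zero_add, MonoidAlgebra.one_def]
    ext g
    rw [coeff_zs, MonoidAlgebra.coeff_single, MonoidAlgebra.coeff_single]
    classical
    rw [Finsupp.single_apply, Finsupp.single_apply]
    split_ifs <;> simp

theorem lam_hyp (ε : ℤ) (i j : κ ⊕ κ) : lam ε (TH6.LF.hyp (MonoidAlgebra ℤ Γ) κ) i j
    = if j = i.swap then MonoidAlgebra.single 1 (Sum.elim (fun _ => 1) (fun _ => ε) i) else 0 := by
  by_cases h : j = i.swap
  · rw [if_pos h, h]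
    exact lam_hyp_swap ε i
  · rw [if_neg h]
    exact lam_hyp_ne ε i j h

theorem dom_of_near {ε : ℤ} (hε : ε = 1 ∨ ε = -1) {c : ℝ} (hc : c ^ 2 < 2)
    (ψ : Matrix (κ ⊕ κ) (κ ⊕ κ) (MonoidAlgebra ℤ Γ))
    (hN : NormLE (lam ε ψ - lam ε (TH6.LF.hyp (MonoidAlgebra ℤ Γ) κ)) c) :
    DomF ε ψ Sum.swap (fun _ => 1) (Sum.elim (fun _ => 1) (fun _ => ε)) := by
  classical
  have hεε : ε * ε = 1 := by rcases hε with rfl | rfl <;> norm_num
  set s : κ ⊕ κ → ℤ := Sum.elim (fun _ => 1) (fun _ => ε) with hs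
  have hss : ∀ i, s i * s i = 1 := by
    rintro (i | i)
    · exact one_mul 1
    · exact hεε
  have hsa : ∀ i, |s i| = 1 := by
    intro i
    rcases Int.isUnit_iff.1 (IsUnit.of_mul_eq_one _ (hss i)) with h | h <;> rw [h] <;> rfl
  set D := lam ε ψ - lam ε (TH6.LF.hyp (MonoidAlgebra ℤ Γ) κ) with hD
  have hrow := rowOne_of_norm D c hc hN
  have hl : ∀ i j, lam ε ψ i j = (if j = i.swap then MonoidAlgebra.single 1 (s i) else 0)
      + D i j := by
    intro i j
    rw [hD, Matrix.sub_apply, lam_hyp]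
    abel
  refine ⟨fun i => Sum.swap_swap i, fun _ => inv_one.symm, hss, ?_, fun i => ?_⟩
  · rintro (i | i)
    · exact (mul_one ε).symm
    · exact hεε.symm
  · have hco : (lam ε ψ i i.swap).coeff 1 = s i + (D i i.swap).coeff 1 := by
      rw [hl, if_pos rfl, MonoidAlgebra.coeff_add, Finsupp.add_apply, MonoidAlgebra.coeff_single,
        Finsupp.single_eq_same]
    have hsum1 : ∑ j, (l1 (if j = i.swap then (MonoidAlgebra.single 1 (s i) : MonoidAlgebra ℤ Γ)
        else 0) : ℤ) = 1 := by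
      rw [Finset.sum_eq_single i.swap]
      · rw [if_pos rfl, l1_single, Int.natCast_natAbs, hsa]
      · intro j _ hj
        rw [if_neg hj]
        exact_mod_cast (l1_zero_iff _).2 rfl
      · intro h; exact absurd (Finset.mem_univ _) h
    have hle : ∑ j, (l1 (lam ε ψ i j) : ℤ) ≤ 1 + ∑ j, (l1 (D i j) : ℤ) := by
      rw [← hsum1, ← Finset.sum_add_distrib]
      refine Finset.sum_le_sum fun j _ => ?_
      rw [hl]
      exact_mod_cast l1_add_le _ _
    rw [hco, mul_add, hss]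
    rcases hrow i with h0 | ⟨j0, g, δ, hδ, h1, h2⟩
    · have h3 : ∑ j, (l1 (D i j) : ℤ) = 0 := Finset.sum_eq_zero fun j _ => by
        rw [h0]; exact_mod_cast (l1_zero_iff _).2 rfl
      rw [h0 i.swap]
      have h4 : ((0 : MonoidAlgebra ℤ Γ)).coeff 1 = 0 := rfl
      rw [h4, mul_zero]
      linarith
    · have hδ1 : (δ.natAbs : ℤ) = 1 := by rcases hδ with rfl | rfl <;> rfl
      have h3 : ∑ j, (l1 (D i j) : ℤ) = 1 := by
        rw [Finset.sum_eq_single j0]
        · rw [h1, l1_single, hδ1]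
        · intro j _ hj
          rw [h2 j hj]; exact_mod_cast (l1_zero_iff _).2 rfl
        · intro h; exact absurd (Finset.mem_univ _) h
      by_cases hjs : i.swap = j0
      · by_cases hg : g = 1
        · subst hg
          have h4 : ∑ j, (l1 (lam ε ψ i j) : ℤ) = |s i + δ| := by
            rw [Finset.sum_eq_single i.swap]
            · rw [hl, if_pos rfl, hjs, h1, ← MonoidAlgebra.single_add, l1_single,
                Int.natCast_natAbs]
            · intro j _ hj
              rw [hl, if_neg hj, h2 j (by rw [← hjs]; exact hj), add_zero]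
              exact_mod_cast (l1_zero_iff _).2 rfl
            · intro h; exact absurd (Finset.mem_univ _) h
          rw [h4, hjs, h1]
          have h5 : (MonoidAlgebra.single (1 : Γ) δ : MonoidAlgebra ℤ Γ).coeff 1 = δ := by simp
          rw [h5]
          rcases Int.isUnit_iff.1 (IsUnit.of_mul_eq_one _ (hss i)) with h6 | h6 <;>
            rcases hδ with rfl | rfl <;> rw [h6] <;> norm_num
        · rw [hjs, h1]
          have h5 : (MonoidAlgebra.single g δ : MonoidAlgebra ℤ Γ).coeff 1 = 0 := by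
            simp [hg]
          rw [h5, mul_zero]
          linarith
      · rw [h2 _ hjs]
        have h4 : ((0 : MonoidAlgebra ℤ Γ)).coeff 1 = 0 := rfl
        rw [h4, mul_zero]
        linarith

end Pool.Agent.N510.LT
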