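import Pool.Agent.N510.LT.GMain
import Pool.Agent.N510.LT.UForm

set_option autoImplicit false
set_option linter.unusedSectionVars false

/-! The critical norm for quadratic forms over the group ring of a ring with involution. -/

namespace Pool.Agent.N510.LT

open Matrix TH57.Thr TH6.LF TH6.PF

variable {R : Type} [Ring R] [StarRing R] {Γ : Type} [Group Γ] {κ μ : Type} [Fintype κ]
  [DecidableEq κ] [Fintype μ] [DecidableEq μ]

open Classical in
/-- the size function of a ring with a homomorphism to the field of two elements -/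
noncomputable def nuf (f : R →+* ZMod 2) (r : R) : ℕ :=
  if r = 0 then 0 else if IsUnit r then 1 else if f r = 0 then 2 else 3

theorem zmod_two (x : ZMod 2) : x = 0 ∨ x = 1 := by
  revert x; decide

theorem isSize_nuf (f : R →+* ZMod 2) (hf : ∀ r, f (star r) = f r) : IsSize f (nuf f) where
  zero := if_pos rfl
  pos r h := by
    unfold nuf at h
    split_ifs at h with h1 h2 h3
    exact h1
  neg r := by
    have h1 : f (-r) = f r := by rw [map_neg]; exact CharTwo.neg_eq _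
    have h2 : -r = 0 ↔ r = 0 := neg_eq_zero
    have h3 : IsUnit (-r) ↔ IsUnit r := IsUnit.neg_iff r
    unfold nuf
    rw [h1]
    by_cases k1 : r = 0
    · rw [if_pos k1, if_pos (h2.2 k1)]
    · rw [if_neg k1, if_neg (fun h => k1 (h2.1 h))]
      by_cases k2 : IsUnit r
      · rw [if_pos k2, if_pos (h3.2 k2)]
      · rw [if_neg k2, if_neg (fun h => k2 (h3.1 h))]
  star r := by
    have h2 : star r = 0 ↔ r = 0 := star_eq_zero
    have h3 : IsUnit (star r) ↔ IsUnit r := isUnit_star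
    unfold nuf
    rw [hf]
    by_cases k1 : r = 0
    · rw [if_pos k1, if_pos (h2.2 k1)]
    · rw [if_neg k1, if_neg (fun h => k1 (h2.1 h))]
      by_cases k2 : IsUnit r
      · rw [if_pos k2, if_pos (h3.2 k2)]
      · rw [if_neg k2, if_neg (fun h => k2 (h3.1 h))]
  par r := by
    unfold nuf
    split_ifs with h1 h2 h3
    · rw [h1, map_zero]; rfl
    · have h4 : IsUnit (f r) := h2.map f
      rcases zmod_two (f r) with h5 | h5
      · rw [h5] at h4; exact absurd h4 (by simp)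
      · rw [h5]; rfl
    · rw [h3]; rfl
    · rcases zmod_two (f r) with h5 | h5
      · exact absurd h5 h3
      · rw [h5]; rfl
  unit r h := by
    unfold nuf at h
    split_ifs at h with h1 h2 h3
    · exact h2
    · exact absurd h (by norm_num)
    · exact absurd h (by norm_num)

theorem szm_nuf (f : R →+* ZMod 2) (h0 : nuf f 0 = 0) (A : Matrix κ μ (MonoidAlgebra R Γ))
    (hA : CS {r : R | IsUnit r} A) : szm (nuf f) h0 A = pat A := by
  ext i j g
  rw [szm, Matrix.map_apply, coeff_sz, coeff_pat]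
  by_cases h : (A i j).coeff g = 0
  · rw [h, ind_zero, h0]; rfl
  · rw [ind_of_ne h]
    have h1 : IsUnit ((A i j).coeff g) := hA i j g h
    have h2 : nuf f ((A i j).coeff g) = 1 := by
      unfold nuf
      rw [if_neg h, if_pos h1]
    rw [h2]; rfl

/-- **Nonsingular forms with unit coefficients below the critical norm.** -/
theorem ring_main (f : R →+* ZMod 2) (hf : ∀ r, f (star r) = f r) (w : Γ →* ℤˣ)
    (htf : ∀ g : Γ, g * g = 1 → g = 1) {ε : ℤ} (hε : ε * ε = 1)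
    {c : ℝ} (hc : 0 < c) (hc2 : c ^ 2 < 9 / 2) (ψ : Matrix κ κ (MonoidAlgebra R Γ))
    (hu : IsUnit (glam w ε ψ)) (hA : CS {r : R | IsUnit r} (glam w ε ψ))
    (hN : NormLE (pat (glam w ε ψ)) c) :
    ∃ (m : ℕ) (e : Fin m ⊕ Fin m ≃ κ) (a b : Fin m → R),
      (∀ k, a k + ε • star (a k) = 0 ∧ b k + ε • star (b k) = 0) ∧
      GIso w (⊤ : Subgroup (MonoidAlgebra R Γ)ˣ) ε (ψ.submatrix e e) (gpf a b) := by
  have h0 := isSize_nuf f hf
  rw [← szm_nuf f h0.zero _ hA] at hN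
  obtain ⟨μ, i1, i2, e, a, b, h1, h2⟩ := gmain (w := w) (U := ⊤) h0
    (fun _ _ _ _ => Subgroup.mem_top _) htf hε hc hc2 _ κ rfl ψ hu hN
  let v : Fin (Fintype.card μ) ≃ μ := (Fintype.equivFin μ).symm
  refine ⟨Fintype.card μ, (Equiv.sumCongr v v).trans e, a ∘ v, b ∘ v, fun k => h1 _, ?_⟩
  have h6 := h2.reindex w ⊤ (Equiv.sumCongr v v)
  have h7 : (gpf a b : Matrix (μ ⊕ μ) (μ ⊕ μ) (MonoidAlgebra R Γ)).submatrix
      (Equiv.sumCongr v v) (Equiv.sumCongr v v) = gpf (a ∘ v) (b ∘ v) := by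
    ext1 x y
    rcases x with x | x <;> rcases y with y | y <;>
      simp [gpf, Matrix.one_apply, Matrix.diagonal_apply]
  rw [h7] at h6
  exact h6

theorem gens_units [Nontrivial R] (h : AddSubgroup.closure {r : R | IsUnit r} = ⊤) :
    Gens {r : R | IsUnit r} where
  one := isUnit_one
  neg := fun _ hs => hs.neg
  gen := h

theorem gens_univ : Gens (Set.univ : Set R) where
  one := trivial
  neg := fun _ _ => trivial
  gen := AddSubgroup.closure_univ

/-- **Forms near the critical norm.** -/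
theorem ring_reduction [Nontrivial R] {S : Set R} (hS : Gens S) (hst : ∀ s ∈ S, star s ∈ S)
    (w : Γ →* ℤˣ) {c : ℝ} (hc : 0 < c) (hc2 : 9 / 2 < c ^ 2)
    (ψ : Matrix κ κ (MonoidAlgebra R Γ)) :
    ∃ (m : ℕ) (φ : Matrix (κ ⊕ (Fin m ⊕ Fin m)) (κ ⊕ (Fin m ⊕ Fin m)) (MonoidAlgebra R Γ)),
      CS S φ ∧ NormLE (symPat φ) c ∧
      ∀ ε : ℤ, (ε = 1 ∨ ε = -1) → GIso w ⊥ ε (addHyp (Fin m) ψ) φ ∧
        CS S (glam w ε φ) ∧ NormLE (pat (glam w ε φ)) c := by
  obtain ⟨m, P, h1, h2, h3, h4⟩ := sform_reduction_fin w hS ψ c hc hc2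
  refine ⟨m, P.val * addHyp (Fin m) ψ * sadj w P.val, h3, h4, fun ε hε => ?_⟩
  have hεε : ε * ε = 1 := by rcases hε with rfl | rfl <;> norm_num
  have h5 := CS_glam w hS.neg hst h2 h3 hεε
  refine ⟨⟨P, 0, TT_of_mem _ _ (commutator_le_HH _ h1), ?_⟩, h5, ?_⟩
  · rw [sadj_zero, smul_zero, sub_zero, add_zero]
  · rw [pat_glam w h2 hεε]
    exact h4

/-- **Forms near the hyperbolic form.** -/
theorem ring_dist [Nontrivial R] {S : Set R} (hS : Gens S)
    (w : Γ →* ℤˣ) (ψ : Matrix (κ ⊕ κ) (κ ⊕ κ) (MonoidAlgebra R Γ)) :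
    ∃ (m : ℕ) (φ : Matrix ((κ ⊕ κ) ⊕ (Fin m ⊕ Fin m)) ((κ ⊕ κ) ⊕ (Fin m ⊕ Fin m))
        (MonoidAlgebra R Γ)),
      CS S (φ - addHyp (Fin m) (hyp (MonoidAlgebra R Γ) κ)) ∧
      NormLE (symPat (φ - addHyp (Fin m) (hyp (MonoidAlgebra R Γ) κ))) (Real.sqrt 2) ∧
      ∀ ε : ℤ, (ε = 1 ∨ ε = -1) → GIso w ⊥ ε (addHyp (Fin m) ψ) φ := by
  obtain ⟨m, P, h1, h2, h3, h4⟩ := sdist_form_fin w hS ψ
  refine ⟨m, P.val * addHyp (Fin m) ψ * sadj w P.val, h3, h4, fun ε hε => ?_⟩
  refine ⟨P, 0, TT_of_mem _ _ (commutator_le_HH _ h1), ?_⟩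
  rw [sadj_zero, smul_zero, sub_zero, add_zero]

end Pool.Agent.N510.LT
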