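import Pool.Agent.N510.LT.RingF
import Pool.Agent.N510.LT.IntF
import Pool.Agent.TH57.Thr.Dist2

set_option autoImplicit false
set_option linter.unusedSectionVars false

/-! The Schur test, and forms near the hyperbolic form. -/

namespace Pool.Agent.N510.LT

open Matrix TH57.Thr TH6.LF TH6.PF Pool.Agent.Y35.KC.TTm Pool.Agent.R719.DD

section schur

variable {Γ : Type} [Group Γ] {κ : Type} [Fintype κ] [DecidableEq κ]

/-- the inner product in one coordinate -/
theorem coeff_mul_bar (x y : MonoidAlgebra ℝ Γ) : 2 * |(x * bar y).coeff 1| ≤ n1 x + n1 y := by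
  have h := two_ip_le (ι := Unit) (fun _ => x) (fun _ => y) 1 one_pos
  rw [inv_one, one_mul, one_mul, normSq_eq, normSq_eq] at h
  simpa [ip] using h

theorem coeff_mul_single_bar (x y : MonoidAlgebra ℝ Γ) (g : Γ) (r : ℝ) :
    2 * |(x * MonoidAlgebra.single g r * bar y).coeff 1| ≤ |r| * (n1 x + n1 y) := by
  have h1 : x * MonoidAlgebra.single g r = r • (x * MonoidAlgebra.single g 1) := by
    rw [← mul_smul_comm]
    congr 1
    rw [MonoidAlgebra.smul_single, smul_eq_mul, mul_one]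
  rw [h1, smul_mul_assoc]
  have h2 : (r • (x * MonoidAlgebra.single g 1 * bar y)).coeff 1
      = r * (x * MonoidAlgebra.single g 1 * bar y).coeff 1 := rfl
  rw [h2, abs_mul]
  have h3 := coeff_mul_bar (x * MonoidAlgebra.single g 1) y
  rw [n1_mul_single] at h3
  have h4 := mul_le_mul_of_nonneg_left h3 (abs_nonneg r)
  linarith

theorem entry_bound (x y : MonoidAlgebra ℝ Γ) (a : MonoidAlgebra ℤ Γ) :
    2 * |(x * (MonoidAlgebra.mapRingHom Γ (Int.castRingHom ℝ) a) * bar y).coeff 1|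
      ≤ (l1 a : ℝ) * (n1 x + n1 y) := by
  have h1 : MonoidAlgebra.mapRingHom Γ (Int.castRingHom ℝ) a
      = ∑ g ∈ a.coeff.support, MonoidAlgebra.single g ((a.coeff g : ℤ) : ℝ) := by
    conv_lhs => rw [← MonoidAlgebra.sum_coeff_single a]
    rw [Finsupp.sum, map_sum]
    exact Finset.sum_congr rfl fun g _ => by rw [MonoidAlgebra.mapRingHom_single]; rfl
  rw [h1, Finset.mul_sum, Finset.sum_mul, MonoidAlgebra.coeff_sum, Finsupp.finsetSum_apply]
  have h2 : |∑ g ∈ a.coeff.support,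
      (x * MonoidAlgebra.single g ((a.coeff g : ℤ) : ℝ) * bar y).coeff 1|
      ≤ ∑ g ∈ a.coeff.support,
        |(x * MonoidAlgebra.single g ((a.coeff g : ℤ) : ℝ) * bar y).coeff 1| :=
    Finset.abs_sum_le_sum_abs _ _
  have h3 : ∑ g ∈ a.coeff.support,
      2 * |(x * MonoidAlgebra.single g ((a.coeff g : ℤ) : ℝ) * bar y).coeff 1|
      ≤ ∑ g ∈ a.coeff.support, |((a.coeff g : ℤ) : ℝ)| * (n1 x + n1 y) :=
    Finset.sum_le_sum fun g _ => coeff_mul_single_bar x y g _
  rw [← Finset.mul_sum, ← Finset.sum_mul] at h3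
  have h4 : ∑ g ∈ a.coeff.support, |((a.coeff g : ℤ) : ℝ)| = (l1 a : ℝ) := by
    unfold l1
    push_cast
    exact Finset.sum_congr rfl fun g _ => by
      rw [← Int.cast_abs, Int.abs_eq_natAbs, Int.cast_natCast]
  rw [h4] at h3
  linarith

/-- the Schur test -/
theorem schur (A : Matrix κ κ (MonoidAlgebra ℤ Γ)) (N : ℕ) (hN : 0 < N)
    (h1 : ∀ i, ∑ j, l1 (A i j) ≤ N) (h2 : ∀ j, ∑ i, l1 (A i j) ≤ N) : NormLE A N := by
  refine normLE_of_ip A N (by exact_mod_cast hN) fun x y => ?_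
  have e1 : ip (x ᵥ* toReal A) y = ∑ j, ∑ i, (x i * toReal A i j * bar (y j)).coeff 1 := by
    unfold ip
    rw [MonoidAlgebra.coeff_sum, Finsupp.finsetSum_apply]
    refine Finset.sum_congr rfl fun j _ => ?_
    rw [Matrix.vecMul, dotProduct, Finset.sum_mul, MonoidAlgebra.coeff_sum,
      Finsupp.finsetSum_apply]
  have e2 : 2 * |ip (x ᵥ* toReal A) y|
      ≤ ∑ j, ∑ i, (l1 (A i j) : ℝ) * (n1 (x i) + n1 (y j)) := by
    rw [e1]
    have h3 : |∑ j, ∑ i, (x i * toReal A i j * bar (y j)).coeff 1|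
        ≤ ∑ j, ∑ i, |(x i * toReal A i j * bar (y j)).coeff 1| :=
      (Finset.abs_sum_le_sum_abs _ _).trans
        (Finset.sum_le_sum fun j _ => Finset.abs_sum_le_sum_abs _ _)
    have h4 : ∑ j, ∑ i, 2 * |(x i * toReal A i j * bar (y j)).coeff 1|
        ≤ ∑ j, ∑ i, (l1 (A i j) : ℝ) * (n1 (x i) + n1 (y j)) :=
      Finset.sum_le_sum fun j _ => Finset.sum_le_sum fun i _ => entry_bound _ _ _
    simp only [← Finset.mul_sum] at h4
    linarith
  refine e2.trans ?_
  simp only [mul_add, Finset.sum_add_distrib]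
  rw [normSq_eq, normSq_eq, Finset.mul_sum, Finset.mul_sum]
  refine add_le_add ?_ ?_
  · rw [Finset.sum_comm]
    refine Finset.sum_le_sum fun i _ => ?_
    rw [← Finset.sum_mul]
    refine mul_le_mul_of_nonneg_right ?_ (n1_nonneg _)
    exact_mod_cast h1 i
  · refine Finset.sum_le_sum fun j _ => ?_
    rw [← Finset.sum_mul]
    refine mul_le_mul_of_nonneg_right ?_ (n1_nonneg _)
    exact_mod_cast h2 j

theorem rowOne_sum {A : Matrix κ κ (MonoidAlgebra ℤ Γ)} (h : RowOne A) (i : κ) :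
    ∑ j, l1 (A i j) ≤ 1 := by
  rcases h i with h0 | ⟨j0, g, δ, hδ, h1, h2⟩
  · rw [Finset.sum_eq_zero fun j _ => by rw [h0]; exact (l1_zero_iff _).2 rfl]
    exact Nat.zero_le _
  · rw [Finset.sum_eq_single j0]
    · rw [h1, l1_single]
      rcases hδ with rfl | rfl <;> exact le_rfl
    · intro j _ hj
      rw [h2 j hj]; exact (l1_zero_iff _).2 rfl
    · intro h; exact absurd (Finset.mem_univ _) h

end schur

end Pool.Agent.N510.LT
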