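import Pool.Agent.TH6.PF.SBar

set_option autoImplicit false
set_option linter.unusedSectionVars false

/-! The norm of a symmetric non-negative matrix over an integral group ring all whose rows have mass
at least two and one of whose rows has mass at least three is at least `3 / √2`. -/

namespace Pool.Agent.N510.LT

open Matrix TH57.Thr TH6.LF

variable {Γ : Type} [Group Γ] {κ : Type} [Fintype κ] [DecidableEq κ]

/-- the infinite integral matrix of `A` -/
def bb (A : Matrix κ κ (MonoidAlgebra ℤ Γ)) (u v : κ × Γ) : ℤ :=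
  (A u.1 v.1).coeff (u.2⁻¹ * v.2)

/-- the standard vectors -/
noncomputable def av (u : κ × Γ) : κ → MonoidAlgebra ℝ Γ :=
  fun i => if i = u.1 then MonoidAlgebra.single u.2 1 else 0

theorem ip_av (x : κ → MonoidAlgebra ℝ Γ) (v : κ × Γ) : ip x (av v) = (x v.1).coeff v.2 := by
  unfold ip
  rw [Finset.sum_eq_single v.1]
  · rw [av, if_pos rfl, bar_single, MonoidAlgebra.coeff_mul_single_apply]
    simp
  · intro i _ hi
    rw [av, if_neg hi, bar_zero, mul_zero]
  · intro h; exact absurd (Finset.mem_univ _) h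

theorem ip_av_av [DecidableEq (κ × Γ)] (u v : κ × Γ) :
    ip (av u) (av v) = if u = v then 1 else 0 := by
  classical
  rw [ip_av, av]
  obtain ⟨i, g⟩ := u
  obtain ⟨j, h⟩ := v
  simp only
  by_cases hij : j = i
  · subst hij
    rw [if_pos rfl, MonoidAlgebra.coeff_single, Finsupp.single_apply]
    by_cases hgh : g = h
    · subst hgh; simp
    · rw [if_neg hgh, if_neg (fun hh => hgh (Prod.mk.inj hh).2)]
  · rw [if_neg hij, if_neg (fun hh => hij (Prod.mk.inj hh).1.symm)]
    rfl

theorem ip_av_mul (A : Matrix κ κ (MonoidAlgebra ℤ Γ)) (u v : κ × Γ) :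
    ip (av u ᵥ* toReal A) (av v) = bb A u v := by
  rw [ip_av, Matrix.vecMul, dotProduct, Finset.sum_eq_single u.1]
  · rw [av, if_pos rfl, MonoidAlgebra.coeff_single_mul_apply, one_mul, toReal, Matrix.map_apply,
      MonoidAlgebra.coeff_mapRingHom]
    rfl
  · intro i _ hi
    rw [av, if_neg hi, zero_mul]
  · intro h; exact absurd (Finset.mem_univ _) h

theorem ip_sum_left {T : Type} (s : Finset T) (x : T → κ → MonoidAlgebra ℝ Γ)
    (y : κ → MonoidAlgebra ℝ Γ) : ip (∑ t ∈ s, x t) y = ∑ t ∈ s, ip (x t) y := by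
  classical
  induction s using Finset.induction_on with
  | empty => rw [Finset.sum_empty, Finset.sum_empty, ip_zero_left]
  | insert a s ha ih => rw [Finset.sum_insert ha, Finset.sum_insert ha, ip_add_left, ih]

theorem ip_sum_right {T : Type} (s : Finset T) (x : T → κ → MonoidAlgebra ℝ Γ)
    (y : κ → MonoidAlgebra ℝ Γ) : ip y (∑ t ∈ s, x t) = ∑ t ∈ s, ip y (x t) := by
  rw [ip_comm, ip_sum_left]
  exact Finset.sum_congr rfl fun t _ => ip_comm _ _

/-- the quadratic form at a sum of standard vectors -/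
theorem quad_atoms [DecidableEq (κ × Γ)] (A : Matrix κ κ (MonoidAlgebra ℤ Γ)) {c : ℝ} (hc : 0 < c)
    (hA : NormLE A c) {T : Type} [Fintype T] (F : T → κ × Γ) (f : T → ℝ) :
    ∑ t, f t * ∑ t', f t' * (bb A (F t) (F t') : ℝ)
      ≤ c * ∑ t, f t * ∑ t', f t' * (if F t = F t' then 1 else 0) := by
  set h : κ → MonoidAlgebra ℝ Γ := ∑ t, f t • av (F t) with hh
  have e1 : ip (h ᵥ* toReal A) h = ∑ t, f t * ∑ t', f t' * (bb A (F t) (F t') : ℝ) := by
    have e2 : h ᵥ* toReal A = ∑ t, f t • (av (F t) ᵥ* toReal A) := by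
      rw [hh, Matrix.sum_vecMul]
      exact Finset.sum_congr rfl fun t _ => Matrix.smul_vecMul _ _ _
    rw [e2, ip_sum_left]
    refine Finset.sum_congr rfl fun t _ => ?_
    rw [ip_smul_left, hh, ip_sum_right]
    congr 1
    refine Finset.sum_congr rfl fun t' _ => ?_
    rw [ip_smul_right, ip_av_mul]
  have e3 : normSq h = ∑ t, f t * ∑ t', f t' * (if F t = F t' then 1 else 0) := by
    rw [← ip_self]
    nth_rewrite 1 [hh]
    rw [ip_sum_left]
    refine Finset.sum_congr rfl fun t _ => ?_
    rw [ip_smul_left, hh, ip_sum_right]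
    congr 1
    refine Finset.sum_congr rfl fun t' _ => ?_
    rw [ip_smul_right, ip_av_av]
  rw [← e1, ← e3]
  have h1 := two_ip_le (h ᵥ* toReal A) h c⁻¹ (inv_pos.2 hc)
  rw [inv_inv] at h1
  have h2 := mul_le_mul_of_nonneg_left (hA h) (inv_pos.2 hc).le
  have h3 : c⁻¹ * (c ^ 2 * normSq h) = c * normSq h := by
    field_simp
  rw [h3] at h2
  have h4 := le_abs_self (ip (h ᵥ* toReal A) h)
  linarith

/-- the lower bound -/
theorem tripod_lower [DecidableEq (κ × Γ)] (A : Matrix κ κ (MonoidAlgebra ℤ Γ)) {c : ℝ}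
    (hc : 0 < c) (hA : NormLE A c) (v : κ × Γ) (s : Fin 3 → ℕ → κ × Γ) (h0 : ∀ a, s a 0 = v)
    (hroot : ∀ y, ∑ a, (if s a 1 = y then (1 : ℤ) else 0) ≤ bb A v y)
    (harm : ∀ a k y, (if s a k = y then (1 : ℤ) else 0) + (if s a (k + 2) = y then 1 else 0)
      ≤ bb A (s a (k + 1)) y) : 9 / 2 ≤ c ^ 2 := by
  set r := Real.sqrt 2 with hr
  have hr0 : 0 < r := Real.sqrt_pos.2 two_pos
  have hr2 : r ^ 2 = 2 := Real.sq_sqrt two_pos.le
  set x := r / 2 with hx
  have hx0 : 0 < x := by positivity
  have hx2 : x ^ 2 = 1 / 2 := by rw [hx, div_pow, hr2]; norm_num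
  have hx1 : x ≤ 3 / 4 := by
    by_contra h
    push Not at h
    nlinarith
  suffices hcx : 3 * x ≤ c by
    have : (3 * x) ^ 2 ≤ c ^ 2 := pow_le_pow_left₀ (by positivity) hcx 2
    rw [mul_pow, hx2] at this
    linarith
  by_contra hcon
  push Not at hcon
  -- the key estimate
  have key : ∀ N : ℕ, 3 * x - c ≤ 30 * x ^ (N + 1) := by
    intro N
    let T := Option (Fin 3 × Fin N)
    let F : T → κ × Γ := fun t => t.elim v fun p => s p.1 (p.2 + 1)
    let f : T → ℝ := fun t => t.elim 1 fun p => x ^ ((p.2 : ℕ) + 1)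
    have hf0 : ∀ t, 0 ≤ f t := by
      rintro (_ | ⟨a, k⟩)
      · exact zero_le_one
      · exact pow_nonneg hx0.le _
    let H : κ × Γ → ℝ := fun y => ∑ t, f t * (if y = F t then 1 else 0)
    let P : κ × Γ → ℝ := fun y => ∑ t, f t * (bb A y (F t) : ℝ)
    have hH0 : ∀ y, 0 ≤ H y := fun y => Finset.sum_nonneg fun t _ =>
      mul_nonneg (hf0 t) (by split_ifs <;> norm_num)
    have hsum : ∀ φ : T → ℝ, ∑ t, φ t = φ none + ∑ a : Fin 3, ∑ k : Fin N, φ (some (a, k)) := by
      intro φ
      rw [Fintype.sum_option, Fintype.sum_prod_type]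
    have hHle : ∀ y, H y ≤ 10 := by
      intro y
      have h1 : H y ≤ ∑ t, f t := Finset.sum_le_sum fun t _ => by
        have := hf0 t
        split_ifs <;> simp [this]
      refine h1.trans ?_
      rw [hsum]
      have h2 : ∀ a : Fin 3, ∑ k : Fin N, f (some (a, k)) ≤ 3 := by
        intro a
        have h3 : ∑ k : Fin N, f (some (a, k)) = ∑ k ∈ Finset.range N, x ^ (k + 1) :=
          (Finset.sum_range fun k => x ^ (k + 1)).symm
        rw [h3]
        have h4 : ∀ M : ℕ, ∑ k ∈ Finset.range M, x ^ (k + 1) ≤ 3 - 3 * x ^ M := by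
          intro M
          induction M with
          | zero => simp
          | succ M ih =>
            rw [Finset.sum_range_succ]
            have h5 : 0 < x ^ M := pow_pos hx0 _
            have h6 : x ^ (M + 1) = x * x ^ M := by ring
            rw [h6]
            nlinarith
        have h5 := h4 N
        have h6 : 0 < x ^ N := pow_pos hx0 _
        linarith
      have h3 : ∑ a : Fin 3, ∑ k : Fin N, f (some (a, k)) ≤ ∑ _a : Fin 3, (3 : ℝ) :=
        Finset.sum_le_sum fun a _ => h2 a
      have h4 : ∑ _a : Fin 3, (3 : ℝ) = 9 := by simp; norm_num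
      have h5 : f none = 1 := rfl
      linarith
    have hPv : ∑ a, H (s a 1) ≤ P v := by
      have h1 : ∑ a, H (s a 1) = ∑ t, f t * ∑ a, (if s a 1 = F t then (1 : ℝ) else 0) := by
        simp only [H]
        rw [Finset.sum_comm]
        exact Finset.sum_congr rfl fun t _ => by rw [Finset.mul_sum]
      rw [h1]
      refine Finset.sum_le_sum fun t _ => mul_le_mul_of_nonneg_left ?_ (hf0 t)
      have h2 : ((∑ a, (if s a 1 = F t then (1 : ℤ) else 0) : ℤ) : ℝ) ≤ (bb A v (F t) : ℝ) :=
        Int.cast_le.2 (hroot (F t))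
      push_cast at h2
      exact h2
    have hPa : ∀ a k, H (s a k) + H (s a (k + 2)) ≤ P (s a (k + 1)) := by
      intro a k
      simp only [H, P]
      rw [← Finset.sum_add_distrib]
      refine Finset.sum_le_sum fun t _ => ?_
      rw [← mul_add]
      refine mul_le_mul_of_nonneg_left ?_ (hf0 t)
      have h2 : (((if s a k = F t then (1 : ℤ) else 0) + (if s a (k + 2) = F t then 1 else 0) : ℤ)
          : ℝ) ≤ (bb A (s a (k + 1)) (F t) : ℝ) := Int.cast_le.2 (harm a k (F t))
      push_cast at h2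
      exact h2
    have hQ := quad_atoms A hc hA F f
    have e1 : ∑ t, f t * ∑ t', f t' * (bb A (F t) (F t') : ℝ) = ∑ t, f t * P (F t) := rfl
    have e2 : ∑ t, f t * ∑ t', f t' * (if F t = F t' then (1 : ℝ) else 0)
        = ∑ t, f t * H (F t) := rfl
    rw [e1, e2] at hQ
    set NN := ∑ t, f t * H (F t) with hNN
    have e3 : ∑ t, f t * P (F t)
        = P v + ∑ a : Fin 3, ∑ k ∈ Finset.range N, x ^ (k + 1) * P (s a (k + 1)) := by
      rw [hsum]
      congr 1
      · exact one_mul _
      · refine Finset.sum_congr rfl fun a _ => ?_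
        exact (Finset.sum_range fun k => x ^ (k + 1) * P (s a (k + 1))).symm
    have e4 : NN = H v + ∑ a : Fin 3, ∑ k ∈ Finset.range N, x ^ (k + 1) * H (s a (k + 1)) := by
      rw [hNN, hsum]
      congr 1
      · exact one_mul _
      · refine Finset.sum_congr rfl fun a _ => ?_
        exact (Finset.sum_range fun k => x ^ (k + 1) * H (s a (k + 1))).symm
    have e5 : ∀ (h : ℕ → ℝ) (M : ℕ), h 1 + ∑ k ∈ Finset.range M, x ^ (k + 1) * (h k + h (k + 2))
        = x * h 0 + 3 * x * ∑ k ∈ Finset.range M, x ^ (k + 1) * h (k + 1) - x ^ (M + 1) * h M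
          + x ^ M * h (M + 1) := by
      intro h M
      induction M with
      | zero => simp
      | succ M ih =>
        rw [Finset.sum_range_succ, ← add_assoc, ih, Finset.sum_range_succ]
        have h1 : x ^ (M + 1) = x * x ^ M := by ring
        have h2 : x ^ (M + 1 + 1) = x ^ M / 2 := by
          have h5 : x ^ (M + 1 + 1) = x ^ M * x ^ 2 := by ring
          rw [h5, hx2]
          ring
        have h3 : x * x ^ (M + 1) = x ^ M / 2 := by rw [← h2]; ring
        have h4 : 3 * x * (x ^ (M + 1) * h (M + 1)) = 3 * (x ^ M / 2) * h (M + 1) := by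
          rw [← h3]; ring
        rw [mul_add (3 * x), h4, h2]
        ring
    have e6 : ∀ a : Fin 3, H (s a 1) + ∑ k ∈ Finset.range N, x ^ (k + 1) * P (s a (k + 1))
        ≥ x * H v + 3 * x * ∑ k ∈ Finset.range N, x ^ (k + 1) * H (s a (k + 1))
          - 10 * x ^ (N + 1) := by
      intro a
      have h1 := e5 (fun k => H (s a k)) N
      simp only [h0] at h1
      have h2 : ∑ k ∈ Finset.range N, x ^ (k + 1) * (H (s a k) + H (s a (k + 2)))
          ≤ ∑ k ∈ Finset.range N, x ^ (k + 1) * P (s a (k + 1)) :=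
        Finset.sum_le_sum fun k _ => mul_le_mul_of_nonneg_left (hPa a k) (pow_nonneg hx0.le _)
      have h3 : 0 ≤ x ^ N * H (s a (N + 1)) := mul_nonneg (pow_nonneg hx0.le _) (hH0 _)
      have h4 : x ^ (N + 1) * H (s a N) ≤ x ^ (N + 1) * 10 :=
        mul_le_mul_of_nonneg_left (hHle _) (pow_nonneg hx0.le _)
      linarith
    have e7 : P v + ∑ a : Fin 3, ∑ k ∈ Finset.range N, x ^ (k + 1) * P (s a (k + 1))
        ≥ 3 * x * NN - 30 * x ^ (N + 1) := by
      have h1 := e6 0
      have h2 := e6 1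
      have h3 := e6 2
      rw [e4]
      rw [Fin.sum_univ_three] at hPv
      rw [Fin.sum_univ_three, Fin.sum_univ_three]
      linarith
    have hNN1 : 1 ≤ NN := by
      have h1 : f none * H (F none) ≤ NN :=
        Finset.single_le_sum (f := fun t => f t * H (F t))
          (fun t _ => mul_nonneg (hf0 t) (hH0 _)) (Finset.mem_univ none)
      have h2 : f none * (if F none = F none then (1 : ℝ) else 0) ≤ H (F none) :=
        Finset.single_le_sum (f := fun t => f t * (if F none = F t then (1 : ℝ) else 0))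
          (fun t _ => mul_nonneg (hf0 t) (by split_ifs <;> norm_num)) (Finset.mem_univ none)
      rw [if_pos rfl] at h2
      have h3 : f none = 1 := rfl
      rw [h3] at h1 h2
      linarith
    rw [e3] at hQ
    have h5 : (3 * x - c) * NN ≤ 30 * x ^ (N + 1) := by linarith
    have h6 : (3 * x - c) * 1 ≤ (3 * x - c) * NN :=
      mul_le_mul_of_nonneg_left hNN1 (by linarith)
    linarith
  obtain ⟨N, hN⟩ := exists_pow_lt_of_lt_one (show 0 < (3 * x - c) / 30 by linarith)
    (show x < 1 by linarith)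
  have h1 := key N
  have h2 : x ^ (N + 1) ≤ x ^ N := by
    rw [pow_succ]
    exact mul_le_of_le_one_right (pow_nonneg hx0.le _) (by linarith)
  rw [lt_div_iff₀ (by norm_num)] at hN
  linarith

end Pool.Agent.N510.LT
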